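import Mathlib

namespace Pool.Agent.MP3c0690

open Polynomial Finset

section Red

variable {k : Type*} [Field k]

/-- The bivariate polynomial with a given table of coefficients. -/
noncomputable def tab (b a : ℕ) (g : Fin b × Fin a → k) : Polynomial (Polynomial k) :=
  ∑ j : Fin b, ∑ i : Fin a, monomial (j : ℕ) (monomial (i : ℕ) (g (j, i)))

theorem tab_coeff_of_le {b a : ℕ} (g : Fin b × Fin a → k) {j : ℕ} (hj : b ≤ j) :
    (tab b a g).coeff j = 0 := by
  unfold tab
  simp only [finsetSum_coeff, coeff_monomial]
  refine Finset.sum_eq_zero fun x _ => Finset.sum_eq_zero fun y _ => ?_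
  rw [if_neg]
  have := x.2
  omega

theorem tab_coeff_coeff_of_le {b a : ℕ} (g : Fin b × Fin a → k) (j : ℕ) {i : ℕ} (hi : a ≤ i) :
    ((tab b a g).coeff j).coeff i = 0 := by
  unfold tab
  simp only [finsetSum_coeff, coeff_monomial]
  refine Finset.sum_eq_zero fun x _ => Finset.sum_eq_zero fun y _ => ?_
  split_ifs
  · rw [coeff_monomial, if_neg]
    have := y.2
    omega
  · simp

theorem tab_coeff_coeff {b a : ℕ} (g : Fin b × Fin a → k) (j : Fin b) (i : Fin a) :
    ((tab b a g).coeff j).coeff i = g (j, i) := by
  unfold tab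
  simp only [finsetSum_coeff, coeff_monomial]
  rw [Finset.sum_eq_single j, Finset.sum_eq_single i]
  · simp
  · intro y _ hy
    simp only [if_true]
    rw [coeff_monomial, if_neg]
    intro h
    exact hy (Fin.ext h)
  · simp
  · intro x _ hx
    refine Finset.sum_eq_zero fun y _ => ?_
    rw [if_neg (fun h => hx (Fin.ext h))]
    simp
  · simp

theorem tab_add {b a : ℕ} (g h : Fin b × Fin a → k) : tab b a (g + h) = tab b a g + tab b a h := by
  unfold tab
  simp [Finset.sum_add_distrib]

theorem tab_smul {b a : ℕ} (c : k) (g : Fin b × Fin a → k) :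
    tab b a (c • g) = c • tab b a g := by
  unfold tab
  simp only [Finset.smul_sum, Pi.smul_apply, smul_monomial]

theorem tab_eq_zero {b a : ℕ} {g : Fin b × Fin a → k} (h : tab b a g = 0) : g = 0 := by
  funext ⟨j, i⟩
  rw [← tab_coeff_coeff g j i, h]
  simp

theorem natDegree_lt_of_coeff {R : Type*} [Semiring R] {f : R[X]} {n : ℕ}
    (h : ∀ j, n ≤ j → f.coeff j = 0) : f.degree < n := by
  rw [Polynomial.degree_lt_iff_coeff_zero]
  exact h

/-- Dimension count: if `N * n' < n * (A + 1)` there is a nonzero `G` of degree `< n` in the outer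
variable and of degree `≤ A` in the inner one such that `Y ^ N * G` is congruent mod `H` to a
polynomial of degree `< n`. -/
theorem exists_reduction (H : Polynomial (Polynomial k)) (hH : H ≠ 0) (n' A N : ℕ)
    (hn' : ∀ j, (H.coeff j).natDegree ≤ n') (hlt : N * n' < H.natDegree * (A + 1)) :
    ∃ G R : Polynomial (Polynomial k), G ≠ 0 ∧ G.degree < (H.natDegree : WithBot ℕ) ∧
      (∀ j, (G.coeff j).natDegree ≤ A) ∧
      (X ^ N * G - R * H).degree < (H.natDegree : WithBot ℕ) := by
  classical
  set n := H.natDegree with hn
  -- the linear map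
  let Φ : ((Fin n × Fin (A + 1) → k) × (Fin N × Fin (A + 1) → k)) →ₗ[k]
      (Fin N × Fin (A + n' + 1) → k) :=
    { toFun := fun x ji =>
        ((X ^ N * tab n (A + 1) x.1 - tab N (A + 1) x.2 * H).coeff (n + ji.1)).coeff ji.2
      map_add' := by
        intro x y
        funext ji
        simp only [Prod.fst_add, Prod.snd_add, tab_add, Pi.add_apply]
        rw [← coeff_add, ← coeff_add]
        congr 2
        ring
      map_smul' := by
        intro c x
        funext ji
        simp only [Prod.smul_fst, Prod.smul_snd, tab_smul, Pi.smul_apply, RingHom.id_apply]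
        rw [mul_smul_comm, smul_mul_assoc, ← smul_sub, coeff_smul, coeff_smul] }
  have hker : LinearMap.ker Φ ≠ ⊥ := by
    apply LinearMap.ker_ne_bot_of_finrank_lt
    rw [Module.finrank_prod, Module.finrank_fintype_fun_eq_card,
      Module.finrank_fintype_fun_eq_card, Module.finrank_fintype_fun_eq_card]
    simp only [Fintype.card_prod, Fintype.card_fin]
    nlinarith
  obtain ⟨x, hx, hx0⟩ := (Submodule.ne_bot_iff _).1 hker
  have hx' : ∀ (j : Fin N) (i : Fin (A + n' + 1)),
      ((X ^ N * tab n (A + 1) x.1 - tab N (A + 1) x.2 * H).coeff (n + j)).coeff i = 0 := by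
    intro j i
    exact congrFun (LinearMap.mem_ker.1 hx) (j, i)
  set G := tab n (A + 1) x.1 with hG
  set R := tab N (A + 1) x.2 with hR
  have hGdeg : G.degree < (n : WithBot ℕ) := natDegree_lt_of_coeff fun j hj => tab_coeff_of_le _ hj
  have hRdeg : R.degree < (N : WithBot ℕ) := natDegree_lt_of_coeff fun j hj => tab_coeff_of_le _ hj
  have hGc : ∀ j, (G.coeff j).natDegree ≤ A := by
    intro j
    rw [natDegree_le_iff_coeff_eq_zero]
    intro i hi
    exact tab_coeff_coeff_of_le _ j hi
  have hRc : ∀ j, (R.coeff j).natDegree ≤ A := by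
    intro j
    rw [natDegree_le_iff_coeff_eq_zero]
    intro i hi
    exact tab_coeff_coeff_of_le _ j hi
  have hdeg : (X ^ N * G - R * H).degree < (n : WithBot ℕ) := by
    apply natDegree_lt_of_coeff
    intro j hj
    obtain ⟨j', rfl⟩ := Nat.exists_eq_add_of_le hj
    by_cases hj' : j' < N
    · -- coefficient vanishes by the choice
      have hc : (((X ^ N * G - R * H)).coeff (n + j')).natDegree ≤ A + n' := by
        rw [coeff_sub]
        refine (natDegree_sub_le _ _).trans (max_le ?_ ?_)
        · rw [coeff_X_pow_mul']
          split_ifs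
          · exact (hGc _).trans (Nat.le_add_right _ _)
          · simp
        · rw [coeff_mul]
          refine natDegree_sum_le_of_forall_le _ _ ?_
          intro ab _
          refine natDegree_mul_le.trans ?_
          exact Nat.add_le_add (hRc _) (hn' _)
      refine Polynomial.ext fun i => ?_
      rw [coeff_zero]
      by_cases hi : i < A + n' + 1
      · exact hx' ⟨j', hj'⟩ ⟨i, hi⟩
      · exact coeff_eq_zero_of_natDegree_lt (by omega)
    · -- too large degree
      rw [coeff_sub]
      have h1 : (X ^ N * G).coeff (n + j') = 0 := by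
        rw [coeff_X_pow_mul', if_pos (by omega)]
        exact tab_coeff_of_le _ (by omega)
      have h2 : (R * H).coeff (n + j') = 0 := by
        apply coeff_eq_zero_of_degree_lt
        rcases eq_or_ne R 0 with hR0 | hR0
        · rw [hR0, zero_mul, degree_zero]
          exact WithBot.bot_lt_coe _
        · have : (R * H).degree = R.natDegree + H.natDegree := by
            rw [degree_mul, degree_eq_natDegree hR0, degree_eq_natDegree hH]
          rw [this]
          have h3 : R.natDegree < N := by
            rwa [degree_eq_natDegree hR0, Nat.cast_lt] at hRdeg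
          have : R.natDegree + H.natDegree < n + j' := by omega
          exact_mod_cast this
      rw [h1, h2, sub_zero]
  refine ⟨G, R, ?_, hGdeg, hGc, hdeg⟩
  intro hG0
  have hR0 : R = 0 := by
    by_contra hR0
    rw [hG0, mul_zero, zero_sub, degree_neg, degree_mul, degree_eq_natDegree hR0,
      degree_eq_natDegree hH] at hdeg
    have : R.natDegree + n < n := by exact_mod_cast hdeg
    omega
  apply hx0
  rw [hG] at hG0
  rw [hR] at hR0
  exact Prod.ext (tab_eq_zero hG0) (tab_eq_zero hR0)

end Red

end Pool.Agent.MP3c0690
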