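import Mathlib

namespace Pool.Agent.MP3c0690

open Finset

section Lower

variable {𝕂 : Type*} [Field 𝕂] (v : AddValuation 𝕂 (WithTop ℤ))

theorem exists_lower (z : 𝕂) : ∃ C : ℤ, (C : WithTop ℤ) ≤ v z := by
  by_cases hz : v z = ⊤
  · exact ⟨0, by rw [hz]; exact le_top⟩
  · obtain ⟨n, hn⟩ := WithTop.ne_top_iff_exists.1 hz
    exact ⟨n, hn.le⟩

end Lower

/-- A uniform lower bound for finitely many conditions that are monotone in the bound. -/
theorem exists_uniform {α : Type*} [Finite α] (P : α → ℤ → Prop)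
    (hmono : ∀ a m n, m ≤ n → P a n → P a m) (h : ∀ a, ∃ n, P a n) :
    ∃ n ≤ 0, ∀ a, P a n := by
  classical
  have := Fintype.ofFinite α
  choose n hn using h
  refine ⟨-∑ a, |n a|, ?_, fun a => hmono a _ _ ?_ (hn a)⟩
  · rw [neg_nonpos]
    exact Finset.sum_nonneg fun a _ => abs_nonneg _
  · have h1 : |n a| ≤ ∑ a, |n a| :=
      Finset.single_le_sum (f := fun a => |n a|) (fun a _ => abs_nonneg _) (Finset.mem_univ a)
    have h2 := neg_abs_le (n a)
    linarith

section Size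

variable {𝕂 : Type*} [Field 𝕂] (v : AddValuation 𝕂 (WithTop ℤ))
variable {K : Type*} [Field K] (θ : K →+* 𝕂)
variable {M : Type*} [Field M] [Algebra K M]
variable {ι : Type*} [Finite ι] (μ : Module.Basis ι K M)

/-- All coordinates of `x` with respect to the basis `μ` have valuation at least `a`. -/
def Ge (a : ℤ) (x : M) : Prop := ∀ i, (a : WithTop ℤ) ≤ v (θ (μ.repr x i))

variable {v θ μ}

omit [Finite ι] in
theorem Ge.mono {a b : ℤ} (h : a ≤ b) {x : M} (hx : Ge v θ μ b x) : Ge v θ μ a x :=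
  fun i => le_trans (by exact_mod_cast h) (hx i)

omit [Finite ι] in
theorem Ge.zero (a : ℤ) : Ge v θ μ a (0 : M) := fun i => by simp

omit [Finite ι] in
theorem Ge.add {a : ℤ} {x y : M} (hx : Ge v θ μ a x) (hy : Ge v θ μ a y) :
    Ge v θ μ a (x + y) := fun i => by
  rw [map_add, Finsupp.add_apply, map_add]
  exact AddValuation.map_le_add v (hx i) (hy i)

omit [Finite ι] in
theorem Ge.sum {a : ℤ} {κ : Type*} {s : Finset κ} {f : κ → M} (h : ∀ i ∈ s, Ge v θ μ a (f i)) :
    Ge v θ μ a (∑ i ∈ s, f i) := by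
  classical
  induction s using Finset.induction_on with
  | empty => simpa using Ge.zero a
  | insert i s hi ih =>
    rw [Finset.sum_insert hi]
    exact (h i (Finset.mem_insert_self _ _)).add
      (ih fun j hj => h j (Finset.mem_insert_of_mem hj))

omit [Finite ι] in
theorem Ge.smul {a b : ℤ} {x : M} (hx : Ge v θ μ a x) {k : K} (hk : (b : WithTop ℤ) ≤ v (θ k)) :
    Ge v θ μ (a + b) (k • x) := fun i => by
  rw [map_smul, Finsupp.smul_apply, smul_eq_mul, map_mul, AddValuation.map_mul, add_comm,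
    WithTop.coe_add]
  exact add_le_add hk (hx i)

variable (v θ μ)

theorem exists_Ge (x : M) : ∃ C : ℤ, Ge v θ μ C x := by
  obtain ⟨n, _, hn⟩ := exists_uniform (fun (i : ι) (C : ℤ) => (C : WithTop ℤ) ≤ v (θ (μ.repr x i)))
    (fun i m n hmn h => le_trans (by exact_mod_cast hmn) h) (fun i => exists_lower v _)
  exact ⟨n, hn⟩

theorem exists_Ge_family {α : Type*} [Finite α] (f : α → M) :
    ∃ C : ℤ, C ≤ 0 ∧ ∀ a, Ge v θ μ C (f a) :=
  exists_uniform (fun a C => Ge v θ μ C (f a)) (fun _ _ _ hmn h => h.mono hmn)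
    (fun _ => exists_Ge v θ μ _)

theorem exists_linear_bound (f : M →ₗ[K] M) :
    ∃ C : ℤ, C ≤ 0 ∧ ∀ (a : ℤ) (x : M), Ge v θ μ a x → Ge v θ μ (a + C) (f x) := by
  classical
  have := Fintype.ofFinite ι
  obtain ⟨C, hC0, hC⟩ := exists_Ge_family v θ μ (fun i => f (μ i))
  refine ⟨C, hC0, fun a x hx => ?_⟩
  have h1 : f x = ∑ i, μ.repr x i • f (μ i) := by
    conv_lhs => rw [← μ.sum_repr x]
    rw [map_sum]
    simp only [map_smul]
  rw [h1]
  refine Ge.sum fun i _ => ?_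
  rw [add_comm]
  exact (hC i).smul (hx i)

theorem exists_mul_bound :
    ∃ C : ℤ, C ≤ 0 ∧ ∀ (a b : ℤ) (x y : M), Ge v θ μ a x → Ge v θ μ b y →
      Ge v θ μ (a + b + C) (x * y) := by
  classical
  have := Fintype.ofFinite ι
  obtain ⟨C, hC0, hC⟩ := exists_uniform
    (fun (i : ι) (C : ℤ) => ∀ (b : ℤ) (y : M), Ge v θ μ b y → Ge v θ μ (b + C) (μ i * y))
    (fun i m n hmn h b y hy => (h b y hy).mono (by omega)) (fun i => by
      obtain ⟨C, _, hC⟩ := exists_linear_bound v θ μ (LinearMap.mulLeft K (μ i))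
      exact ⟨C, fun b y hy => hC b y hy⟩)
  refine ⟨C, hC0, fun a b x y hx hy => ?_⟩
  have h1 : x * y = ∑ i, μ.repr x i • (μ i * y) := by
    conv_lhs => rw [← μ.sum_repr x]
    rw [Finset.sum_mul]
    simp only [smul_mul_assoc]
  rw [h1]
  refine Ge.sum fun i _ => ?_
  have := (hC i b y hy).smul (hx i)
  exact this.mono (by omega)

variable {v θ μ}

omit [Finite ι] in
theorem Ge.pow {C : ℤ} (hC0 : C ≤ 0)
    (hC : ∀ (a b : ℤ) (x y : M), Ge v θ μ a x → Ge v θ μ b y → Ge v θ μ (a + b + C) (x * y))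
    {a : ℤ} {x : M} (hx : Ge v θ μ a x) (n : ℕ) (hn : 0 < n) :
    Ge v θ μ (n * (a + C)) (x ^ n) := by
  obtain ⟨m, rfl⟩ := Nat.exists_eq_add_of_lt hn
  rw [zero_add]
  induction m with
  | zero =>
    simp only [zero_add, Nat.cast_one, one_mul, pow_one]
    exact hx.mono (by omega)
  | succ m ih =>
    rw [pow_succ]
    have := hC _ _ _ _ (ih (by omega)) hx
    refine this.mono ?_
    push_cast
    linarith

omit [Finite ι] in
theorem Ge.prod {C C1 : ℤ}
    (hC : ∀ (a b : ℤ) (x y : M), Ge v θ μ a x → Ge v θ μ b y → Ge v θ μ (a + b + C) (x * y))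
    (hC1 : Ge v θ μ C1 1)
    {a : ℤ} {κ : Type*} (s : Finset κ) (f : κ → M) (h : ∀ i ∈ s, Ge v θ μ a (f i)) :
    Ge v θ μ (s.card * (a + C) + C1) (∏ i ∈ s, f i) := by
  classical
  induction s using Finset.induction_on with
  | empty => simpa using hC1
  | insert i s hi ih =>
    rw [Finset.prod_insert hi, Finset.card_insert_of_notMem hi]
    have := hC _ _ _ _ (h i (Finset.mem_insert_self _ _))
      (ih fun j hj => h j (Finset.mem_insert_of_mem hj))
    refine this.mono ?_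
    push_cast
    linarith

variable (v θ μ)

omit [Finite ι] in
theorem exists_base_bound :
    ∃ C : ℤ, ∀ (a : ℤ) (k : K), Ge v θ μ a (algebraMap K M k) → ((a + C : ℤ) : WithTop ℤ) ≤ v (θ k) := by
  classical
  obtain ⟨i, hi⟩ : ∃ i, μ.repr (1 : M) i ≠ 0 := by
    by_contra hcon
    push Not at hcon
    have : μ.repr (1 : M) = 0 := Finsupp.ext hcon
    rw [LinearEquiv.map_eq_zero_iff] at this
    exact one_ne_zero this
  have hi' : v (θ (μ.repr (1 : M) i)) ≠ ⊤ := by
    rw [AddValuation.ne_top_iff]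
    exact (map_ne_zero θ).2 hi
  obtain ⟨n, hn⟩ := WithTop.ne_top_iff_exists.1 hi'
  refine ⟨-n, fun a k hk => ?_⟩
  have h1 := hk i
  rw [Algebra.algebraMap_eq_smul_one, map_smul, Finsupp.smul_apply, smul_eq_mul, map_mul,
    AddValuation.map_mul, ← hn] at h1
  by_cases htop : v (θ k) = ⊤
  · rw [htop]
    exact le_top
  · obtain ⟨m, hm⟩ := WithTop.ne_top_iff_exists.1 htop
    rw [← hm] at h1 ⊢
    have h2 : a ≤ m + n := by exact_mod_cast h1
    exact_mod_cast (by linarith : a + -n ≤ m)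

end Size

section Coef

variable {𝕂 : Type*} [Field 𝕂] (v : AddValuation 𝕂 (WithTop ℤ)) {F : Type*} [AddCommGroup F]

theorem coef_iter (hcoef : ∀ a : ℤ, ∃ c : 𝕂 →+ F, ∀ x, (a : WithTop ℤ) ≤ v x → c x = 0 →
      ((a + 1 : ℤ) : WithTop ℤ) ≤ v x) (a : ℤ) (k : ℕ) :
    ∃ c : 𝕂 →+ (Fin k → F), ∀ x, (a : WithTop ℤ) ≤ v x → c x = 0 →
      ((a + k : ℤ) : WithTop ℤ) ≤ v x := by
  choose c hc using hcoef
  refine ⟨AddMonoidHom.pi fun j : Fin k => c (a + j), fun x hx h0 => ?_⟩
  have h1 : ∀ j : ℕ, j < k → c (a + j) x = 0 := fun j hj => congrFun h0 ⟨j, hj⟩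
  have h2 : ∀ j : ℕ, j ≤ k → ((a + j : ℤ) : WithTop ℤ) ≤ v x := by
    intro j
    induction j with
    | zero => intro _; simpa using hx
    | succ j ih =>
      intro hj
      have := hc (a + j) x (ih (by omega)) (h1 j (by omega))
      rw [Nat.cast_succ, ← add_assoc]
      exact this
  exact h2 k le_rfl

end Coef

end Pool.Agent.MP3c0690
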