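import Mathlib
import Pool.Agent.Lib.MP_3c0690_nt.Size
import Pool.Agent.Lib.MP_3c0690_nt.Red

namespace Pool.Agent.MP3c0690

open Finset Polynomial

set_option linter.unusedSectionVars false

section Swap

variable {k : Type*} [CommRing k]

theorem swap_coeff (G : Polynomial (Polynomial k)) (i j : ℕ) :
    ((Bivariate.swap G).coeff i).coeff j = (G.coeff j).coeff i := by
  induction G using Polynomial.induction_on' with
  | add P Q hP hQ => simp only [map_add, coeff_add, hP, hQ]
  | monomial n f =>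
    induction f using Polynomial.induction_on' with
    | add P Q hP hQ => simp only [map_add, coeff_add, hP, hQ]
    | monomial m r =>
      rw [Bivariate.swap_monomial_monomial]
      simp only [coeff_monomial]
      by_cases h1 : m = i <;> by_cases h2 : n = j <;> simp [h1, h2, coeff_monomial]

theorem swap_natDegree_coeff_le (G : Polynomial (Polynomial k)) (j : ℕ) :
    (G.coeff j).natDegree ≤ (Bivariate.swap G).natDegree := by
  rw [natDegree_le_iff_coeff_eq_zero]
  intro i hi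
  rw [← swap_coeff]
  rw [coeff_eq_zero_of_natDegree_lt hi, coeff_zero]

theorem natDegree_coeff_swap_le (G : Polynomial (Polynomial k)) (j : ℕ) :
    ((Bivariate.swap G).coeff j).natDegree ≤ G.natDegree := by
  have := swap_natDegree_coeff_le (Bivariate.swap G) j
  rwa [Bivariate.swap_swap_apply] at this

theorem evalEval_swap (x y : k) (G : Polynomial (Polynomial k)) :
    (Bivariate.swap G).evalEval y x = G.evalEval x y := by
  have := Bivariate.aevalAeval_swap (R := k) (A := k) y x G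
  rw [coe_aevalAeval_eq_evalEval, coe_aevalAeval_eq_evalEval] at this
  exact this

theorem evalEval_eq_sum (x y : k) (G : Polynomial (Polynomial k)) (n A : ℕ)
    (hn : G.natDegree ≤ n) (hA : ∀ j, (G.coeff j).natDegree ≤ A) :
    G.evalEval x y = ∑ s : Fin (n + 1) × Fin (A + 1),
      (G.coeff s.1).coeff s.2 * x ^ (s.2 : ℕ) * y ^ (s.1 : ℕ) := by
  have h1 : G.evalEval x y = ∑ j ∈ range (n + 1), (G.coeff j).eval x * y ^ j := by
    rw [evalEval, eval_eq_sum_range' (Nat.lt_succ_of_le hn), eval_finsetSum]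
    refine Finset.sum_congr rfl fun j _ => ?_
    rw [eval_mul, eval_pow, eval_C]
  rw [h1, Finset.sum_range, Fintype.sum_prod_type]
  refine Finset.sum_congr rfl fun j _ => ?_
  rw [eval_eq_sum_range' (Nat.lt_succ_of_le (hA j)), Finset.sum_mul, Finset.sum_range]

end Swap

section Bounds

variable {F : Type*} [Field F]
variable {L : Type*} [Field L] [Algebra (Polynomial F) L] [IsFractionRing (Polynomial F) L]
variable {𝕂 : Type*} [Field 𝕂] [Algebra L 𝕂] (v : AddValuation 𝕂 (WithTop ℤ))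

/-- Size of `G (T ^ q, ρ)` for `ρ` in a bounded set. -/
theorem evalEval_lower (hv : ∀ P : Polynomial F, P ≠ 0 →
      v (algebraMap L 𝕂 (algebraMap (Polynomial F) L P)) =
        ((-(P.natDegree : ℤ) : ℤ) : WithTop ℤ))
    (G : Polynomial (Polynomial L)) (A : ℕ) (hA : ∀ j, (G.coeff j).natDegree ≤ A) (c : ℤ) :
    ∃ C : ℤ, ∀ (q : ℕ) (ρ : L), (c : WithTop ℤ) ≤ v (algebraMap L 𝕂 ρ) →
      ((-(A : ℤ) * q + C : ℤ) : WithTop ℤ) ≤
        v (algebraMap L 𝕂 (G.evalEval (algebraMap (Polynomial F) L X ^ q) ρ)) := by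
  obtain ⟨C, hC0, hC⟩ := exists_uniform
    (fun (s : Fin (G.natDegree + 1) × Fin (A + 1)) (C : ℤ) =>
      (C : WithTop ℤ) ≤ v (algebraMap L 𝕂 ((G.coeff s.1).coeff s.2)))
    (fun _ _ _ hmn h => le_trans (by exact_mod_cast hmn) h) (fun s => exists_lower v _)
  refine ⟨C + (G.natDegree : ℤ) * min c 0, fun q ρ hρ => ?_⟩
  rw [evalEval_eq_sum _ _ G G.natDegree A le_rfl hA, map_sum]
  apply AddValuation.map_le_sum
  intro s _
  have e1 : algebraMap L 𝕂 ((G.coeff s.1).coeff s.2 *
      (algebraMap (Polynomial F) L X ^ q) ^ (s.2 : ℕ) * ρ ^ (s.1 : ℕ)) =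
      algebraMap L 𝕂 ((G.coeff s.1).coeff s.2) *
      ((algebraMap L 𝕂 (algebraMap (Polynomial F) L X)) ^ q) ^ (s.2 : ℕ) *
        (algebraMap L 𝕂 ρ) ^ (s.1 : ℕ) := by
    simp only [map_mul, map_pow]
  rw [e1, AddValuation.map_mul, AddValuation.map_mul,
    AddValuation.map_pow, AddValuation.map_pow, AddValuation.map_pow, hv X X_ne_zero, natDegree_X]
  have h1 : (((s.1 : ℕ) * c : ℤ) : WithTop ℤ) ≤ (s.1 : ℕ) • v (algebraMap L 𝕂 ρ) := by
    have := nsmul_le_nsmul_right hρ (s.1 : ℕ)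
    rw [← WithTop.coe_nsmul] at this
    simpa using this
  have h2 : (((s.2 : ℕ) * (-(q : ℤ)) : ℤ) : WithTop ℤ) =
      (s.2 : ℕ) • (q • ((-((1 : ℕ) : ℤ) : ℤ) : WithTop ℤ)) := by
    rw [← WithTop.coe_nsmul, ← WithTop.coe_nsmul]
    congr 1
    simp
  rw [← h2]
  refine le_trans ?_ (add_le_add (add_le_add (hC s) le_rfl) h1)
  rw [← WithTop.coe_add, ← WithTop.coe_add, WithTop.coe_le_coe]
  have h3 : (s.1 : ℕ) ≤ G.natDegree := by have := s.1.2; omega
  have h4 : (s.2 : ℕ) ≤ A := by have := s.2.2; omega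
  have h5 : (G.natDegree : ℤ) * min c 0 ≤ (s.1 : ℕ) * c := by
    have h6 : min c 0 ≤ 0 := min_le_right _ _
    have h7 : min c 0 ≤ c := min_le_left _ _
    have h8 : ((s.1 : ℕ) : ℤ) ≤ G.natDegree := by exact_mod_cast h3
    have h9 : (0 : ℤ) ≤ ((s.1 : ℕ) : ℤ) := Int.natCast_nonneg _
    nlinarith
  have h6 : -(A : ℤ) * q ≤ (s.2 : ℕ) * (-(q : ℤ)) := by
    have h8 : ((s.2 : ℕ) : ℤ) ≤ A := by exact_mod_cast h4
    have h9 : (0 : ℤ) ≤ (q : ℤ) := Int.natCast_nonneg _
    nlinarith
  linarith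

/-- Common denominators of `G (T ^ q, P / Q)`. -/
theorem evalEval_denom (G : Polynomial (Polynomial L)) (n : ℕ) (hn : G.natDegree ≤ n) :
    ∃ r : Polynomial F, r ≠ 0 ∧ ∀ (q : ℕ) (P Q : Polynomial F), Q ≠ 0 →
      ∃ g : Polynomial F, algebraMap (Polynomial F) L g =
        algebraMap (Polynomial F) L (r * Q ^ n) *
          G.evalEval (algebraMap (Polynomial F) L X ^ q)
            (algebraMap (Polynomial F) L P / algebraMap (Polynomial F) L Q) := by
  classical
  set A := (Bivariate.swap G).natDegree with hA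
  have hA' : ∀ j, (G.coeff j).natDegree ≤ A := swap_natDegree_coeff_le G
  obtain ⟨r, hr⟩ := IsLocalization.exist_integer_multiples_of_finite
    (nonZeroDivisors (Polynomial F))
    (fun s : Fin (n + 1) × Fin (A + 1) => (G.coeff s.1).coeff s.2)
  choose g hg using hr
  refine ⟨r, nonZeroDivisors.ne_zero r.2, fun q P Q hQ => ?_⟩
  have hQL : algebraMap (Polynomial F) L Q ≠ 0 := by
    rwa [Ne, IsFractionRing.to_map_eq_zero_iff]
  refine ⟨∑ s : Fin (n + 1) × Fin (A + 1), g s * X ^ (q * s.2) *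
    (P ^ (s.1 : ℕ) * Q ^ (n - s.1)), ?_⟩
  rw [evalEval_eq_sum _ _ G n A hn hA', map_sum, Finset.mul_sum]
  refine Finset.sum_congr rfl fun s _ => ?_
  have h1 : algebraMap (Polynomial F) L (g s) =
      algebraMap (Polynomial F) L r * (G.coeff s.1).coeff s.2 := by
    rw [hg s, Algebra.smul_def]
  have h2 : algebraMap (Polynomial F) L Q ^ n =
      algebraMap (Polynomial F) L Q ^ (n - (s.1 : ℕ)) * algebraMap (Polynomial F) L Q ^ (s.1 : ℕ) := by
    rw [← pow_add, Nat.sub_add_cancel (by have := s.1.2; omega)]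
  simp only [map_mul, map_pow, div_pow, h1, h2, pow_mul]
  field_simp

end Bounds

end Pool.Agent.MP3c0690
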