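import Mathlib
import Pool.Agent.Lib.MP_3c0690_nt.Size

namespace Pool.Agent.MP3c0690

open Finset Polynomial

set_option linter.unusedSectionVars false

section Space

variable {F : Type*} [Field F]
variable {L : Type*} [Field L] [Algebra F L] [Algebra (Polynomial F) L]
  [IsScalarTower F (Polynomial F) L] [IsFractionRing (Polynomial F) L]
variable {M : Type*} [Field M] [Algebra L M] [Algebra F M] [IsScalarTower F L M]
  [Algebra (Polynomial F) M] [IsScalarTower (Polynomial F) L M]
variable (F' : Type*) [Field F'] [Algebra F F'] [Algebra F' M] [IsScalarTower F F' M]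

/-- The space spanned over `F'` by `T ^ a * b i`, `a ≤ e`. -/
noncomputable def Vsp {ι : Type*} (b : Module.Basis ι L M) (e : ℕ) : Submodule F' M :=
  Submodule.span F' (Set.range (fun x : Fin (e + 1) × ι =>
    algebraMap (Polynomial F) M X ^ (x.1 : ℕ) * b x.2))

instance Vsp_fd {ι : Type*} [Finite ι] (b : Module.Basis ι L M) (e : ℕ) :
    FiniteDimensional F' (Vsp (F := F) F' b e) :=
  FiniteDimensional.span_of_finite F' (Set.finite_range _)

theorem Vsp_exists {ι : Type*} [Fintype ι] (b : Module.Basis ι L M) (e : ℕ) {x : M}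
    (hx : x ∈ Vsp (F := F) F' b e) :
    ∃ c : Fin (e + 1) × ι → F',
      x = ∑ y, c y • (algebraMap (Polynomial F) M X ^ (y.1 : ℕ) * b y.2) := by
  obtain ⟨c, hc⟩ := (Submodule.mem_span_range_iff_exists_fun F').1 hx
  exact ⟨c, hc.symm⟩

theorem Vsp_integral [Finite F'] {ι : Type*} [Fintype ι] (b : Module.Basis ι L M)
    (hb : ∀ i, IsIntegral (Polynomial F) (b i)) (e : ℕ) {x : M}
    (hx : x ∈ Vsp (F := F) F' b e) : IsIntegral (Polynomial F) x := by
  obtain ⟨c, rfl⟩ := Vsp_exists F' b e hx
  refine IsIntegral.sum _ fun y _ => ?_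
  rw [Algebra.smul_def]
  refine IsIntegral.mul ?_ (IsIntegral.mul (isIntegral_algebraMap.pow _) (hb _))
  -- elements of a finite field are roots of unity or zero
  have hfin := Fintype.ofFinite F'
  have h1 : (algebraMap F' M (c y)) ^ (Fintype.card F') = algebraMap F' M (c y) := by
    rw [← map_pow, FiniteField.pow_card]
  refine ⟨X ^ (Fintype.card F') - X, monic_X_pow_sub ?_, by simp [h1]⟩
  rw [degree_X]
  exact_mod_cast Fintype.one_lt_card

theorem Vsp_finrank [Finite F] [Finite F'] {ι : Type*} [Fintype ι] (b : Module.Basis ι L M) (e : ℕ) :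
    (e + 1) * Fintype.card ι ≤ Module.finrank F F' * Module.finrank F' (Vsp (F := F) F' b e) := by
  have hF' : Module.Finite F F' := Module.Finite.of_finite
  rw [Module.finrank_mul_finrank F F' (Vsp (F := F) F' b e)]
  -- linear independence over `F`
  have hT : LinearIndependent F (fun a : Fin (e + 1) => (algebraMap (Polynomial F) L X) ^ (a : ℕ)) := by
    have h1 : LinearIndependent F (fun a : ℕ => (X : Polynomial F) ^ a) := by
      have := (Polynomial.basisMonomials F).linearIndependent
      convert this using 2 with a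
      simp [coe_basisMonomials, X_pow_eq_monomial]
    have h2 := h1.map' (IsScalarTower.toAlgHom F (Polynomial F) L).toLinearMap
      (LinearMap.ker_eq_bot_of_injective (by
        exact IsFractionRing.injective (Polynomial F) L))
    have h3 := h2.comp (fun a : Fin (e + 1) => (a : ℕ)) Fin.val_injective
    have h4 : (fun a : Fin (e + 1) => (algebraMap (Polynomial F) L X) ^ (a : ℕ)) =
        ((⇑(IsScalarTower.toAlgHom F (Polynomial F) L).toLinearMap ∘ fun a => X ^ a) ∘
          fun a : Fin (e + 1) => (a : ℕ)) := by
      funext a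
      simp
    rw [h4]
    exact h3
  have h4 := linearIndependent_smul hT b.linearIndependent
  have hmem : ∀ y : Fin (e + 1) × ι,
      algebraMap (Polynomial F) M X ^ (y.1 : ℕ) * b y.2 ∈ Vsp (F := F) F' b e := fun y =>
    Submodule.subset_span ⟨y, rfl⟩
  have h5 : LinearIndependent F (fun y : Fin (e + 1) × ι =>
      (⟨algebraMap (Polynomial F) M X ^ (y.1 : ℕ) * b y.2, hmem y⟩ : Vsp (F := F) F' b e)) := by
    apply LinearIndependent.of_comp ((Vsp (F := F) F' b e).subtype.restrictScalars F)
    convert h4 using 2 with y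
    simp only [LinearMap.coe_restrictScalars, Submodule.coe_subtype, Function.comp_apply]
    rw [Algebra.smul_def, map_pow, ← IsScalarTower.algebraMap_apply (Polynomial F) L M]
  have hfd : FiniteDimensional F (Vsp (F := F) F' b e) := FiniteDimensional.trans F F' _
  have h6 := h5.fintype_card_le_finrank
  rwa [Fintype.card_prod, Fintype.card_fin] at h6

end Space

end Pool.Agent.MP3c0690
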