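import Mathlib
import Pool.Agent.Lib.MP_3c0690_nt.Space

namespace Pool.Agent.MP3c0690

open Finset Polynomial TensorProduct

set_option linter.unusedSectionVars false

section Cond

variable {F : Type*} [Field F] [Finite F]
variable {L : Type*} [Field L] [Algebra F L] [Algebra (Polynomial F) L]
  [IsScalarTower F (Polynomial F) L] [IsFractionRing (Polynomial F) L]
variable {M : Type*} [Field M] [Algebra L M] [FiniteDimensional L M]
  [Algebra F M] [IsScalarTower F L M]
  [Algebra (Polynomial F) M] [IsScalarTower (Polynomial F) L M]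
variable (F' : Type*) [Field F'] [Finite F'] [Algebra F F'] [Algebra F' M] [IsScalarTower F F' M]
variable {K : Type*} [Field K] [Algebra L K] [Algebra K M] [IsScalarTower L K M]
variable {𝕂 : Type*} [Field 𝕂] (v : AddValuation 𝕂 (WithTop ℤ)) (θ : K →+* 𝕂)
variable {κ : Type*} [Finite κ] (μ : Module.Basis κ K M)

theorem Vsp_Ge (hv : ∀ P : Polynomial F, P ≠ 0 →
      v (θ (algebraMap L K (algebraMap (Polynomial F) L P))) =
        ((-(P.natDegree : ℤ) : ℤ) : WithTop ℤ))
    {ι : Type*} [Fintype ι] (b : Module.Basis ι L M) :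
    ∃ C : ℤ, C ≤ 0 ∧ ∀ (e : ℕ), ∀ x ∈ Vsp (F := F) F' b e, ∀ σ : M ≃ₐ[L] M,
      Ge v θ μ (-(e : ℤ) + C) (σ x) := by
  obtain ⟨C, hC0, hC⟩ := exists_Ge_family v θ μ
    (fun y : F' × ι × (M ≃ₐ[L] M) => y.2.2 (algebraMap F' M y.1) * y.2.2 (b y.2.1))
  refine ⟨C, hC0, fun e x hx σ => ?_⟩
  obtain ⟨c, rfl⟩ := Vsp_exists F' b e hx
  rw [map_sum]
  refine Ge.sum fun y _ => ?_
  have h1 : σ (c y • (algebraMap (Polynomial F) M X ^ (y.1 : ℕ) * b y.2)) =
      (algebraMap L K (algebraMap (Polynomial F) L X)) ^ (y.1 : ℕ) •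
        (σ (algebraMap F' M (c y)) * σ (b y.2)) := by
    rw [Algebra.smul_def, Algebra.smul_def, map_mul, map_mul, map_pow, map_pow,
      ← IsScalarTower.algebraMap_apply L K M, IsScalarTower.algebraMap_apply (Polynomial F) L M,
      AlgEquiv.commutes]
    ring
  rw [h1]
  have h2 : ((-(e : ℤ) : ℤ) : WithTop ℤ) ≤
      v (θ ((algebraMap L K (algebraMap (Polynomial F) L X)) ^ (y.1 : ℕ))) := by
    have h3 := hv (X ^ (y.1 : ℕ)) (pow_ne_zero _ X_ne_zero)
    rw [map_pow, map_pow] at h3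
    rw [h3, natDegree_X_pow]
    have := y.1.2
    exact_mod_cast (by omega : -(e : ℤ) ≤ -((y.1 : ℕ) : ℤ))
  have h4 := (hC (c y, y.2, σ)).smul h2
  exact h4.mono (by omega)

/-- The elements `x` of `V` such that `σ (c • x)` has size at least `n` for all `c` in `F'`. -/
def Wsub (V : Submodule F' M) (σ : M ≃ₐ[L] M) (n : ℤ) : Submodule F' V where
  carrier := {x | ∀ c : F', Ge v θ μ n (σ (c • (x : M)))}
  add_mem' := by
    intro x y hx hy c
    rw [Submodule.coe_add, smul_add, map_add]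
    exact (hx c).add (hy c)
  zero_mem' := by
    intro c
    rw [Submodule.coe_zero, smul_zero, map_zero]
    exact Ge.zero n
  smul_mem' := by
    intro d x hx c
    rw [Submodule.coe_smul, smul_smul]
    exact hx (c * d)

theorem mem_Wsub {V : Submodule F' M} {σ : M ≃ₐ[L] M} {n : ℤ} {x : V}
    (hx : x ∈ Wsub F' v θ μ V σ n) : Ge v θ μ n (σ (x : M)) := by
  have := hx 1
  rwa [one_smul] at this

theorem Wsub_card (hv : ∀ P : Polynomial F, P ≠ 0 →
      v (θ (algebraMap L K (algebraMap (Polynomial F) L P))) =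
        ((-(P.natDegree : ℤ) : ℤ) : WithTop ℤ))
    (hcoef : ∀ a : ℤ, ∃ c : 𝕂 →+ F, ∀ x, (a : WithTop ℤ) ≤ v x → c x = 0 →
      ((a + 1 : ℤ) : WithTop ℤ) ≤ v x)
    {ι : Type*} [Fintype ι] (b : Module.Basis ι L M) :
    ∃ C : ℕ, ∀ (e : ℕ) (σ : M ≃ₐ[L] M) (n : ℤ),
      Module.finrank F F' *
        Module.finrank F' (Vsp (F := F) F' b e ⧸ Wsub F' v θ μ (Vsp (F := F) F' b e) σ n) ≤
      Nat.card κ * (n + e + C).toNat := by
  classical
  have hFF' : Module.Finite F F' := Module.Finite.of_finite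
  obtain ⟨C1, hC10, hC1⟩ := Vsp_Ge F' v θ μ hv b
  obtain ⟨C2, hC20, hC2⟩ := exists_uniform
    (fun (y : F' × (M ≃ₐ[L] M)) (C : ℤ) => ∀ (a : ℤ) (x : M), Ge v θ μ a x →
      Ge v θ μ (a + C) (y.2 (algebraMap F' M y.1) * x))
    (fun _ _ _ hmn h a x hx => (h a x hx).mono (by omega)) (fun y => by
      obtain ⟨C, _, hC⟩ := exists_linear_bound v θ μ
        (LinearMap.mulLeft K (y.2 (algebraMap F' M y.1)))
      exact ⟨C, fun a x hx => hC a x hx⟩)
  refine ⟨(-C1 - C2).toNat, fun e σ n => ?_⟩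
  set V := Vsp (F := F) F' b e with hV
  set W := Wsub F' v θ μ V σ n with hW
  set k := (n + e + ((-C1 - C2).toNat : ℕ)).toNat with hk
  obtain ⟨c, hc⟩ := coef_iter v hcoef (-(e : ℤ) + C1) k
  -- the coefficient map
  let Φ : V → (κ → Fin k → F) := fun x i => c (θ (μ.repr (σ (x : M)) i))
  have hΦsub : ∀ x y : V, Φ x = Φ y → Φ (x - y) = 0 := by
    intro x y hxy
    funext i
    have : Φ (x - y) i = Φ x i - Φ y i := by
      simp only [Φ, Submodule.coe_sub, map_sub, Finsupp.sub_apply]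
    rw [this, hxy, sub_self]
    rfl
  have hker : ∀ x : V, Φ x = 0 → x ∈ W := by
    intro x hx
    have h1 : Ge v θ μ (n - C2) (σ (x : M)) := by
      intro i
      have h2 := hc (θ (μ.repr (σ (x : M)) i)) (hC1 e x x.2 σ i) (congrFun hx i)
      refine le_trans ?_ h2
      have : n - C2 ≤ -(e : ℤ) + C1 + k := by omega
      exact_mod_cast this
    intro d
    have h3 := hC2 (d, σ) (n - C2) _ h1
    rw [Algebra.smul_def, map_mul]
    exact h3.mono (by omega)
  have hinj : Function.Injective (fun z : V ⧸ W => Φ (Quotient.out z)) := by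
    intro z z' hzz'
    have h1 := hker _ (hΦsub _ _ hzz')
    rw [← Submodule.Quotient.mk_eq_zero, Submodule.Quotient.mk_sub] at h1
    have h2 : ∀ w : V ⧸ W, Submodule.Quotient.mk (Quotient.out w) = w := fun w =>
      Quotient.out_eq' w
    rw [h2, h2, sub_eq_zero] at h1
    exact h1
  have hκ := Fintype.ofFinite κ
  have hcard := Nat.card_le_card_of_injective _ hinj
  have hfinV : Finite V := Module.finite_of_finite F'
  rw [Module.natCard_eq_pow_finrank (K := F') (V := V ⧸ W)] at hcard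
  have hF' : Nat.card F' = Nat.card F ^ Module.finrank F F' := Module.natCard_eq_pow_finrank
  have hfun : Nat.card (κ → Fin k → F) = Nat.card F ^ (Nat.card κ * k) := by
    rw [Nat.card_fun, Nat.card_fun, Nat.card_fin, ← pow_mul, mul_comm k]
  rw [hF', ← pow_mul, hfun] at hcard
  exact (Nat.pow_le_pow_iff_right (Finite.one_lt_card)).1 hcard

/-- Existence of the auxiliary polynomial. -/
theorem exists_aux (hv : ∀ P : Polynomial F, P ≠ 0 →
      v (θ (algebraMap L K (algebraMap (Polynomial F) L P))) =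
        ((-(P.natDegree : ℤ) : ℤ) : WithTop ℤ))
    (hcoef : ∀ a : ℤ, ∃ c : 𝕂 →+ F, ∀ x, (a : WithTop ℤ) ≤ v x → c x = 0 →
      ((a + 1 : ℤ) : WithTop ℤ) ≤ v x)
    {ι : Type*} [Fintype ι] (b : Module.Basis ι L M)
    {Λ : Type*} [Fintype Λ] (σ : Λ → (M ≃ₐ[L] M)) (α : Λ → M)
    (hΛ : Fintype.card Λ * Nat.card κ ≤ Fintype.card ι) :
    ∃ C : ℕ, ∀ (m e : ℕ) (n : ℕ → ℤ),
      (∑ c ∈ range (m + 1), (n c + e + C).toNat < (m + 1) * (e + 1)) →
      ∃ Γ : Fin (m + 1) → M ⊗[F'] (Vsp (F := F) F' b e), Γ ≠ 0 ∧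
        ∀ (j : Λ) (c : Fin (m + 1)),
          (∑ a : Fin (m + 1), (((a : ℕ).choose c : M) * α j ^ ((a : ℕ) - c)) • Γ a) ∈
            LinearMap.range ((Wsub F' v θ μ (Vsp (F := F) F' b e) (σ j) (n c)).subtype.baseChange M)
      := by
  classical
  have hFF' : Module.Finite F F' := Module.Finite.of_finite
  obtain ⟨C, hC⟩ := Wsub_card F' v θ μ hv hcoef b
  refine ⟨C, fun m e n hcount => ?_⟩
  set V := Vsp (F := F) F' b e with hV
  let W : Λ × Fin (m + 1) → Submodule F' V := fun x => Wsub F' v θ μ V (σ x.1) (n x.2)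
  let Ψ : (Fin (m + 1) → M ⊗[F'] V) →ₗ[M] ((x : Λ × Fin (m + 1)) → M ⊗[F'] (V ⧸ W x)) :=
    LinearMap.pi fun x => ((W x).mkQ.baseChange M) ∘ₗ
      (∑ a : Fin (m + 1), (((a : ℕ).choose x.2 : M) * α x.1 ^ ((a : ℕ) - x.2)) •
        (LinearMap.proj a : (Fin (m + 1) → M ⊗[F'] V) →ₗ[M] M ⊗[F'] V))
  have hker : LinearMap.ker Ψ ≠ ⊥ := by
    apply LinearMap.ker_ne_bot_of_finrank_lt
    rw [Module.finrank_pi_fintype, Module.finrank_pi_fintype]
    simp only [Module.finrank_baseChange, Finset.sum_const, Finset.card_univ, Fintype.card_fin,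
      smul_eq_mul]
    have hpos : 0 < Module.finrank F F' := Module.finrank_pos
    have h1 : Module.finrank F F' * ∑ x : Λ × Fin (m + 1), Module.finrank F' (V ⧸ W x) ≤
        Fintype.card ι * ∑ c ∈ range (m + 1), (n c + e + C).toNat := by
      rw [Finset.mul_sum]
      calc ∑ x : Λ × Fin (m + 1), Module.finrank F F' * Module.finrank F' (V ⧸ W x)
          ≤ ∑ x : Λ × Fin (m + 1), Nat.card κ * (n x.2 + e + C).toNat :=
            Finset.sum_le_sum fun x _ => hC e (σ x.1) (n x.2)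
        _ = (Fintype.card Λ * Nat.card κ) * ∑ c ∈ range (m + 1), (n c + e + C).toNat := by
            rw [Fintype.sum_prod_type]
            simp only [Finset.sum_const, Finset.card_univ, smul_eq_mul]
            rw [← Finset.mul_sum, Finset.sum_range, mul_assoc]
        _ ≤ _ := Nat.mul_le_mul_right _ hΛ
    have h2 := Vsp_finrank (F := F) (F' := F') b e
    rw [← hV] at h2
    have hι : 0 < Fintype.card ι := by
      rw [← Module.finrank_eq_card_basis b]
      exact Module.finrank_pos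
    have h3 : Module.finrank F F' * ∑ x : Λ × Fin (m + 1), Module.finrank F' (V ⧸ W x) <
        Module.finrank F F' * ((m + 1) * Module.finrank F' V) := by
      calc _ ≤ Fintype.card ι * ∑ c ∈ range (m + 1), (n c + e + C).toNat := h1
        _ < Fintype.card ι * ((m + 1) * (e + 1)) := Nat.mul_lt_mul_of_pos_left hcount hι
        _ = (m + 1) * ((e + 1) * Fintype.card ι) := by ring
        _ ≤ (m + 1) * (Module.finrank F F' * Module.finrank F' V) := Nat.mul_le_mul_left _ h2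
        _ = _ := by ring
    exact Nat.lt_of_mul_lt_mul_left h3
  obtain ⟨Γ, hΓ, hΓ0⟩ := (Submodule.ne_bot_iff _).1 hker
  refine ⟨Γ, hΓ0, fun j c => ?_⟩
  have h1 : ((W (j, c)).mkQ.baseChange M)
      (∑ a : Fin (m + 1), (((a : ℕ).choose c : M) * α j ^ ((a : ℕ) - c)) • Γ a) = 0 := by
    have := congrFun (LinearMap.mem_ker.1 hΓ) (j, c)
    simpa [Ψ] using this
  have hexact : Function.Exact (W (j, c)).subtype (W (j, c)).mkQ := by
    intro y
    simp
  have hex := @lTensor_exact F' (W (j, c)) V (V ⧸ W (j, c)) _ _ _ _ _ _ _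
    (W (j, c)).subtype (W (j, c)).mkQ M _ _ hexact (Submodule.mkQ_surjective _)
  have h2 := (hex (∑ a : Fin (m + 1), (((a : ℕ).choose c : M) * α j ^ ((a : ℕ) - c)) • Γ a)).1 h1
  obtain ⟨z, hz⟩ := h2
  exact ⟨z, hz⟩

end Cond

end Pool.Agent.MP3c0690
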