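import Mathlib

namespace Pool.Agent.MP3c0690

open Finset

theorem toNat_cast_real (z : ℤ) : ((z.toNat : ℕ) : ℝ) = max (z : ℝ) 0 := by
  have h2 : ((z.toNat : ℕ) : ℤ) = max z 0 := Int.toNat_eq_max z
  have h3 : ((z.toNat : ℕ) : ℝ) = (((z.toNat : ℕ) : ℤ) : ℝ) := (Int.cast_natCast _).symm
  rw [h3, h2, Int.cast_max, Int.cast_zero]

theorem sum_pos_part_le {A s : ℝ} (hA : 0 ≤ A) (hs : 0 < s) (m : ℕ) :
    ∑ c ∈ range (m + 1), max (A - c * s) 0 ≤
      A + A ^ 2 / (2 * s) - (max (A - m * s) 0) ^ 2 / (2 * s) := by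
  have key : ∀ y : ℝ, max (y - s) 0 ≤ ((max y 0) ^ 2 - (max (y - s) 0) ^ 2) / (2 * s) := by
    intro y
    rw [le_div_iff₀ (by positivity)]
    rcases le_total (y - s) 0 with h1 | h1
    · rw [max_eq_right h1]
      have := sq_nonneg (max y 0)
      nlinarith
    · have h2 : 0 ≤ y := by linarith
      rw [max_eq_left h1, max_eq_left h2]
      nlinarith
  induction m with
  | zero => simp [max_eq_left hA]
  | succ m ih =>
    rw [Finset.sum_range_succ]
    have h1 := key (A - m * s)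
    have h2 : A - m * s - s = A - ((m + 1 : ℕ) : ℝ) * s := by push_cast; ring
    rw [h2, sub_div] at h1
    linarith

theorem count_lemma (C : ℕ) (s η : ℝ) (hs : 0 < s) (hη : 0 ≤ η) (h : η < s / 2) :
    ∃ m e M' : ℕ,
      (∑ c ∈ range (m + 1), ((M' : ℤ) + e + C - ⌊(c : ℝ) * s⌋).toNat < (m + 1) * (e + 1)) ∧
      (m : ℝ) * η < M' := by
  set δ : ℝ := (s - 2 * η) / 2 with hδ
  have hδ0 : 0 < δ := by rw [hδ]; linarith
  obtain ⟨N, hN⟩ := exists_nat_gt (((C : ℝ) + 2 + 2 * s) / δ)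
  have hNδ : (C : ℝ) + 2 + 2 * s < δ * N := by
    rw [div_lt_iff₀ hδ0] at hN
    linarith
  have hN0 : (0 : ℝ) < N := by
    have : 0 ≤ ((C : ℝ) + 2 + 2 * s) / δ := by positivity
    linarith
  refine ⟨2 * N, ⌊s * N⌋₊, ⌈(s - δ) * N⌉₊, ?_, ?_⟩
  · set e := ⌊s * N⌋₊ with he
    set M' := ⌈(s - δ) * N⌉₊ with hM'
    have he1 : (e : ℝ) ≤ s * N := Nat.floor_le (by positivity)
    have he2 : s * N < e + 1 := Nat.lt_floor_add_one _
    have hM1 : (M' : ℝ) < (s - δ) * N + 1 := by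
      apply Nat.ceil_lt_add_one
      apply mul_nonneg _ hN0.le
      rw [hδ]
      linarith
    set A : ℝ := (M' : ℝ) + e + C + 1 with hA
    have hA0 : 0 ≤ A := by positivity
    have hterm : ∀ c : ℕ, ((((M' : ℤ) + e + C - ⌊(c : ℝ) * s⌋).toNat : ℕ) : ℝ) ≤
        max (A - c * s) 0 := by
      intro c
      have h1 := toNat_cast_real ((M' : ℤ) + e + C - ⌊(c : ℝ) * s⌋)
      rw [h1]
      apply max_le_max _ le_rfl
      have h4 := Int.lt_floor_add_one ((c : ℝ) * s)
      push_cast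
      rw [hA]
      linarith
    have hsum : ((∑ c ∈ range (2 * N + 1), ((M' : ℤ) + e + C - ⌊(c : ℝ) * s⌋).toNat : ℕ) : ℝ) ≤
        A + A ^ 2 / (2 * s) := by
      push_cast
      calc ∑ c ∈ range (2 * N + 1), ((((M' : ℤ) + e + C - ⌊(c : ℝ) * s⌋).toNat : ℕ) : ℝ)
          ≤ ∑ c ∈ range (2 * N + 1), max (A - c * s) 0 := Finset.sum_le_sum fun c _ => hterm c
        _ ≤ A + A ^ 2 / (2 * s) - (max (A - (2 * N : ℕ) * s) 0) ^ 2 / (2 * s) :=
            sum_pos_part_le hA0 hs (2 * N)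
        _ ≤ _ := by
            have : 0 ≤ (max (A - (2 * N : ℕ) * s) 0) ^ 2 / (2 * s) := by positivity
            linarith
    have hAle : A ≤ (2 * s - δ) * N + (C + 2) := by
      rw [hA]
      linarith
    have hfin : A + A ^ 2 / (2 * s) < (2 * N + 1) * (e + 1) := by
      have h1 : A + A ^ 2 / (2 * s) < 2 * s * N ^ 2 := by
        have h2 : 2 * s * A + A ^ 2 < 4 * s ^ 2 * N ^ 2 := by
          have h3 : 2 * s < 2 * s * N - A := by linarith
          have h4 : 4 * s ^ 2 * N ^ 2 - A ^ 2 = (2 * s * N - A) * (2 * s * N + A) := by ring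
          have h5 : 0 < 2 * s * N + A := by positivity
          have h6 : 2 * s * (2 * s * N + A) < (2 * s * N - A) * (2 * s * N + A) :=
            mul_lt_mul_of_pos_right h3 h5
          have h7 : 0 < 2 * s * (2 * s * N) := by positivity
          nlinarith
        have h8 : A + A ^ 2 / (2 * s) = (2 * s * A + A ^ 2) / (2 * s) := by
          field_simp
        rw [h8, div_lt_iff₀ (by positivity)]
        calc 2 * s * A + A ^ 2 < 4 * s ^ 2 * N ^ 2 := h2
          _ = 2 * s * N ^ 2 * (2 * s) := by ring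
      have h9 : 2 * s * (N : ℝ) ^ 2 ≤ (2 * N + 1) * (e + 1) := by
        calc 2 * s * (N : ℝ) ^ 2 = (2 * N) * (s * N) := by ring
          _ ≤ (2 * N + 1) * (e + 1) := by
            apply mul_le_mul (by linarith) he2.le (by positivity) (by positivity)
      linarith
    have hfin' : ((∑ c ∈ range (2 * N + 1), ((M' : ℤ) + e + C - ⌊(c : ℝ) * s⌋).toNat : ℕ) : ℝ) <
        (((2 * N + 1) * (e + 1) : ℕ) : ℝ) := by
      push_cast at hsum hfin ⊢
      linarith
    exact_mod_cast hfin'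
  · have h1 : (s - δ) * N ≤ (⌈(s - δ) * N⌉₊ : ℝ) := Nat.le_ceil _
    refine lt_of_lt_of_le ?_ h1
    push_cast
    have : 2 * η < s - δ := by rw [hδ]; linarith
    nlinarith

end Pool.Agent.MP3c0690
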