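import Mathlib
import Pool.Agent.Lib.MP_3c0690_nt.Cond

namespace Pool.Agent.MP3c0690

open Finset Polynomial TensorProduct

set_option linter.unusedSectionVars false

section Ev

variable {M : Type*} [Field M]
variable (F' : Type*) [Field F'] [Finite F'] [Algebra F' M]

/-- The `q ^ k`-power map, `q` the cardinality of `F'`. -/
noncomputable def frobLin (k : ℕ) : M →ₗ[F'] M :=
  letI := Fintype.ofFinite F'
  ((FiniteField.frobeniusAlgHom F' M) ^ k).toLinearMap

theorem frobLin_apply (k : ℕ) (x : M) : frobLin F' k x = x ^ (Nat.card F' ^ k) := by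
  let := Fintype.ofFinite F'
  simp only [frobLin, AlgHom.toLinearMap_apply, Nat.card_eq_fintype_card]
  induction k with
  | zero => simp
  | succ k ih =>
    rw [pow_succ', AlgHom.mul_apply, ih, FiniteField.coe_frobeniusAlgHom]
    simp only []
    rw [← pow_mul, ← pow_succ]

/-- Evaluation `γ ⊗ β ↦ γ * β ^ (q ^ k)`. -/
noncomputable def ev (V : Submodule F' M) (k : ℕ) : M ⊗[F'] V →ₗ[M] M :=
  LinearMap.liftBaseChange M ((frobLin F' k).comp V.subtype)

theorem ev_tmul (V : Submodule F' M) (k : ℕ) (γ : M) (β : V) :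
    ev F' V k (γ ⊗ₜ β) = γ * (β : M) ^ (Nat.card F' ^ k) := by
  rw [ev, LinearMap.liftBaseChange_tmul, LinearMap.comp_apply, Submodule.subtype_apply,
    frobLin_apply, smul_eq_mul]

theorem taylor_ev (V : Submodule F' M) (k m : ℕ) (Γ : Fin (m + 1) → M ⊗[F'] V) (ρ α : M) :
    ∑ a : Fin (m + 1), ρ ^ (a : ℕ) * ev F' V k (Γ a) =
      ∑ c : Fin (m + 1), (ρ - α) ^ (c : ℕ) *
        ev F' V k (∑ a : Fin (m + 1), (((a : ℕ).choose c : M) * α ^ ((a : ℕ) - c)) • Γ a) := by
  simp only [map_sum, map_smul, smul_eq_mul, Finset.mul_sum]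
  rw [Finset.sum_comm]
  refine Finset.sum_congr rfl fun a _ => ?_
  have h1 : ρ ^ (a : ℕ) = ∑ c : Fin (m + 1), (ρ - α) ^ (c : ℕ) *
      (((a : ℕ).choose c : M) * α ^ ((a : ℕ) - c)) := by
    conv_lhs => rw [← sub_add_cancel ρ α, add_pow]
    rw [← Fin.sum_univ_eq_sum_range
      (fun c => (ρ - α) ^ c * α ^ ((a : ℕ) - c) * ((a : ℕ).choose c : M)),
      Fin.sum_univ_eq_sum_range
      (fun c => (ρ - α) ^ c * α ^ ((a : ℕ) - c) * ((a : ℕ).choose c : M)),
      Fin.sum_univ_eq_sum_range
      (fun c => (ρ - α) ^ c * (((a : ℕ).choose c : M) * α ^ ((a : ℕ) - c)))]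
    have hsub : range ((a : ℕ) + 1) ⊆ range (m + 1) := by
      apply Finset.range_subset_range.2
      have := a.2
      omega
    rw [← Finset.sum_subset hsub]
    · refine Finset.sum_congr rfl fun c _ => ?_
      ring
    · intro c _ hc
      have : (a : ℕ) < c := by
        rw [Finset.mem_range, not_lt] at hc
        omega
      rw [Nat.choose_eq_zero_of_lt this]
      simp
  rw [h1, Finset.sum_mul]
  refine Finset.sum_congr rfl fun c _ => ?_
  ring

end Ev

section Vanish

variable {F : Type*} [Field F] [Finite F]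
variable {L : Type*} [Field L] [Algebra F L] [Algebra (Polynomial F) L]
  [IsScalarTower F (Polynomial F) L] [IsFractionRing (Polynomial F) L]
variable {M : Type*} [Field M] [Algebra L M] [FiniteDimensional L M]
  [Algebra F M] [IsScalarTower F L M]
  [Algebra (Polynomial F) M] [IsScalarTower (Polynomial F) L M]
variable (F' : Type*) [Field F'] [Finite F'] [Algebra F F'] [Algebra F' M] [IsScalarTower F F' M]
variable {K : Type*} [Field K] [Algebra L K] [Algebra K M] [IsScalarTower L K M]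
variable {𝕂 : Type*} [Field 𝕂] (v : AddValuation 𝕂 (WithTop ℤ)) (θ : K →+* 𝕂)
variable {κ : Type*} [Finite κ] (μ : Module.Basis κ K M)

theorem ev_size {C0 : ℤ} (hC00 : C0 ≤ 0)
    (hC0 : ∀ (a b : ℤ) (x y : M), Ge v θ μ a x → Ge v θ μ b y → Ge v θ μ (a + b + C0) (x * y))
    (V : Submodule F' M) (σ : M ≃ₐ[L] M) (n : ℤ) (z : M ⊗[F'] V)
    (hz : z ∈ LinearMap.range ((Wsub F' v θ μ V σ n).subtype.baseChange M)) :
    ∃ C : ℤ, ∀ k : ℕ, Ge v θ μ ((Nat.card F' ^ k : ℕ) * (n + C0) + C) (σ (ev F' V k z)) := by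
  obtain ⟨w, rfl⟩ := hz
  induction w using TensorProduct.induction_on with
  | zero =>
    refine ⟨0, fun k => ?_⟩
    rw [map_zero, map_zero, map_zero]
    exact Ge.zero _
  | tmul γ β =>
    obtain ⟨c, hc⟩ := exists_Ge v θ μ (σ γ)
    refine ⟨c + C0, fun k => ?_⟩
    rw [LinearMap.baseChange_tmul, ev_tmul, map_mul, map_pow]
    have h1 : Ge v θ μ n (σ ((β : V) : M)) := mem_Wsub F' v θ μ β.2
    have h2 := h1.pow hC00 hC0 (Nat.card F' ^ k) (pow_pos Nat.card_pos k)
    have h3 := hC0 _ _ _ _ hc h2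
    exact h3.mono (by omega)
  | add x y hx hy =>
    obtain ⟨C1, h1⟩ := hx
    obtain ⟨C2, h2⟩ := hy
    refine ⟨min C1 C2, fun k => ?_⟩
    rw [map_add, map_add, map_add]
    exact ((h1 k).mono (by have := min_le_left C1 C2; omega)).add
      ((h2 k).mono (by have := min_le_right C1 C2; omega))

theorem ev_integral [Algebra.IsAlgebraic (Polynomial F) M] (V : Submodule F' M) (hV : ∀ x ∈ V, IsIntegral (Polynomial F) x)
    (z : M ⊗[F'] V) :
    ∃ r : Polynomial F, r ≠ 0 ∧ ∀ k : ℕ,
      IsIntegral (Polynomial F) (algebraMap (Polynomial F) M r * ev F' V k z) := by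
  induction z using TensorProduct.induction_on with
  | zero => exact ⟨1, one_ne_zero, fun k => by simp [isIntegral_zero]⟩
  | tmul γ β =>
    obtain ⟨y, hy, hint⟩ := Algebra.IsAlgebraic.exists_integral_multiples (Polynomial F)
      ({γ} : Finset M)
    refine ⟨y, hy, fun k => ?_⟩
    rw [ev_tmul, ← mul_assoc]
    refine IsIntegral.mul ?_ ((hV _ β.2).pow _)
    have := hint γ (Finset.mem_singleton_self _)
    rwa [Algebra.smul_def] at this
  | add x y hx hy =>
    obtain ⟨r1, hr1, h1⟩ := hx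
    obtain ⟨r2, hr2, h2⟩ := hy
    refine ⟨r1 * r2, mul_ne_zero hr1 hr2, fun k => ?_⟩
    have : algebraMap (Polynomial F) M (r1 * r2) * ev F' V k (x + y) =
        algebraMap (Polynomial F) M r2 * (algebraMap (Polynomial F) M r1 * ev F' V k x) +
        algebraMap (Polynomial F) M r1 * (algebraMap (Polynomial F) M r2 * ev F' V k y) := by
      rw [map_mul, map_add]
      ring
    rw [this]
    exact (isIntegral_algebraMap.mul (h1 k)).add (isIntegral_algebraMap.mul (h2 k))

end Vanish

end Pool.Agent.MP3c0690
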