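import Mathlib

namespace Pool.Agent.MP3c0690

open Finset Polynomial

section Decomp

variable {F : Type*} [Field F] [Finite F] {p : ℕ} [Fact p.Prime] [CharP F p]

theorem poly_decomp (r : ℕ) (P : Polynomial F) :
    ∃ c : ℕ → Polynomial F, P = ∑ j ∈ range (p ^ r), X ^ j * (c j) ^ (p ^ r) := by
  have hp : p.Prime := Fact.out
  have hpr : 0 < p ^ r := pow_pos hp.pos r
  induction P using Polynomial.induction_on' with
  | add P Q hP hQ =>
    obtain ⟨c, hc⟩ := hP
    obtain ⟨d, hd⟩ := hQ
    refine ⟨fun j => c j + d j, ?_⟩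
    conv_lhs => rw [hc, hd]
    rw [← Finset.sum_add_distrib]
    refine Finset.sum_congr rfl fun j _ => ?_
    rw [add_pow_char_pow, mul_add]
  | monomial n a =>
    have : ExpChar F p := ExpChar.prime hp
    obtain ⟨e, he⟩ := (iterateFrobeniusEquiv F p r).surjective a
    have he' : e ^ (p ^ r) = a := by simpa [iterateFrobenius_def] using he
    refine ⟨fun j => if j = n % p ^ r then monomial (n / p ^ r) e else 0, ?_⟩
    rw [Finset.sum_eq_single (n % p ^ r)]
    · simp only [if_true]
      rw [monomial_pow, he', X_pow_mul_monomial]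
      have e1 : n / p ^ r * p ^ r + n % p ^ r = n := by
        rw [mul_comm]
        exact Nat.div_add_mod n (p ^ r)
      rw [e1]
    · intro j _ hj
      simp only [if_neg hj]
      rw [zero_pow hpr.ne', mul_zero]
    · intro h
      exact absurd (Finset.mem_range.2 (Nat.mod_lt _ hpr)) h

variable {L : Type*} [Field L] [Algebra (Polynomial F) L] [IsFractionRing (Polynomial F) L]

theorem frac_decomp (r : ℕ) (x : L) :
    ∃ c : ℕ → L, x = ∑ j ∈ range (p ^ r),
      (algebraMap (Polynomial F) L X) ^ j * (c j) ^ (p ^ r) := by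
  have hp : p.Prime := Fact.out
  have hpr : 0 < p ^ r := pow_pos hp.pos r
  obtain ⟨P, Q, hQ, rfl⟩ := IsFractionRing.div_surjective (A := Polynomial F) x
  have hQ0 : Q ≠ 0 := nonZeroDivisors.ne_zero hQ
  have hQ' : algebraMap (Polynomial F) L Q ≠ 0 := by
    rwa [Ne, IsFractionRing.to_map_eq_zero_iff]
  obtain ⟨c, hc⟩ := poly_decomp (p := p) r (P * Q ^ (p ^ r - 1))
  refine ⟨fun j => algebraMap (Polynomial F) L (c j) / algebraMap (Polynomial F) L Q, ?_⟩
  have h1 : algebraMap (Polynomial F) L P / algebraMap (Polynomial F) L Q =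
      algebraMap (Polynomial F) L (P * Q ^ (p ^ r - 1)) /
        (algebraMap (Polynomial F) L Q) ^ (p ^ r) := by
    rw [map_mul, map_pow, div_eq_div_iff hQ' (pow_ne_zero _ hQ'), mul_assoc]
    congr 1
    rw [← pow_succ, Nat.sub_add_cancel hpr]
  rw [h1, hc, map_sum, Finset.sum_div]
  refine Finset.sum_congr rfl fun j _ => ?_
  rw [map_mul, map_pow, map_pow, div_pow, mul_div_assoc]

omit [Finite F] [CharP F p] in
/-- Elements of `F(T)` that are `p ^ r`-th powers for every `r` are constants. -/
theorem frac_const_of_pow (x : L) (h : ∀ r : ℕ, ∃ y, y ^ (p ^ r) = x) :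
    ∃ a : F, algebraMap (Polynomial F) L (C a) = x := by
  have hp : p.Prime := Fact.out
  obtain ⟨A, B, hB, rfl⟩ := IsFractionRing.div_surjective (A := Polynomial F) x
  have hB0 : B ≠ 0 := nonZeroDivisors.ne_zero hB
  rcases eq_or_ne A 0 with rfl | hA0
  · exact ⟨0, by simp⟩
  -- choose `r` large
  obtain ⟨r, hr⟩ : ∃ r : ℕ, A.natDegree + B.natDegree < p ^ r :=
    ⟨_, Nat.lt_pow_self hp.one_lt⟩
  obtain ⟨y, hy⟩ := h r
  obtain ⟨⟨a, b⟩, hab⟩ := IsLocalization.surj (nonZeroDivisors (Polynomial F)) y
  -- reduced fraction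
  obtain ⟨a, b, hcop, hyab⟩ := IsFractionRing.exists_reduced_fraction (A := Polynomial F) y
  have hb0 : (b : Polynomial F) ≠ 0 := nonZeroDivisors.ne_zero b.2
  have hcop' : IsCoprime a (b : Polynomial F) := by
    have := hcop
    exact (isRelPrime_iff_isCoprime).1 this
  have hb' : algebraMap (Polynomial F) L b ≠ 0 := by
    rwa [Ne, IsFractionRing.to_map_eq_zero_iff]
  have hB' : algebraMap (Polynomial F) L B ≠ 0 := by
    rwa [Ne, IsFractionRing.to_map_eq_zero_iff]
  have hyeq : y = algebraMap (Polynomial F) L a / algebraMap (Polynomial F) L b := by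
    rw [← hyab, IsFractionRing.mk'_eq_div]
  have hmain : a ^ (p ^ r) * B = A * (b : Polynomial F) ^ (p ^ r) := by
    apply IsFractionRing.injective (Polynomial F) L
    rw [map_mul, map_mul, map_pow, map_pow]
    rw [hyeq, div_pow, div_eq_div_iff (pow_ne_zero _ hb') hB'] at hy
    exact hy
  have ha0 : a ≠ 0 := by
    rintro rfl
    rw [zero_pow (pow_ne_zero _ hp.ne_zero), zero_mul] at hmain
    exact mul_ne_zero hA0 (pow_ne_zero _ hb0) hmain.symm
  have hda : a ^ (p ^ r) ∣ A := by
    have : a ^ (p ^ r) ∣ A * (b : Polynomial F) ^ (p ^ r) := ⟨B, hmain.symm⟩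
    exact (hcop'.pow).dvd_of_dvd_mul_right this
  have hdb : (b : Polynomial F) ^ (p ^ r) ∣ B := by
    have : (b : Polynomial F) ^ (p ^ r) ∣ a ^ (p ^ r) * B := ⟨A, by rw [hmain, mul_comm]⟩
    exact (hcop'.symm.pow).dvd_of_dvd_mul_left this
  have hdega : a.natDegree = 0 := by
    have := natDegree_le_of_dvd hda hA0
    rw [natDegree_pow] at this
    by_contra hne
    have h2 : p ^ r * 1 ≤ p ^ r * a.natDegree := Nat.mul_le_mul_left _ (Nat.pos_of_ne_zero hne)
    omega
  have hdegb : (b : Polynomial F).natDegree = 0 := by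
    have := natDegree_le_of_dvd hdb hB0
    rw [natDegree_pow] at this
    by_contra hne
    have h2 : p ^ r * 1 ≤ p ^ r * (b : Polynomial F).natDegree :=
      Nat.mul_le_mul_left _ (Nat.pos_of_ne_zero hne)
    omega
  obtain ⟨a', ha'⟩ := natDegree_eq_zero.1 hdega
  obtain ⟨b', hb'⟩ := natDegree_eq_zero.1 hdegb
  have hb'0 : b' ≠ 0 := by
    rintro rfl
    rw [C_0] at hb'
    exact hb0 hb'.symm
  refine ⟨(a' / b') ^ (p ^ r), ?_⟩
  rw [C_pow, map_pow, ← hy, hyeq, ← ha', ← hb']
  congr 1
  rw [eq_div_iff, ← map_mul, ← C_mul, div_mul_cancel₀ _ hb'0]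
  rw [Ne, IsFractionRing.to_map_eq_zero_iff]
  exact fun h => hb'0 (C_eq_zero.1 h)

end Decomp

section Valued

variable {𝕂 : Type*} [Field 𝕂]

/-- In a field with a valuation with `v T = -1`, the elements `T ^ j * c ^ m`, `j < m`, have
distinct valuations. -/
theorem val_unique (v : AddValuation 𝕂 (WithTop ℤ)) (T : 𝕂) (hT : v T = ((-1 : ℤ) : WithTop ℤ))
    (m : ℕ) (c : ℕ → 𝕂) (h : ∑ j ∈ range m, T ^ j * (c j) ^ m = 0) : ∀ j < m, c j = 0 := by
  classical
  by_contra hcon
  push Not at hcon
  obtain ⟨j1, hj1, hcj1⟩ := hcon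
  have hT0 : T ≠ 0 := by
    rintro rfl
    rw [AddValuation.map_zero] at hT
    exact absurd hT.symm (WithTop.coe_ne_top)
  set J := (range m).filter (fun j => c j ≠ 0) with hJ
  have hJne : J.Nonempty := ⟨j1, by simp [hJ, hj1, hcj1]⟩
  obtain ⟨j0, hj0, hmin⟩ := Finset.exists_min_image J (fun j => v (T ^ j * (c j) ^ m)) hJne
  have hj0' : j0 < m ∧ c j0 ≠ 0 := by simpa [hJ] using hj0
  -- value of each term
  have hval : ∀ j, c j ≠ 0 → ∃ n : ℤ, v (c j) = (n : WithTop ℤ) ∧
      v (T ^ j * (c j) ^ m) = ((-(j : ℤ) + m * n : ℤ) : WithTop ℤ) := by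
    intro j hj
    obtain ⟨n, hn⟩ := WithTop.ne_top_iff_exists.1 ((AddValuation.ne_top_iff v).2 hj)
    refine ⟨n, hn.symm, ?_⟩
    rw [AddValuation.map_mul, AddValuation.map_pow, AddValuation.map_pow, ← hn, hT]
    rw [← WithTop.coe_nsmul, ← WithTop.coe_nsmul, ← WithTop.coe_add]
    congr 1
    simp
  have hsplit : T ^ j0 * (c j0) ^ m = -∑ j ∈ (range m).erase j0, T ^ j * (c j) ^ m := by
    rw [← Finset.add_sum_erase _ _ (Finset.mem_range.2 hj0'.1)] at h
    exact eq_neg_of_add_eq_zero_left h
  have hne : v (T ^ j0 * (c j0) ^ m) ≠ ⊤ := by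
    rw [AddValuation.ne_top_iff]
    exact mul_ne_zero (pow_ne_zero _ hT0) (pow_ne_zero _ hj0'.2)
  have hlt : v (T ^ j0 * (c j0) ^ m) < v (∑ j ∈ (range m).erase j0, T ^ j * (c j) ^ m) := by
    apply AddValuation.map_lt_sum v hne
    intro j hj
    rw [Finset.mem_erase, Finset.mem_range] at hj
    by_cases hcj : c j = 0
    · have hm0 : m ≠ 0 := by omega
      rw [hcj, zero_pow hm0, mul_zero, AddValuation.map_zero]
      exact lt_top_iff_ne_top.2 hne
    · have hjJ : j ∈ J := by simp [hJ, hj.2, hcj]
      refine lt_of_le_of_ne (hmin j hjJ) ?_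
      obtain ⟨n, _, hn⟩ := hval j hcj
      obtain ⟨n0, _, hn0⟩ := hval j0 hj0'.2
      rw [hn, hn0]
      intro heq
      have heq' : -(j0 : ℤ) + m * n0 = -(j : ℤ) + m * n := by exact_mod_cast heq
      have hjj : (j : ℤ) - j0 = m * (n - n0) := by linarith
      have hdvd : (m : ℤ) ∣ (j : ℤ) - j0 := ⟨_, hjj⟩
      have h1 : |(j : ℤ) - j0| < m := by
        rw [abs_lt]
        constructor <;> omega
      have h2 := Int.eq_zero_of_abs_lt_dvd hdvd h1
      exact hj.1 (by omega)
  rw [hsplit, AddValuation.map_neg] at hlt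
  exact lt_irrefl _ hlt

end Valued

section Sep

variable {p : ℕ} [Fact p.Prime]
variable {L : Type*} [Field L] [CharP L p] {M : Type*} [Field M] [Algebra L M]
  [FiniteDimensional L M] [Algebra.IsSeparable L M]

theorem sep_decomp (T : L) (r : ℕ)
    (H : ∀ x : L, ∃ c : ℕ → L, x = ∑ j ∈ range (p ^ r), T ^ j * (c j) ^ (p ^ r)) (x : M) :
    ∃ c : ℕ → M, x = ∑ j ∈ range (p ^ r), (algebraMap L M T) ^ j * (c j) ^ (p ^ r) := by
  have hp : p.Prime := Fact.out
  have : ExpChar L p := ExpChar.prime hp
  have : CharP M p := charP_of_injective_algebraMap (algebraMap L M).injective p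
  have : ExpChar M p := ExpChar.prime hp
  let b := Module.finBasis L M
  let b' := b.mapPowExpCharPowOfIsSeparable p r
  have hb' : ∀ i, b' i = b i ^ (p ^ r) := fun i => by
    simp [b', Module.Basis.mapPowExpCharPowOfIsSeparable]
  choose c hc using fun i => H (b'.repr x i)
  refine ⟨fun j => ∑ i, c i j • b i, ?_⟩
  conv_lhs => rw [← b'.sum_repr x]
  simp only [sum_pow_char_pow, Finset.mul_sum]
  rw [Finset.sum_comm]
  refine Finset.sum_congr rfl fun i _ => ?_
  conv_lhs => rw [hc i]
  rw [Finset.sum_smul]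
  refine Finset.sum_congr rfl fun j _ => ?_
  rw [hb' i]
  simp only [Algebra.smul_def, map_mul, map_pow, mul_pow]
  ring

theorem sep_unique (T : L) (r : ℕ)
    (H : ∀ c : ℕ → L, ∑ j ∈ range (p ^ r), T ^ j * (c j) ^ (p ^ r) = 0 → ∀ j < p ^ r, c j = 0)
    (c : ℕ → M) (h : ∑ j ∈ range (p ^ r), (algebraMap L M T) ^ j * (c j) ^ (p ^ r) = 0) :
    ∀ j < p ^ r, c j = 0 := by
  have hp : p.Prime := Fact.out
  have : ExpChar L p := ExpChar.prime hp
  have : CharP M p := charP_of_injective_algebraMap (algebraMap L M).injective p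
  have : ExpChar M p := ExpChar.prime hp
  let b := Module.finBasis L M
  let b' := b.mapPowExpCharPowOfIsSeparable p r
  have hb' : ∀ i, b' i = b i ^ (p ^ r) := fun i => by
    simp [b', Module.Basis.mapPowExpCharPowOfIsSeparable]
  have h1 : ∑ i, (∑ j ∈ range (p ^ r), T ^ j * (b.repr (c j) i) ^ (p ^ r)) • b' i = 0 := by
    rw [← h]
    have e1 : ∀ j, (c j) ^ (p ^ r) = ∑ i, (b.repr (c j) i) ^ (p ^ r) • b' i := by
      intro j
      conv_lhs => rw [← b.sum_repr (c j)]
      rw [sum_pow_char_pow]
      refine Finset.sum_congr rfl fun i _ => ?_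
      rw [hb' i, _root_.smul_pow]
    simp only [Finset.sum_smul]
    rw [Finset.sum_comm]
    refine Finset.sum_congr rfl fun j _ => ?_
    rw [e1 j, Finset.mul_sum]
    refine Finset.sum_congr rfl fun i _ => ?_
    simp only [Algebra.smul_def, map_mul, map_pow]
    ring
  have h2 := (Fintype.linearIndependent_iff.1 b'.linearIndependent) _ h1
  intro j hj
  have h3 : ∀ i, b.repr (c j) i = 0 := fun i => H (fun j => b.repr (c j) i) (h2 i) j hj
  rw [← b.sum_repr (c j)]
  simp [h3]

end Sep

section Const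

variable {F : Type*} [Field F] [Finite F] {p : ℕ} [Fact p.Prime] [CharP F p]
variable {L : Type*} [Field L] [Algebra (Polynomial F) L] [IsFractionRing (Polynomial F) L]
variable {M : Type*} [Field M] [Algebra L M] [FiniteDimensional L M] [Algebra.IsSeparable L M]
variable [Algebra F L] [IsScalarTower F (Polynomial F) L] [Algebra F M] [IsScalarTower F L M]

/-- An element of `M` with `p ^ r`-th roots for all `r` satisfies a monic equation over `F` of
degree at most `[M : L]`. -/
theorem pow_card_of_forall_root (x : M) (h : ∀ r : ℕ, ∃ y, y ^ (p ^ r) = x) :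
    x ^ (Nat.card F ^ (Module.finrank L M).factorial) = x := by
  have hp : p.Prime := Fact.out
  have hL : CharP L p := charP_of_injective_algebraMap (algebraMap F L).injective p
  have : ExpChar L p := ExpChar.prime hp
  have : CharP M p := charP_of_injective_algebraMap (algebraMap L M).injective p
  have : ExpChar M p := ExpChar.prime hp
  -- the minimal polynomial has constant coefficients
  have hcoef : ∀ k, ∃ a : F, algebraMap F L a = (minpoly L x).coeff k := by
    intro k
    have := frac_const_of_pow (F := F) (p := p) (L := L) ((minpoly L x).coeff k) (by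
      intro r
      obtain ⟨y, hy⟩ := h r
      refine ⟨(minpoly L y).coeff k, ?_⟩
      have h1 := minpoly.iterateFrobenius_of_isSeparable (F := L) (E := M) p r
        (a := y) (Algebra.IsSeparable.isSeparable L y)
      rw [iterateFrobenius_def, hy] at h1
      rw [h1, coeff_map, iterateFrobenius_def])
    obtain ⟨a, ha⟩ := this
    refine ⟨a, ?_⟩
    rw [← ha, IsScalarTower.algebraMap_apply F (Polynomial F) L]
    rfl
  choose a ha using hcoef
  set d := (minpoly L x).natDegree with hd
  have hint : IsIntegral L x := Algebra.IsIntegral.isIntegral x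
  set f : Polynomial F := ∑ k ∈ range (d + 1), monomial k (a k) with hf
  have hfmap : f.map (algebraMap F L) = minpoly L x := by
    rw [hf, Polynomial.map_sum]
    conv_rhs => rw [(minpoly L x).as_sum_range]
    refine Finset.sum_congr rfl fun k _ => ?_
    rw [map_monomial, ha]
  have hfmonic : f.Monic := by
    have := minpoly.monic hint
    rw [← hfmap] at this
    exact (Polynomial.monic_map_iff (f := algebraMap F L)).1 this
  have hfdeg : f.natDegree = d := by
    rw [hd, ← hfmap, natDegree_map]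
  have hfx : aeval x f = 0 := by
    have h1 : aeval x (f.map (algebraMap F L)) = aeval x f := aeval_map_algebraMap L x f
    rw [← h1, hfmap, minpoly.aeval]
  have hintF : IsIntegral F x := ⟨f, hfmonic, by simpa [aeval_def] using hfx⟩
  -- the subfield generated by `x`
  have hfin : FiniteDimensional F (IntermediateField.adjoin F {x}) :=
    IntermediateField.adjoin.finiteDimensional hintF
  have hFinite : Finite (IntermediateField.adjoin F {x}) := Module.finite_of_finite F
  have hle : Module.finrank F (IntermediateField.adjoin F {x}) ≤ Module.finrank L M := by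
    rw [IntermediateField.adjoin.finrank hintF]
    calc (minpoly F x).natDegree ≤ f.natDegree :=
          natDegree_le_natDegree (minpoly.min F x hfmonic hfx)
      _ = (minpoly L x).natDegree := hfdeg
      _ ≤ Module.finrank L M := minpoly.natDegree_le x
  have hpos : 0 < Module.finrank F (IntermediateField.adjoin F {x}) := Module.finrank_pos
  obtain ⟨m, hm⟩ := Nat.dvd_factorial hpos hle
  have hcard : Nat.card (IntermediateField.adjoin F {x}) =
      Nat.card F ^ Module.finrank F (IntermediateField.adjoin F {x}) :=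
    Module.natCard_eq_pow_finrank
  have h1 : (⟨x, IntermediateField.mem_adjoin_simple_self F x⟩ :
      IntermediateField.adjoin F {x}) ^
        (Nat.card (IntermediateField.adjoin F {x}) ^ m) =
          ⟨x, IntermediateField.mem_adjoin_simple_self F x⟩ := by
    have := Fintype.ofFinite (IntermediateField.adjoin F {x})
    rw [Nat.card_eq_fintype_card]
    exact FiniteField.pow_card_pow m _
  have h2 := congrArg (fun z : IntermediateField.adjoin F {x} => (z : M)) h1
  simp only [SubmonoidClass.coe_pow] at h2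
  rw [hm, pow_mul, ← hcard]
  exact h2

end Const

end Pool.Agent.MP3c0690
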