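import Mathlib

namespace Pool.Agent.MP3c0690

open Finset

section LemmaN

variable {M : Type*} [Field M] {p : ℕ} [Fact p.Prime] [CharP M p]

/-- Frobenius twists of `F'`-independent elements satisfy the same linear relation only finitely
often. -/
theorem lemmaN (T : M) {F' : Type*} [Field F'] [Algebra F' M] [Finite F']
    (H1 : ∀ (r : ℕ) (x : M), ∃ c : ℕ → M, x = ∑ j ∈ range (p ^ r), T ^ j * (c j) ^ (p ^ r))
    (H2 : ∀ (r : ℕ) (c : ℕ → M),
      ∑ j ∈ range (p ^ r), T ^ j * (c j) ^ (p ^ r) = 0 → ∀ j < p ^ r, c j = 0)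
    (H3 : ∀ x : M, (∀ r : ℕ, ∃ y, y ^ (p ^ r) = x) → ∃ z : F', algebraMap F' M z = x)
    {ι : Type*} (s : Finset ι) (β : ι → M) (hβ : LinearIndepOn F' β (s : Set ι))
    (γ : ι → M) (S : Set ℕ) (hS : S.Infinite)
    (h : ∀ n ∈ S, ∑ i ∈ s, β i ^ (p ^ n) * γ i = 0) : ∀ i ∈ s, γ i = 0 := by
  classical
  have hp : p.Prime := Fact.out
  haveI hF' : CharP F' p := (algebraMap F' M).charP (algebraMap F' M).injective p
  haveI : ExpChar M p := ExpChar.prime hp
  haveI : ExpChar F' p := ExpChar.prime hp
  induction s using Finset.strongInduction generalizing γ S with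
  | H s IH =>
    by_contra hcon
    push Not at hcon
    obtain ⟨i0, hi0, hγ0⟩ := hcon
    -- normalise
    set γ' : ι → M := fun i => γ i / γ i0 with hγ'
    have h' : ∀ n ∈ S, ∑ i ∈ s, β i ^ (p ^ n) * γ' i = 0 := by
      intro n hn
      have : ∑ i ∈ s, β i ^ (p ^ n) * γ' i = (∑ i ∈ s, β i ^ (p ^ n) * γ i) / γ i0 := by
        rw [Finset.sum_div]
        refine Finset.sum_congr rfl fun i _ => ?_
        simp only [hγ', mul_div_assoc]
      rw [this, h n hn, zero_div]
    have hγ'0 : γ' i0 = 1 := div_self hγ0
    -- all coefficients are `p ^ r`-th powers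
    have key : ∀ r : ℕ, ∀ i ∈ s, ∃ y, y ^ (p ^ r) = γ' i := by
      intro r
      choose c hc using fun i => H1 r (γ' i)
      set c' : ι → ℕ → M := Function.update c i0 (fun j => if j = 0 then 1 else 0) with hc'
      have hc'eq : ∀ i, γ' i = ∑ j ∈ range (p ^ r), T ^ j * (c' i j) ^ (p ^ r) := by
        intro i
        by_cases hi : i = i0
        · subst hi
          rw [hγ'0, Finset.sum_eq_single 0]
          · simp [hc']
          · intro j _ hj
            simp only [hc', Function.update_self, if_neg hj]
            rw [zero_pow (pow_ne_zero _ hp.ne_zero), mul_zero]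
          · intro h0
            exact absurd (Finset.mem_range.2 (pow_pos hp.pos r)) h0
        · rw [hc i]
          simp only [hc', Function.update_of_ne hi]
      have hrel : ∀ m, m + r ∈ S → ∀ j < p ^ r, ∑ i ∈ s, β i ^ (p ^ m) * c' i j = 0 := by
        intro m hm
        apply H2 r (fun j => ∑ i ∈ s, β i ^ (p ^ m) * c' i j)
        rw [← h' (m + r) hm]
        have e1 : ∀ j, (∑ i ∈ s, β i ^ (p ^ m) * c' i j) ^ (p ^ r) =
            ∑ i ∈ s, β i ^ (p ^ (m + r)) * c' i j ^ (p ^ r) := by
          intro j
          rw [sum_pow_char_pow]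
          refine Finset.sum_congr rfl fun i _ => ?_
          rw [mul_pow, ← pow_mul, ← pow_add]
        simp only [e1, Finset.mul_sum]
        rw [Finset.sum_comm]
        refine Finset.sum_congr rfl fun i _ => ?_
        rw [hc'eq i, Finset.mul_sum]
        refine Finset.sum_congr rfl fun j _ => ?_
        ring
      have hS' : {m | m + r ∈ S}.Infinite := by
        intro hfin
        apply hS
        have : S ⊆ ((fun m => m + r) '' {m | m + r ∈ S}) ∪ Set.Iio r := by
          intro n hn
          by_cases hnr : r ≤ n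
          · left
            exact ⟨n - r, by simp only [Set.mem_setOf_eq]; rwa [Nat.sub_add_cancel hnr],
              Nat.sub_add_cancel hnr⟩
          · right
            exact not_le.1 hnr
        exact ((hfin.image _).union (Set.finite_Iio r)).subset this
      have hzero : ∀ j, j ≠ 0 → j < p ^ r → ∀ i ∈ s.erase i0, c' i j = 0 := by
        intro j hj0 hj
        apply IH (s.erase i0) (Finset.erase_ssubset hi0) (hβ.mono ?_) (fun i => c' i j)
          {m | m + r ∈ S} hS'
        · intro m hm
          have := hrel m hm j hj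
          rw [← Finset.add_sum_erase _ _ hi0] at this
          have h0 : c' i0 j = 0 := by simp [hc', hj0]
          rwa [h0, mul_zero, zero_add] at this
        · exact_mod_cast Finset.erase_subset _ _
      intro i hi
      refine ⟨c' i 0, ?_⟩
      rw [hc'eq i, Finset.sum_eq_single 0]
      · simp
      · intro j hj hj0
        by_cases hii : i = i0
        · subst hii
          have h0 : c' i j = 0 := by simp [hc', hj0]
          rw [h0, zero_pow (pow_ne_zero _ hp.ne_zero), mul_zero]
        · rw [hzero j hj0 (Finset.mem_range.1 hj) i (Finset.mem_erase.2 ⟨hii, hi⟩),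
            zero_pow (pow_ne_zero _ hp.ne_zero), mul_zero]
      · intro h0
        exact absurd (Finset.mem_range.2 (pow_pos hp.pos r)) h0
    -- so they lie in `F'`
    have hmem : ∀ i ∈ s, ∃ z : F', algebraMap F' M z = γ' i := fun i hi =>
      H3 _ fun r => key r i hi
    obtain ⟨n, hn⟩ := hS.nonempty
    have hroot : ∀ z : F', ∃ e : F', e ^ (p ^ n) = z := by
      intro z
      haveI : PerfectRing F' p := inferInstance
      obtain ⟨e, he⟩ := (iterateFrobeniusEquiv F' p n).surjective z
      exact ⟨e, by simpa [iterateFrobenius_def] using he⟩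
    have hmem' : ∀ i ∈ s, ∃ e : F', (algebraMap F' M e) ^ (p ^ n) = γ' i := by
      intro i hi
      obtain ⟨z, hz⟩ := hmem i hi
      obtain ⟨e, he⟩ := hroot z
      exact ⟨e, by rw [← map_pow, he, hz]⟩
    choose! e he using hmem'
    have hsum : ∑ i ∈ s, e i • β i = 0 := by
      have h2 : (∑ i ∈ s, e i • β i) ^ (p ^ n) = 0 := by
        rw [sum_pow_char_pow, ← h' n hn]
        refine Finset.sum_congr rfl fun i hi => ?_
        rw [Algebra.smul_def, mul_pow, he i hi, mul_comm]
      exact pow_eq_zero_iff (pow_ne_zero _ hp.ne_zero) |>.1 h2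
    have he0 := (linearIndepOn_finset_iff.1 hβ) e hsum i0 hi0
    have := he i0 hi0
    rw [he0, map_zero, zero_pow (pow_ne_zero _ hp.ne_zero), hγ'0] at this
    exact zero_ne_one this

end LemmaN

end Pool.Agent.MP3c0690
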