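import Mathlib
import Pool.Agent.Lib.MP_3c0690_nt.Eval
import Pool.Agent.Lib.MP_3c0690_nt.Frob
import Pool.Agent.Lib.MP_3c0690_nt.LemmaN

namespace Pool.Agent.MP3c0690

open Finset Polynomial TensorProduct

set_option linter.unusedSectionVars false

section ConstField

variable (F : Type*) [Field F] [Finite F] (M : Type*) [Field M] [Algebra F M]

/-- The elements of `M` with `x ^ (q ^ N) = x`, `q` the cardinality of `F`. -/
noncomputable def constField (N : ℕ) : IntermediateField F M where
  carrier := {x | frobLin F N x = x}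
  mul_mem' := by
    intro x y hx hy
    simp only [Set.mem_ofPred_eq, frobLin_apply, mul_pow] at *
    rw [hx, hy]
  one_mem' := by simp [frobLin_apply]
  add_mem' := by
    intro x y hx hy
    simp only [Set.mem_ofPred_eq] at *
    rw [map_add, hx, hy]
  zero_mem' := by simp
  algebraMap_mem' := by
    intro c
    simp only [Set.mem_ofPred_eq]
    rw [Algebra.algebraMap_eq_smul_one, map_smul, frobLin_apply, one_pow]
  inv_mem' := by
    intro x hx
    simp only [Set.mem_ofPred_eq, frobLin_apply, inv_pow] at *
    rw [hx]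

theorem mem_constField {N : ℕ} {x : M} :
    x ∈ constField F M N ↔ x ^ (Nat.card F ^ N) = x := by
  rw [← frobLin_apply]
  exact Iff.rfl

theorem constField_finite {N : ℕ} (hN : N ≠ 0) : Finite (constField F M N) := by
  classical
  have hq : 1 < Nat.card F ^ N := Nat.one_lt_pow hN Finite.one_lt_card
  have hne : (X ^ (Nat.card F ^ N) - X : Polynomial M) ≠ 0 := by
    apply Monic.ne_zero
    apply monic_X_pow_sub
    rw [degree_X]
    exact_mod_cast hq
  have : ((constField F M N : IntermediateField F M) : Set M) ⊆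
      ((X ^ (Nat.card F ^ N) - X : Polynomial M).roots.toFinset : Set M) := by
    intro x hx
    rw [SetLike.mem_coe, mem_constField] at hx
    simp only [Finset.mem_coe, Multiset.mem_toFinset, mem_roots hne, IsRoot.def, eval_sub, eval_pow,
      eval_X, hx, sub_self]
  exact (Finset.finite_toSet _).subset this

end ConstField

section EvFinite

variable {M : Type*} [Field M] {p : ℕ} [Fact p.Prime] [CharP M p]

theorem ev_finite (T : M) {F' : Type*} [Field F'] [Algebra F' M] [Finite F']
    (H1 : ∀ (r : ℕ) (x : M), ∃ c : ℕ → M, x = ∑ j ∈ range (p ^ r), T ^ j * (c j) ^ (p ^ r))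
    (H2 : ∀ (r : ℕ) (c : ℕ → M),
      ∑ j ∈ range (p ^ r), T ^ j * (c j) ^ (p ^ r) = 0 → ∀ j < p ^ r, c j = 0)
    (H3 : ∀ x : M, (∀ r : ℕ, ∃ y, y ^ (p ^ r) = x) → ∃ z : F', algebraMap F' M z = x)
    (V : Submodule F' M) [FiniteDimensional F' V] (z : M ⊗[F'] V) (hz : z ≠ 0) :
    {k : ℕ | ev F' V k z = 0}.Finite := by
  classical
  by_contra hinf
  have hp : p.Prime := Fact.out
  have : CharP F' p := (algebraMap F' M).charP (algebraMap F' M).injective p
  have hF := Fintype.ofFinite F'
  obtain ⟨f, hf⟩ : ∃ f : ℕ+, Fintype.card F' = p ^ (f : ℕ) := by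
    obtain ⟨f, _, hf⟩ := FiniteField.card F' p
    exact ⟨f, hf⟩
  have hcard : Nat.card F' = p ^ (f : ℕ) := by rw [Nat.card_eq_fintype_card, hf]
  let b := Module.finBasis F' V
  let b' := b.baseChange M
  have hz' : z = ∑ i, (b'.repr z i) ⊗ₜ[F'] (b i) := by
    conv_lhs => rw [← b'.sum_repr z]
    refine Finset.sum_congr rfl fun i _ => ?_
    rw [Module.Basis.baseChange_apply, TensorProduct.smul_tmul', smul_eq_mul, mul_one]
  have hlin : LinearIndepOn F' (fun i => ((b i : V) : M))
      ((Finset.univ : Finset (Fin (Module.finrank F' V))) : Set _) := by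
    rw [Finset.coe_univ, linearIndepOn_univ_iff]
    exact b.linearIndependent.map' V.subtype (Submodule.ker_subtype V)
  have hS : ((fun k => (f : ℕ) * k) '' {k : ℕ | ev F' V k z = 0}).Infinite := by
    apply Set.Infinite.image _ hinf
    intro a _ b _ hab
    exact Nat.eq_of_mul_eq_mul_left f.pos hab
  have hzero := lemmaN T H1 H2 H3 Finset.univ (fun i => ((b i : V) : M)) hlin
    (fun i => b'.repr z i) _ hS (by
      rintro _ ⟨k, hk, rfl⟩
      have hk' : ev F' V k z = 0 := hk
      rw [hz', map_sum] at hk'
      rw [← hk']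
      refine Finset.sum_congr rfl fun i _ => ?_
      rw [ev_tmul, hcard, ← pow_mul, mul_comm])
  apply hz
  rw [hz']
  refine Finset.sum_eq_zero fun i hi => ?_
  rw [hzero i hi, TensorProduct.zero_tmul]

end EvFinite

section Separable

variable {F : Type*} [Field F] [Finite F]
variable {L : Type*} [Field L] [Algebra (Polynomial F) L] [IsFractionRing (Polynomial F) L]
variable {𝕂 : Type*} [Field 𝕂] [Algebra L 𝕂] (v : AddValuation 𝕂 (WithTop ℤ))

theorem minpoly_separable (p : ℕ) [Fact p.Prime] [CharP F p] [CharP L p]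
    (hT : v (algebraMap L 𝕂 (algebraMap (Polynomial F) L X)) = ((-1 : ℤ) : WithTop ℤ))
    (ξ : 𝕂) (hξ : IsIntegral L ξ) : (minpoly L ξ).Separable := by
  classical
  have hp : p.Prime := Fact.out
  have : CharP 𝕂 p := charP_of_injective_algebraMap (algebraMap L 𝕂).injective p
  have : ExpChar 𝕂 p := ExpChar.prime hp
  rcases separable_or p (minpoly.irreducible hξ) with h | ⟨_, g, hg, hgf⟩
  · exact h
  exfalso
  have hgξ : aeval (ξ ^ p) g = 0 := by
    rw [← expand_aeval, hgf, minpoly.aeval]
  choose c hc using fun i => frac_decomp (F := F) (p := p) (L := L) 1 (g.coeff i)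
  simp only [pow_one] at hc
  set n := g.natDegree with hn
  have hdeg : (minpoly L ξ).natDegree = n * p := by
    rw [← hgf, natDegree_expand]
  have hn0 : n ≠ 0 := by
    intro h0
    have := minpoly.natDegree_pos hξ
    rw [hdeg, h0, zero_mul] at this
    exact lt_irrefl _ this
  -- the vanishing sum
  have hsum : ∑ j ∈ range p, (algebraMap L 𝕂 (algebraMap (Polynomial F) L X)) ^ j *
      (∑ i ∈ range (n + 1), algebraMap L 𝕂 (c i j) * ξ ^ i) ^ p = 0 := by
    rw [← hgξ, aeval_eq_sum_range]
    have e1 : ∀ j, (∑ i ∈ range (n + 1), algebraMap L 𝕂 (c i j) * ξ ^ i) ^ p =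
        ∑ i ∈ range (n + 1), algebraMap L 𝕂 (c i j) ^ p * (ξ ^ p) ^ i := by
      intro j
      rw [sum_pow_char]
      refine Finset.sum_congr rfl fun i _ => ?_
      rw [mul_pow, ← pow_mul, ← pow_mul, mul_comm i]
    simp only [e1, Finset.mul_sum]
    rw [Finset.sum_comm]
    refine Finset.sum_congr rfl fun i _ => ?_
    rw [Algebra.smul_def, hc i, map_sum, Finset.sum_mul]
    refine Finset.sum_congr rfl fun j _ => ?_
    rw [map_mul, map_pow, map_pow]
    ring
  have hzero := val_unique v _ hT p _ hsum
  -- each inner polynomial vanishes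
  have hpoly : ∀ j < p, ∀ i ∈ range (n + 1), c i j = 0 := by
    intro j hj
    set h : Polynomial L := ∑ i ∈ range (n + 1), monomial i (c i j) with hh
    have hhξ : aeval ξ h = 0 := by
      rw [hh, map_sum]
      simp only [aeval_monomial]
      exact hzero j hj
    have hh0 : h = 0 := by
      by_contra hne
      have h1 := natDegree_le_natDegree (minpoly.degree_le_of_ne_zero L ξ hne hhξ)
      have h2 : h.natDegree ≤ n := by
        rw [hh]
        refine natDegree_sum_le_of_forall_le _ _ fun i hi => ?_
        refine (natDegree_monomial_le _).trans ?_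
        rw [Finset.mem_range] at hi
        omega
      rw [hdeg] at h1
      have h3 := hp.two_le
      have h4 : n * 2 ≤ n * p := Nat.mul_le_mul_left _ h3
      omega
    intro i hi
    have h1 : h.coeff i = c i j := by
      rw [hh, finsetSum_coeff, Finset.sum_eq_single i]
      · simp
      · intro b _ hb
        rw [coeff_monomial, if_neg hb]
      · intro h
        exact absurd hi h
    rw [← h1, hh0, coeff_zero]
  have hlead : g.coeff n = 0 := by
    rw [hc n]
    refine Finset.sum_eq_zero fun j hj => ?_
    rw [hpoly j (Finset.mem_range.1 hj) n (Finset.mem_range.2 (Nat.lt_succ_self n)),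
      zero_pow hp.ne_zero, mul_zero]
  rw [hn, coeff_natDegree, leadingCoeff_eq_zero] at hlead
  exact hg.ne_zero hlead

end Separable

end Pool.Agent.MP3c0690
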