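import Mathlib
import Pool.Agent.Lib.MP_3c0690_nt.Eval

namespace Pool.Agent.MP3c0690

open Finset Polynomial TensorProduct

set_option linter.unusedSectionVars false

section StepA

variable {F : Type*} [Field F] [Finite F]
variable {L : Type*} [Field L] [Algebra F L] [Algebra (Polynomial F) L]
  [IsScalarTower F (Polynomial F) L] [IsFractionRing (Polynomial F) L]
variable {M : Type*} [Field M] [Algebra L M] [FiniteDimensional L M] [IsGalois L M]
  [Algebra F M] [IsScalarTower F L M]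
  [Algebra (Polynomial F) M] [IsScalarTower (Polynomial F) L M]
variable (F' : Type*) [Field F'] [Finite F'] [Algebra F F'] [Algebra F' M] [IsScalarTower F F' M]
variable {K : Type*} [Field K] [Algebra L K] [Algebra K M] [IsScalarTower L K M]
variable {𝕂 : Type*} [Field 𝕂] (v : AddValuation 𝕂 (WithTop ℤ)) (θ : K →+* 𝕂)
variable {κ : Type*} [Finite κ] (μ : Module.Basis κ K M)

include μ in
theorem stepA (hv : ∀ P : Polynomial F, P ≠ 0 →
      v (θ (algebraMap L K (algebraMap (Polynomial F) L P))) =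
        ((-(P.natDegree : ℤ) : ℤ) : WithTop ℤ))
    (hcoef : ∀ a : ℤ, ∃ c : 𝕂 →+ F, ∀ x, (a : WithTop ℤ) ≤ v x → c x = 0 →
      ((a + 1 : ℤ) : WithTop ℤ) ≤ v x)
    {ι : Type*} [Fintype ι] (b : Module.Basis ι L M)
    (hb : ∀ i, IsIntegral (Polynomial F) (b i))
    {Λ : Type*} [Fintype Λ] (σ : Λ → (M ≃ₐ[L] M)) (α : Λ → M)
    (hΛ : Fintype.card Λ * Nat.card κ ≤ Fintype.card ι)
    (ξ : K) (hσ : ∀ j, σ j (α j) = algebraMap K M ξ)
    (hall : ∀ τ : M ≃ₐ[L] M, ∃ j, τ (α j) = algebraMap K M ξ)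
    (hfix : ∀ δ : M ≃ₐ[L] M, δ (algebraMap K M ξ) = algebraMap K M ξ →
      ∀ k : K, δ (algebraMap K M k) = algebraMap K M k) :
    ∃ C : ℕ, ∀ (s : ℝ), 0 < s → ∀ m e M' : ℕ,
      (∑ c ∈ range (m + 1), ((M' : ℤ) + e + C - ⌊(c : ℝ) * s⌋).toNat < (m + 1) * (e + 1)) →
      ∃ Γ : Fin (m + 1) → M ⊗[F'] (Vsp (F := F) F' b e), Γ ≠ 0 ∧
        ∃ B : ℤ, ∀ (k : ℕ) (P Q : Polynomial F), Q ≠ 0 → ∀ t : ℤ,
          (t : WithTop ℤ) ≤ v (θ (algebraMap L K
            (algebraMap (Polynomial F) L P / algebraMap (Polynomial F) L Q) - ξ)) →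
          s * (Nat.card F' ^ k : ℕ) ≤ t →
          B < (Nat.card F' ^ k : ℕ) * (M' : ℤ) - m * Q.natDegree →
          ∑ a : Fin (m + 1), (algebraMap L M
            (algebraMap (Polynomial F) L P / algebraMap (Polynomial F) L Q)) ^ (a : ℕ) *
              ev F' (Vsp (F := F) F' b e) k (Γ a) = 0 := by
  classical
  obtain ⟨C0, hC00, hC0⟩ := exists_mul_bound v θ μ
  obtain ⟨Ca, hCa⟩ := exists_aux F' v θ μ hv hcoef b σ α hΛ
  refine ⟨Ca + (-C0).toNat, fun s hs m e M' hcount => ?_⟩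
  obtain ⟨Γ, hΓ0, hΓ⟩ := hCa m e (fun c => (M' : ℤ) - C0 - ⌊(c : ℝ) * s⌋) (by
    refine lt_of_le_of_lt (le_of_eq ?_) hcount
    refine Finset.sum_congr rfl fun c _ => ?_
    congr 1
    have : (((-C0).toNat : ℕ) : ℤ) = -C0 := Int.toNat_of_nonneg (by omega)
    push_cast
    rw [this]
    ring)
  refine ⟨Γ, hΓ0, ?_⟩
  have hAlg1 := IsLocalization.isAlgebraic L (nonZeroDivisors (Polynomial F))
  have hAlg := Algebra.IsAlgebraic.trans (Polynomial F) L M
  -- constants
  obtain ⟨C1, hC10, hC1⟩ := exists_uniform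
    (fun (y : Λ × Fin (m + 1)) (C : ℤ) => ∀ k : ℕ,
      Ge v θ μ ((Nat.card F' ^ k : ℕ) * (((M' : ℤ) - C0 - ⌊((y.2 : ℕ) : ℝ) * s⌋) + C0) + C)
        (σ y.1 (ev F' (Vsp (F := F) F' b e) k (∑ a : Fin (m + 1),
          (((a : ℕ).choose y.2 : M) * α y.1 ^ ((a : ℕ) - y.2)) • Γ a))))
    (fun _ _ _ hmn h k => (h k).mono (by omega))
    (fun y => ev_size F' v θ μ hC00 hC0 (Vsp (F := F) F' b e) (σ y.1) _ _ (hΓ y.1 y.2))
  have hr : ∀ a : Fin (m + 1), ∃ r : Polynomial F, r ≠ 0 ∧ ∀ k : ℕ,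
      IsIntegral (Polynomial F) (algebraMap (Polynomial F) M r * ev F' (Vsp (F := F) F' b e) k (Γ a)) := fun a =>
    ev_integral F' (Vsp (F := F) F' b e) (fun x hx => Vsp_integral F' b hb e hx) (Γ a)
  choose r' hr'0 hr' using hr
  set r : Polynomial F := ∏ a, r' a with hrdef
  have hr0 : r ≠ 0 := Finset.prod_ne_zero_iff.2 fun a _ => hr'0 a
  have hrint : ∀ a k, IsIntegral (Polynomial F) (algebraMap (Polynomial F) M r * ev F' (Vsp (F := F) F' b e) k (Γ a)) := by
    intro a k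
    have h1 : r = (∏ a' ∈ Finset.univ.erase a, r' a') * r' a := by
      rw [hrdef, Finset.prod_erase_mul _ _ (Finset.mem_univ a)]
    rw [h1, map_mul, mul_assoc]
    exact isIntegral_algebraMap.mul (hr' a k)
  obtain ⟨C2, hC20, hC2⟩ := exists_uniform
    (fun (δ : {δ : M ≃ₐ[L] M // δ (algebraMap K M ξ) = algebraMap K M ξ}) (C : ℤ) =>
      ∀ (a : ℤ) (x : M), Ge v θ μ a x → Ge v θ μ (a + C) (δ.1 x))
    (fun _ _ _ hmn h a x hx => (h a x hx).mono (by omega)) (fun δ => by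
      obtain ⟨C, _, hC⟩ := exists_linear_bound v θ μ
        ({ toFun := fun x => δ.1 x
           map_add' := fun x y => map_add _ _ _
           map_smul' := fun k x => by
             rw [Algebra.smul_def, map_mul, hfix δ.1 δ.2 k, RingHom.id_apply, Algebra.smul_def] } :
          M →ₗ[K] M)
      exact ⟨C, fun a x hx => hC a x hx⟩)
  obtain ⟨C3, hC3⟩ := exists_Ge v θ μ (1 : M)
  obtain ⟨C4, hC4⟩ := exists_base_bound v θ μ
  refine ⟨r.natDegree - C1 - C2 - C0 + |C3| + |C4|, fun k P Q hQ t ht hst hB => ?_⟩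
  set q : ℕ := Nat.card F' ^ k with hq
  have hq0 : 0 < q := pow_pos Nat.card_pos k
  set ρL : L := algebraMap (Polynomial F) L P / algebraMap (Polynomial F) L Q with hρL
  set ρ : M := algebraMap L M ρL with hρ
  set Θ : M := ∑ a : Fin (m + 1), ρ ^ (a : ℕ) * ev F' (Vsp (F := F) F' b e) k (Γ a) with hΘ
  set x : M := algebraMap (Polynomial F) M (r * Q ^ m) * Θ with hx
  have hQL : algebraMap (Polynomial F) L Q ≠ 0 := by
    rwa [Ne, IsFractionRing.to_map_eq_zero_iff]
  have hinjM : Function.Injective (algebraMap (Polynomial F) M) := by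
    rw [IsScalarTower.algebraMap_eq (Polynomial F) L M]
    exact (algebraMap L M).injective.comp (IsFractionRing.injective (Polynomial F) L)
  have hQM : algebraMap (Polynomial F) M Q ≠ 0 := by
    rwa [Ne, map_eq_zero_iff _ hinjM]
  have hQρ : algebraMap (Polynomial F) M Q * ρ = algebraMap (Polynomial F) M P := by
    rw [hρ, hρL, IsScalarTower.algebraMap_apply (Polynomial F) L M Q,
      IsScalarTower.algebraMap_apply (Polynomial F) L M P, ← map_mul, mul_div_cancel₀ _ hQL]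
  -- integrality
  have hxint : IsIntegral (Polynomial F) x := by
    rw [hx, hΘ, Finset.mul_sum]
    refine IsIntegral.sum _ fun a _ => ?_
    have h1 : algebraMap (Polynomial F) M (r * Q ^ m) * (ρ ^ (a : ℕ) * ev F' (Vsp (F := F) F' b e) k (Γ a)) =
        algebraMap (Polynomial F) M (Q ^ (m - a) * P ^ (a : ℕ)) *
          (algebraMap (Polynomial F) M r * ev F' (Vsp (F := F) F' b e) k (Γ a)) := by
      have h2 : Q ^ m = Q ^ (m - (a : ℕ)) * Q ^ (a : ℕ) := by
        rw [← pow_add, Nat.sub_add_cancel (by have := a.2; omega)]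
      rw [h2, map_mul, map_mul, map_mul, map_pow _ Q (a : ℕ), map_pow _ P, ← hQρ, mul_pow]
      ring
    rw [h1]
    exact isIntegral_algebraMap.mul (hrint a k)
  -- size of `σ j Θ`
  have hsize : ∀ j, Ge v θ μ ((q : ℤ) * M' + C1) (σ j Θ) := by
    intro j
    rw [hΘ, taylor_ev F' (Vsp (F := F) F' b e) k m Γ ρ (α j), map_sum]
    refine Ge.sum fun c _ => ?_
    have h1 : σ j ((ρ - α j) ^ (c : ℕ) * ev F' (Vsp (F := F) F' b e) k (∑ a : Fin (m + 1),
        (((a : ℕ).choose c : M) * α j ^ ((a : ℕ) - c)) • Γ a)) =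
        ((algebraMap L K ρL - ξ) ^ (c : ℕ)) • σ j (ev F' (Vsp (F := F) F' b e) k (∑ a : Fin (m + 1),
        (((a : ℕ).choose c : M) * α j ^ ((a : ℕ) - c)) • Γ a)) := by
      rw [map_mul, map_pow, map_sub, hσ j, hρ, AlgEquiv.commutes, Algebra.smul_def, map_pow,
        map_sub, ← IsScalarTower.algebraMap_apply L K M]
    rw [h1]
    have h2 : (((c : ℕ) * t : ℤ) : WithTop ℤ) ≤ v (θ ((algebraMap L K ρL - ξ) ^ (c : ℕ))) := by
      rw [map_pow, AddValuation.map_pow]
      have h3 := nsmul_le_nsmul_right ht (c : ℕ)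
      rw [← WithTop.coe_nsmul] at h3
      simpa using h3
    have h4 := (hC1 (j, c) k).smul h2
    refine h4.mono ?_
    -- numerical inequality
    have h5 : (⌊((c : ℕ) : ℝ) * s⌋ : ℤ) * q ≤ (c : ℕ) * t := by
      have h6 : ((⌊((c : ℕ) : ℝ) * s⌋ : ℤ) : ℝ) * q ≤ ((c : ℕ) : ℝ) * t := by
        calc ((⌊((c : ℕ) : ℝ) * s⌋ : ℤ) : ℝ) * q ≤ (((c : ℕ) : ℝ) * s) * q :=
              mul_le_mul_of_nonneg_right (Int.floor_le _) (by positivity)
          _ = ((c : ℕ) : ℝ) * (s * q) := by ring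
          _ ≤ ((c : ℕ) : ℝ) * t := mul_le_mul_of_nonneg_left hst (by positivity)
      exact_mod_cast h6
    have h7 : (q : ℤ) * (((M' : ℤ) - C0 - ⌊((c : ℕ) : ℝ) * s⌋) + C0) =
        q * M' - ⌊((c : ℕ) : ℝ) * s⌋ * q := by ring
    simp only at h7 ⊢
    rw [← hq, h7]
    linarith
  -- size of `τ x`
  have hsize' : ∀ τ : M ≃ₐ[L] M,
      Ge v θ μ ((q : ℤ) * M' - m * Q.natDegree - r.natDegree + C1 + C2) (τ x) := by
    intro τ
    obtain ⟨j, hj⟩ := hall τ
    have hδ : ((σ j).symm.trans τ) (algebraMap K M ξ) = algebraMap K M ξ := by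
      rw [AlgEquiv.trans_apply, ← hσ j, AlgEquiv.symm_apply_apply, hj, hσ j]
    have h1 : τ x = ((σ j).symm.trans τ) (σ j x) := by
      rw [AlgEquiv.trans_apply, AlgEquiv.symm_apply_apply]
    rw [h1]
    have h2 : σ j x = (algebraMap L K (algebraMap (Polynomial F) L (r * Q ^ m))) • σ j Θ := by
      rw [hx, map_mul, Algebra.smul_def, ← IsScalarTower.algebraMap_apply L K M,
        IsScalarTower.algebraMap_apply (Polynomial F) L M, AlgEquiv.commutes]
    have h3 : ((-((m : ℤ) * Q.natDegree) - r.natDegree : ℤ) : WithTop ℤ) ≤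
        v (θ (algebraMap L K (algebraMap (Polynomial F) L (r * Q ^ m)))) := by
      rw [hv _ (mul_ne_zero hr0 (pow_ne_zero _ hQ)), natDegree_mul hr0 (pow_ne_zero _ hQ),
        natDegree_pow]
      apply le_of_eq
      congr 1
      push_cast
      ring
    have h4 := (hsize j).smul h3
    rw [← h2] at h4
    have h5 := hC2 ⟨(σ j).symm.trans τ, hδ⟩ _ _ h4
    exact h5.mono (by linarith)
  -- the norm
  have hprod := Ge.prod hC0 hC3 (Finset.univ : Finset (M ≃ₐ[L] M)) (fun τ => τ x)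
    (fun τ _ => hsize' τ)
  rw [← Algebra.norm_eq_prod_automorphisms, IsScalarTower.algebraMap_apply L K M] at hprod
  have hval := hC4 _ _ hprod
  have hNint : IsIntegral (Polynomial F) (Algebra.norm L x) := Algebra.isIntegral_norm L hxint
  obtain ⟨N0, hN0⟩ := IsIntegrallyClosed.isIntegral_iff.1 hNint
  have hN00 : N0 = 0 := by
    by_contra hne
    rw [← hN0, hv N0 hne] at hval
    have hcard : (1 : ℤ) ≤ ((Finset.univ : Finset (M ≃ₐ[L] M)).card : ℤ) := by
      have : 0 < (Finset.univ : Finset (M ≃ₐ[L] M)).card := Finset.card_pos.2 ⟨1, Finset.mem_univ _⟩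
      exact_mod_cast this
    have h1 : ((Finset.univ : Finset (M ≃ₐ[L] M)).card : ℤ) *
        ((q : ℤ) * M' - m * Q.natDegree - r.natDegree + C1 + C2 + C0) + C3 + C4 ≤
          -(N0.natDegree : ℤ) := by exact_mod_cast hval
    have h2 : |C3| + |C4| < (q : ℤ) * M' - m * Q.natDegree - r.natDegree + C1 + C2 + C0 := by
      linarith
    have h3 : (q : ℤ) * M' - m * Q.natDegree - r.natDegree + C1 + C2 + C0 ≤
        ((Finset.univ : Finset (M ≃ₐ[L] M)).card : ℤ) *
        ((q : ℤ) * M' - m * Q.natDegree - r.natDegree + C1 + C2 + C0) := by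
      have h4 : 0 ≤ (q : ℤ) * M' - m * Q.natDegree - r.natDegree + C1 + C2 + C0 := by
        have := abs_nonneg C3
        have := abs_nonneg C4
        linarith
      nlinarith
    have h5 := neg_abs_le C3
    have h6 := neg_abs_le C4
    have h7 : (0 : ℤ) ≤ (N0.natDegree : ℤ) := Int.natCast_nonneg _
    linarith
  rw [hN00, map_zero] at hN0
  have hx0 : x = 0 := by
    have := Algebra.norm_eq_zero_iff.1 hN0.symm
    exact this
  rw [hx] at hx0
  rcases mul_eq_zero.1 hx0 with h1 | h1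
  · exfalso
    rw [map_eq_zero_iff _ hinjM] at h1
    exact mul_ne_zero hr0 (pow_ne_zero _ hQ) h1
  · exact h1

end StepA

end Pool.Agent.MP3c0690
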