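import Mathlib
import Pool.Agent.Lib.MP_3c0690_nt.Eval
import Pool.Agent.Lib.MP_3c0690_nt.LemmaN

namespace Pool.Agent.MP3c0690

open Finset Polynomial TensorProduct Filter

set_option linter.unusedSectionVars false

section Kernel

variable {k E : Type*} [Field k] [Field E] (Ψ : Polynomial (Polynomial k) →+* E)

/-- The kernel of a map from `k[U][X]` to a field that is injective on `k[U]` is generated by an
irreducible polynomial of positive degree, as soon as it is nonzero. -/
theorem ker_principal (hinj : ∀ f : Polynomial k, Ψ (C f) = 0 → f = 0)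
    (hne : ∃ G, G ≠ 0 ∧ Ψ G = 0) :
    ∃ H : Polynomial (Polynomial k), Irreducible H ∧ H.natDegree ≠ 0 ∧
      ∀ G, Ψ G = 0 ↔ H ∣ G := by
  have hprime : (RingHom.ker Ψ).IsPrime := RingHom.ker_isPrime Ψ
  have hbot : RingHom.ker Ψ ≠ ⊥ := by
    obtain ⟨G, hG0, hG⟩ := hne
    intro h
    have : G ∈ RingHom.ker Ψ := hG
    rw [h, Ideal.mem_bot] at this
    exact hG0 this
  obtain ⟨H, hHmem, hH⟩ := hprime.exists_mem_prime_of_ne_bot hbot
  have hHirr := hH.irreducible
  have hH0 : Ψ H = 0 := hHmem
  have hdeg : H.natDegree ≠ 0 := by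
    intro h
    obtain ⟨f, hf⟩ := natDegree_eq_zero.1 h
    rw [← hf] at hH0
    have := hinj f hH0
    rw [this, C_0] at hf
    exact hH.ne_zero hf.symm
  refine ⟨H, hHirr, hdeg, fun G => ⟨fun hG => ?_, fun hG => ?_⟩⟩
  · have hprim : H.IsPrimitive := hHirr.isPrimitive hdeg
    have hinj' : Function.Injective (Ψ.comp (C : Polynomial k →+* _)) := by
      rw [injective_iff_map_eq_zero]
      exact fun f hf => hinj f hf
    let φ : FractionRing (Polynomial k) →+* E := IsFractionRing.lift hinj'
    have hφ : φ.comp (algebraMap (Polynomial k) (FractionRing (Polynomial k))) = Ψ.comp C := by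
      ext x
      · simp [φ]
      · simp [φ]
    have hmap : Irreducible (H.map (algebraMap (Polynomial k) (FractionRing (Polynomial k)))) :=
      (hprim.irreducible_iff_irreducible_map_fraction_map).1 hHirr
    apply hprim.dvd_of_fraction_map_dvd_fraction_map (K := FractionRing (Polynomial k))
    by_contra hcon
    have hcop := (EuclideanDomain.dvd_or_coprime _ _ hmap).resolve_left hcon
    obtain ⟨a, b, hab⟩ := hcop
    have hev : ∀ Q : Polynomial (Polynomial k),
        eval₂ φ (Ψ X) (Q.map (algebraMap (Polynomial k) (FractionRing (Polynomial k)))) = Ψ Q := by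
      intro Q
      rw [eval₂_map, hφ]
      have : (eval₂RingHom (Ψ.comp C) (Ψ X)) = Ψ := by
        apply Polynomial.ringHom_ext'
        · ext <;> simp
        · simp
      exact congrArg (fun f : Polynomial (Polynomial k) →+* E => f Q) this
    have h1 := congrArg (eval₂ φ (Ψ X)) hab
    rw [eval₂_add, eval₂_mul, eval₂_mul, hev, hev, hG, hH0, mul_zero, mul_zero, add_zero,
      eval₂_one] at h1
    exact zero_ne_one h1
  · obtain ⟨c, rfl⟩ := hG
    rw [map_mul, hH0, zero_mul]

theorem exists_ker_of_algebraic (m : ℕ) (c : Fin (m + 1) → E) (hc0 : c ≠ 0)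
    (halg : ∀ a, @IsAlgebraic (Polynomial k) E _ _ (Ψ.comp C).toAlgebra (c a))
    (hrel : ∑ a : Fin (m + 1), Ψ X ^ (a : ℕ) * c a = 0) : ∃ G, G ≠ 0 ∧ Ψ G = 0 := by
  classical
  let := (Ψ.comp (C : Polynomial k →+* _)).toAlgebra
  have hmapdef : algebraMap (Polynomial k) E = Ψ.comp C := rfl
  let A1 := Subalgebra.algebraicClosure (Polynomial k) E
  let c' : Fin (m + 1) → A1 := fun a => ⟨c a, halg a⟩
  let g : Polynomial A1 := ∑ a : Fin (m + 1), monomial (a : ℕ) (c' a)
  have hg0 : g ≠ 0 := by
    intro hg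
    apply hc0
    funext a
    have h1 : g.coeff (a : ℕ) = c' a := by
      simp only [g, finsetSum_coeff, coeff_monomial]
      rw [Finset.sum_eq_single a]
      · simp
      · intro b _ hb
        rw [if_neg (fun h => hb (Fin.ext h))]
      · simp
    rw [hg, coeff_zero] at h1
    have h2 := congrArg (fun z : A1 => (z : E)) h1
    simp only [ZeroMemClass.coe_zero, c'] at h2
    exact h2.symm
  have hgx : aeval (Ψ X) g = 0 := by
    simp only [g, map_sum, aeval_monomial]
    rw [← hrel]
    refine Finset.sum_congr rfl fun a _ => ?_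
    rw [mul_comm]
    rfl
  have h1 : IsAlgebraic A1 (Ψ X) := ⟨g, hg0, hgx⟩
  have h2 : IsAlgebraic (Polynomial k) (Ψ X) := h1.restrictScalars (Polynomial k)
  obtain ⟨G, hG0, hG⟩ := h2
  refine ⟨G, hG0, ?_⟩
  have : (eval₂RingHom (Ψ.comp C) (Ψ X)) = Ψ := by
    apply Polynomial.ringHom_ext'
    · ext <;> simp
    · simp
  rw [aeval_def, hmapdef] at hG
  rw [← hG]
  exact (congrArg (fun f : Polynomial (Polynomial k) →+* E => f G) this).symm

end Kernel

section StepB

variable {F : Type*} [Field F] [Finite F]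
variable {L : Type*} [Field L] [Algebra F L] [Algebra (Polynomial F) L]
  [IsScalarTower F (Polynomial F) L] [IsFractionRing (Polynomial F) L]
variable {M : Type*} [Field M] [Algebra L M] [Algebra.IsAlgebraic L M]
  [Algebra F M] [IsScalarTower F L M]
  [Algebra (Polynomial F) M] [IsScalarTower (Polynomial F) L M]
variable (F' : Type*) [Field F'] [Finite F'] [Algebra F F'] [Algebra F' M] [IsScalarTower F F' M]

theorem eventually_ne_of_tendsto {q : ℕ → ℕ} (hq : Tendsto q atTop atTop) {S : Set ℕ}
    (hS : S.Finite) : ∀ᶠ i in (hyperfilter ℕ : Filter ℕ), q i ∉ S := by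
  have h1 : ∀ᶠ i in atTop, q i ∉ S := by
    apply hq.eventually (p := fun x => x ∉ S)
    rw [← Nat.cofinite_eq_atTop]
    exact hS.eventually_cofinite_notMem
  exact Nat.hyperfilter_le_atTop h1

/-- Evaluation of bivariate polynomials at the sequence `(T ^ q i, ρ i)` modulo an ultrafilter. -/
noncomputable def seqEval (M : Type*) [Field M] [Algebra L M] (q : ℕ → ℕ) (ρ : ℕ → L) :
    Polynomial (Polynomial L) →+* Germ (hyperfilter ℕ : Filter ℕ) M :=
  (Germ.coeRingHom (hyperfilter ℕ : Filter ℕ)).comp (RingHom.pi fun i =>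
    (algebraMap L M).comp (evalEvalRingHom (algebraMap (Polynomial F) L X ^ (q i)) (ρ i)))

theorem seqEval_eq_zero (q : ℕ → ℕ) (ρ : ℕ → L) (G : Polynomial (Polynomial L)) :
    seqEval (F := F) M q ρ G = 0 ↔ ∀ᶠ i in (hyperfilter ℕ : Filter ℕ),
      G.evalEval (algebraMap (Polynomial F) L X ^ (q i)) (ρ i) = 0 := by
  have h1 : seqEval (F := F) M q ρ G = ((fun i => algebraMap L M
      (G.evalEval (algebraMap (Polynomial F) L X ^ (q i)) (ρ i)) : ℕ → M) :
        Germ (hyperfilter ℕ : Filter ℕ) M) := rfl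
  have h2 : (0 : Germ (hyperfilter ℕ : Filter ℕ) M) =
    ((fun _ => 0 : ℕ → M) : Germ (hyperfilter ℕ : Filter ℕ) M) := rfl
  rw [h1, h2, Germ.coe_eq]
  refine eventually_congr (Eventually.of_forall fun i => ?_)
  simp only []
  exact map_eq_zero _

theorem seqEval_inj {q : ℕ → ℕ} (hq : Tendsto q atTop atTop) (ρ : ℕ → L) (f : Polynomial L)
    (hf : seqEval (F := F) M q ρ (C f) = 0) : f = 0 := by
  classical
  by_contra hf0
  rw [seqEval_eq_zero] at hf
  have hfin : {n : ℕ | f.eval (algebraMap (Polynomial F) L X ^ n) = 0}.Finite := by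
    have hinj : Set.InjOn (fun n : ℕ => algebraMap (Polynomial F) L X ^ n)
        {n : ℕ | f.eval (algebraMap (Polynomial F) L X ^ n) = 0} := by
      intro a _ b _ hab
      simp only [← map_pow] at hab
      have h1 := IsFractionRing.injective (Polynomial F) L hab
      have h2 := congrArg natDegree h1
      simpa using h2
    apply Set.Finite.of_finite_image _ hinj
    refine (f.roots.toFinset.finite_toSet).subset ?_
    rintro _ ⟨n, hn, rfl⟩
    simp only [Finset.mem_coe, Multiset.mem_toFinset]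
    exact (mem_roots hf0).2 hn
  have h3 := eventually_ne_of_tendsto hq hfin
  obtain ⟨i, hi1, hi2⟩ := (hf.and h3).exists
  apply hi2
  simpa [evalEval_C] using hi1

theorem stepB {κ : ℕ → ℕ} (hκ : Tendsto κ atTop atTop) (ρ : ℕ → L)
    (V : Submodule F' M) {m : ℕ} (Γ : Fin (m + 1) → M ⊗[F'] V)
    (hΓ : ∃ a, {k : ℕ | ev F' V k (Γ a) = 0}.Finite)
    (hrel : ∀ᶠ i in atTop, ∑ a : Fin (m + 1),
      (algebraMap L M (ρ i)) ^ (a : ℕ) * ev F' V (κ i) (Γ a) = 0) :
    ∃ H : Polynomial (Polynomial L), Irreducible H ∧ H.natDegree ≠ 0 ∧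
      ∀ G : Polynomial (Polynomial L),
        (∀ᶠ i in (hyperfilter ℕ : Filter ℕ),
          G.evalEval (algebraMap (Polynomial F) L X ^ (Nat.card F' ^ κ i)) (ρ i) = 0) ↔ H ∣ G := by
  classical
  set q : ℕ → ℕ := fun i => Nat.card F' ^ κ i with hqdef
  have hq : Tendsto q atTop atTop :=
    (tendsto_pow_atTop_atTop_of_one_lt Finite.one_lt_card).comp hκ
  set Ψ := seqEval (F := F) M q ρ with hΨ
  have hinj : ∀ f : Polynomial L, Ψ (C f) = 0 → f = 0 := fun f hf => seqEval_inj hq ρ f hf
  let := (Ψ.comp (C : Polynomial L →+* _)).toAlgebra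
  have hmapdef : algebraMap (Polynomial L) (Germ (hyperfilter ℕ : Filter ℕ) M) = Ψ.comp C := rfl
  -- the two embeddings of `M`
  let ι0 : M →+* Germ (hyperfilter ℕ : Filter ℕ) M :=
    (Germ.coeRingHom (hyperfilter ℕ : Filter ℕ)).comp (RingHom.pi fun _ => RingHom.id M)
  let φ0 : M →+* Germ (hyperfilter ℕ : Filter ℕ) M :=
    letI := Fintype.ofFinite F'
    (Germ.coeRingHom (hyperfilter ℕ : Filter ℕ)).comp (RingHom.pi fun i =>
      ((FiniteField.frobeniusAlgHom F' M) ^ (κ i) : M →ₐ[F'] M).toRingHom)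
  have hφ0 : ∀ x : M, φ0 x = ((fun i => x ^ (q i) : ℕ → M) :
      Germ (hyperfilter ℕ : Filter ℕ) M) := by
    intro x
    have h1 : ∀ i, frobLin F' (κ i) x = x ^ (q i) := fun i => frobLin_apply F' (κ i) x
    have h2 : φ0 x = ((fun i => frobLin F' (κ i) x : ℕ → M) :
      Germ (hyperfilter ℕ : Filter ℕ) M) := rfl
    rw [h2]
    congr 1
    funext i
    exact h1 i
  have hι0 : ∀ x : M, ι0 x = ((fun _ => x : ℕ → M) :
      Germ (hyperfilter ℕ : Filter ℕ) M) := fun x => rfl
  have hιalg : ∀ x : M, IsAlgebraic (Polynomial L) (ι0 x) := by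
    intro x
    refine (Algebra.IsAlgebraic.isAlgebraic (R := L) x).ringHom_of_comp_eq
      (C : L →+* Polynomial L) ι0 C_injective ?_
    rw [hmapdef]
    ext a
    simp only [RingHom.comp_apply]
    change Ψ (C (C a)) = ι0 (algebraMap L M a)
    rw [hι0]
    have h1 : Ψ (C (C a)) = ((fun i => algebraMap L M
      ((C (C a) : Polynomial (Polynomial L)).evalEval
        (algebraMap (Polynomial F) L X ^ (q i)) (ρ i)) : ℕ → M) :
        Germ (hyperfilter ℕ : Filter ℕ) M) := rfl
    rw [h1]
    simp [evalEval_C]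
  have hφalg : ∀ x : M, IsAlgebraic (Polynomial L) (φ0 x) := by
    intro x
    have hAlg1 := IsLocalization.isAlgebraic L (nonZeroDivisors (Polynomial F))
    have hAlg := Algebra.IsAlgebraic.trans (Polynomial F) L M
    refine (Algebra.IsAlgebraic.isAlgebraic (R := Polynomial F) x).ringHom_of_comp_eq
      (mapRingHom (algebraMap F L)) φ0
      (map_injective _ (algebraMap F L).injective) ?_
    rw [hmapdef]
    apply RingHom.ext
    intro P
    simp only [RingHom.comp_apply]
    change Ψ (C (mapRingHom (algebraMap F L) P)) = φ0 (algebraMap (Polynomial F) M P)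
    rw [hφ0]
    have h1 : Ψ (C (mapRingHom (algebraMap F L) P)) = ((fun i => algebraMap L M
      ((C (mapRingHom (algebraMap F L) P) : Polynomial (Polynomial L)).evalEval
        (algebraMap (Polynomial F) L X ^ (q i)) (ρ i)) : ℕ → M) :
        Germ (hyperfilter ℕ : Filter ℕ) M) := rfl
    rw [h1]
    congr 1
    funext i
    rw [evalEval_C, coe_mapRingHom, eval_map_algebraMap]
    -- `P (T ^ q) = P (T) ^ q`
    have h2 : ∀ c : F, algebraMap F M c ^ (q i) = algebraMap F M c := by
      intro c
      rw [IsScalarTower.algebraMap_apply F F' M, ← frobLin_apply F' (κ i)]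
      have : algebraMap F' M (algebraMap F F' c) = (algebraMap F F' c) • (1 : M) := by
        rw [Algebra.smul_def, mul_one]
      rw [this, map_smul, frobLin_apply, one_pow]
    have h3 : ∀ P : Polynomial F, algebraMap L M
        (aeval (algebraMap (Polynomial F) L X ^ (q i)) P) =
          (algebraMap (Polynomial F) M P) ^ (q i) := by
      intro P
      have hfrob : ∀ x : M, x ^ (q i) = frobLin F' (κ i) x := fun x =>
        (frobLin_apply F' (κ i) x).symm
      induction P using Polynomial.induction_on' with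
      | add P Q hP hQ =>
        rw [map_add, map_add, hP, hQ, map_add, hfrob, hfrob, hfrob, map_add]
      | monomial n a =>
        rw [← C_mul_X_pow_eq_monomial, map_mul, map_pow, aeval_C, aeval_X, map_mul, map_pow,
          map_pow, map_mul, map_pow, mul_pow, ← IsScalarTower.algebraMap_apply F L M,
          ← IsScalarTower.algebraMap_apply (Polynomial F) L M]
        have h4 : algebraMap (Polynomial F) M (C a) = algebraMap F M a := by
          rw [IsScalarTower.algebraMap_apply (Polynomial F) L M,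
            IsScalarTower.algebraMap_apply F L M, IsScalarTower.algebraMap_apply F (Polynomial F) L]
          rfl
        rw [h4, h2, ← pow_mul, ← pow_mul, mul_comm n]
    exact h3 P
  -- the evaluated coefficients are algebraic
  have halg : ∀ z : M ⊗[F'] V, IsAlgebraic (Polynomial L)
      (((fun i => ev F' V (κ i) z : ℕ → M) : Germ (hyperfilter ℕ : Filter ℕ) M)) := by
    intro z
    induction z using TensorProduct.induction_on with
    | zero =>
      have : ((fun i => ev F' V (κ i) 0 : ℕ → M) : Germ (hyperfilter ℕ : Filter ℕ) M) = 0 := by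
        simp only [map_zero]
        rfl
      rw [this]
      exact isAlgebraic_zero
    | tmul γ β =>
      have : ((fun i => ev F' V (κ i) (γ ⊗ₜ β) : ℕ → M) : Germ (hyperfilter ℕ : Filter ℕ) M) =
          ι0 γ * φ0 β := by
        rw [hφ0, hι0]
        simp only [ev_tmul]
        rfl
      rw [this]
      exact (hιalg γ).mul (hφalg β)
    | add x y hx hy =>
      have : ((fun i => ev F' V (κ i) (x + y) : ℕ → M) : Germ (hyperfilter ℕ : Filter ℕ) M) =
          ((fun i => ev F' V (κ i) x : ℕ → M) : Germ (hyperfilter ℕ : Filter ℕ) M) +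
          ((fun i => ev F' V (κ i) y : ℕ → M) : Germ (hyperfilter ℕ : Filter ℕ) M) := by
        simp only [map_add]
        rfl
      rw [this]
      exact hx.add hy
  -- relation
  set c : Fin (m + 1) → Germ (hyperfilter ℕ : Filter ℕ) M := fun a =>
    ((fun i => ev F' V (κ i) (Γ a) : ℕ → M) : Germ (hyperfilter ℕ : Filter ℕ) M) with hc
  have hc0 : c ≠ 0 := by
    obtain ⟨a, ha⟩ := hΓ
    intro h
    have h1 := congrFun h a
    have h2 : ∀ᶠ i in (hyperfilter ℕ : Filter ℕ), ev F' V (κ i) (Γ a) = 0 := by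
      have : c a = ((fun _ => 0 : ℕ → M) : Germ (hyperfilter ℕ : Filter ℕ) M) := h1
      rw [hc] at this
      exact Germ.coe_eq.1 this
    obtain ⟨i, hi1, hi2⟩ := (h2.and (eventually_ne_of_tendsto hκ ha)).exists
    exact hi2 hi1
  have hX : Ψ X = ((fun i => algebraMap L M (ρ i) : ℕ → M) :
      Germ (hyperfilter ℕ : Filter ℕ) M) := by
    have h1 : Ψ X = ((fun i => algebraMap L M
      ((X : Polynomial (Polynomial L)).evalEval
        (algebraMap (Polynomial F) L X ^ (q i)) (ρ i)) : ℕ → M) :
        Germ (hyperfilter ℕ : Filter ℕ) M) := rfl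
    rw [h1]
    simp [evalEval_X]
  have hrel' : ∑ a : Fin (m + 1), Ψ X ^ (a : ℕ) * c a = 0 := by
    have h1 : ∑ a : Fin (m + 1), Ψ X ^ (a : ℕ) * c a =
        ((fun i => ∑ a : Fin (m + 1), (algebraMap L M (ρ i)) ^ (a : ℕ) * ev F' V (κ i) (Γ a) :
          ℕ → M) : Germ (hyperfilter ℕ : Filter ℕ) M) := by
      rw [hX]
      have h2 : ((fun i => ∑ a : Fin (m + 1), (algebraMap L M (ρ i)) ^ (a : ℕ) *
          ev F' V (κ i) (Γ a) : ℕ → M)) =
          ∑ a : Fin (m + 1), (fun i => algebraMap L M (ρ i)) ^ (a : ℕ) *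
            (fun i => ev F' V (κ i) (Γ a)) := by
        funext i
        simp [Finset.sum_apply]
      rw [h2]
      change _ = Germ.coeRingHom (hyperfilter ℕ : Filter ℕ) _
      rw [map_sum]
      refine Finset.sum_congr rfl fun a _ => ?_
      rw [map_mul, map_pow]
      rfl
    rw [h1]
    have h3 : (0 : Germ (hyperfilter ℕ : Filter ℕ) M) =
      ((fun _ => 0 : ℕ → M) : Germ (hyperfilter ℕ : Filter ℕ) M) := rfl
    rw [h3, Germ.coe_eq]
    exact Nat.hyperfilter_le_atTop hrel
  obtain ⟨H, hH, hdeg, hker⟩ := ker_principal Ψ hinj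
    (exists_ker_of_algebraic Ψ m c hc0 (fun a => halg (Γ a)) hrel')
  refine ⟨H, hH, hdeg, fun G => ?_⟩
  rw [← hker G, hΨ, seqEval_eq_zero]

end StepB

end Pool.Agent.MP3c0690
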