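import Mathlib
import Pool.Agent.Lib.MP_3c0690_nt.Biv

namespace Pool.Agent.MP3c0690

open Finset Polynomial Filter

set_option linter.unusedSectionVars false

section Ineq

variable {F : Type*} [Field F]
variable {L : Type*} [Field L] [Algebra (Polynomial F) L] [IsFractionRing (Polynomial F) L]
variable {𝕂 : Type*} [Field 𝕂] [Algebra L 𝕂] (v : AddValuation 𝕂 (WithTop ℤ))

theorem stepC1 (hv : ∀ P : Polynomial F, P ≠ 0 →
      v (algebraMap L 𝕂 (algebraMap (Polynomial F) L P)) =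
        ((-(P.natDegree : ℤ) : ℤ) : WithTop ℤ))
    (𝒰 : Filter ℕ) (q : ℕ → ℕ) (P Q : ℕ → Polynomial F)
    (hcop : ∀ i, IsCoprime (P i) (Q i)) (hQ : ∀ i, Q i ≠ 0) (c : ℤ)
    (hρ : ∀ᶠ i in 𝒰, (c : WithTop ℤ) ≤ v (algebraMap L 𝕂
      (algebraMap (Polynomial F) L (P i) / algebraMap (Polynomial F) L (Q i))))
    (H : Polynomial (Polynomial L)) (n' : ℕ) (hn : H.natDegree ≠ 0)
    (hn' : ∀ j, (H.coeff j).natDegree ≤ n')
    (hH : ∀ᶠ i in 𝒰, H.evalEval (algebraMap (Polynomial F) L X ^ (q i))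
      (algebraMap (Polynomial F) L (P i) / algebraMap (Polynomial F) L (Q i)) = 0)
    (hmin : ∀ G : Polynomial (Polynomial L), G ≠ 0 → G.degree < (H.natDegree : WithBot ℕ) →
      ∀ᶠ i in 𝒰, G.evalEval (algebraMap (Polynomial F) L X ^ (q i))
        (algebraMap (Polynomial F) L (P i) / algebraMap (Polynomial F) L (Q i)) ≠ 0) (K : ℕ) :
    ∃ C : ℤ, ∀ᶠ i in 𝒰, ((H.natDegree : ℤ) * K - H.natDegree + 1) * (Q i).natDegree ≤
      (n' : ℤ) * K * q i + C := by
  set n := H.natDegree with hndef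
  have hH0 : H ≠ 0 := by
    rintro rfl
    exact hn (by rw [hndef, natDegree_zero])
  obtain ⟨G, R, hG0, hGdeg, hGc, hGdeg'⟩ := exists_reduction H hH0 n' (n' * K) (n * K) hn' (by
    have : 0 < n := Nat.pos_of_ne_zero hn
    rw [← hndef]
    nlinarith)
  rw [← hndef] at hGdeg hGdeg'
  have hnat : ∀ G : Polynomial (Polynomial L), G.degree < (n : WithBot ℕ) →
      G.natDegree ≤ n - 1 := by
    intro G hG
    rcases eq_or_ne G 0 with rfl | hG0
    · simp
    · rw [degree_eq_natDegree hG0, Nat.cast_lt] at hG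
      omega
  obtain ⟨r1, hr1, hden1⟩ := evalEval_denom (F := F) G (n - 1) (hnat G hGdeg)
  obtain ⟨r2, hr2, hden2⟩ := evalEval_denom (F := F) (X ^ (n * K) * G - R * H) (n - 1)
    (hnat _ hGdeg')
  obtain ⟨C1, hC1⟩ := evalEval_lower v hv G (n' * K) hGc c
  refine ⟨r1.natDegree + r2.natDegree - C1, ?_⟩
  filter_upwards [hρ, hH, hmin G hG0 hGdeg] with i hi1 hi2 hi3
  set ρ : L := algebraMap (Polynomial F) L (P i) / algebraMap (Polynomial F) L (Q i) with hρdef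
  set τ : L := algebraMap (Polynomial F) L X ^ (q i) with hτ
  obtain ⟨g1, hg1⟩ := hden1 (q i) (P i) (Q i) (hQ i)
  obtain ⟨g2, hg2⟩ := hden2 (q i) (P i) (Q i) (hQ i)
  rw [← hρdef, ← hτ] at hg1 hg2
  have hQL : algebraMap (Polynomial F) L (Q i) ≠ 0 := by
    rw [Ne, IsFractionRing.to_map_eq_zero_iff]
    exact hQ i
  have hr1L : algebraMap (Polynomial F) L r1 ≠ 0 := by
    rwa [Ne, IsFractionRing.to_map_eq_zero_iff]
  have hrel : (X ^ (n * K) * G - R * H).evalEval τ ρ = ρ ^ (n * K) * G.evalEval τ ρ := by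
    rw [evalEval_sub, evalEval_mul, evalEval_mul, evalEval_pow, evalEval_X, hi2, mul_zero, sub_zero]
  have hPQ : algebraMap (Polynomial F) L (P i) = algebraMap (Polynomial F) L (Q i) * ρ := by
    rw [hρdef, mul_div_cancel₀ _ hQL]
  have hmain : (P i) ^ (n * K) * (r2 * g1) = (Q i) ^ (n * K) * (r1 * g2) := by
    apply IsFractionRing.injective (Polynomial F) L
    rw [map_mul, map_mul, map_mul, map_mul, hg1, hg2, hrel, map_pow, map_pow, hPQ, map_mul, map_mul,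
      mul_pow]
    ring
  have hdvd : (Q i) ^ (n * K) ∣ r2 * g1 := by
    have h1 : (Q i) ^ (n * K) ∣ (P i) ^ (n * K) * (r2 * g1) := ⟨_, hmain⟩
    exact ((hcop i).symm.pow).dvd_of_dvd_mul_left h1
  have hg10 : g1 ≠ 0 := by
    rintro rfl
    rw [map_zero, map_mul, map_pow] at hg1
    have := mul_ne_zero (mul_ne_zero hr1L (pow_ne_zero (n - 1) hQL)) hi3
    exact this hg1.symm
  have hdeg := natDegree_le_of_dvd hdvd (mul_ne_zero hr2 hg10)
  rw [natDegree_pow, natDegree_mul hr2 hg10] at hdeg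
  -- valuation of `g1`
  have hval : v (algebraMap L 𝕂 (algebraMap (Polynomial F) L g1)) =
      v (algebraMap L 𝕂 (algebraMap (Polynomial F) L (r1 * (Q i) ^ (n - 1)))) +
        v (algebraMap L 𝕂 (G.evalEval τ ρ)) := by
    rw [hg1, map_mul (algebraMap L 𝕂), AddValuation.map_mul]
  rw [hv g1 hg10, hv _ (mul_ne_zero hr1 (pow_ne_zero _ (hQ i)))] at hval
  have hlow := hC1 (q i) ρ hi1
  have h3 : ((-((r1 * (Q i) ^ (n - 1)).natDegree : ℤ) + (-((n' * K : ℕ) : ℤ) * q i + C1) : ℤ) :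
      WithTop ℤ) ≤ ((-(g1.natDegree : ℤ) : ℤ) : WithTop ℤ) := by
    rw [hval, WithTop.coe_add]
    exact add_le_add le_rfl hlow
  rw [WithTop.coe_le_coe, natDegree_mul hr1 (pow_ne_zero _ (hQ i)), natDegree_pow] at h3
  have h4 : ((n * K * (Q i).natDegree : ℕ) : ℤ) ≤ ((r2.natDegree + g1.natDegree : ℕ) : ℤ) := by
    exact_mod_cast hdeg
  have h5 : ((n - 1 : ℕ) : ℤ) = (n : ℤ) - 1 := by
    have : 0 < n := Nat.pos_of_ne_zero hn
    omega
  push_cast at h3 h4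
  rw [h5] at h3
  nlinarith

theorem stepC2 (hv : ∀ P : Polynomial F, P ≠ 0 →
      v (algebraMap L 𝕂 (algebraMap (Polynomial F) L P)) =
        ((-(P.natDegree : ℤ) : ℤ) : WithTop ℤ))
    (𝒰 : Filter ℕ) (q : ℕ → ℕ) (P Q : ℕ → Polynomial F) (hQ : ∀ i, Q i ≠ 0) (c : ℤ)
    (hρ : ∀ᶠ i in 𝒰, (c : WithTop ℤ) ≤ v (algebraMap L 𝕂
      (algebraMap (Polynomial F) L (P i) / algebraMap (Polynomial F) L (Q i))))
    (H : Polynomial (Polynomial L)) (hn' : (Bivariate.swap H).natDegree ≠ 0)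
    (hH : ∀ᶠ i in 𝒰, H.evalEval (algebraMap (Polynomial F) L X ^ (q i))
      (algebraMap (Polynomial F) L (P i) / algebraMap (Polynomial F) L (Q i)) = 0)
    (hmin : ∀ G : Polynomial (Polynomial L), G ≠ 0 →
      G.degree < ((Bivariate.swap H).natDegree : WithBot ℕ) →
      ∀ᶠ i in 𝒰, (Bivariate.swap G).evalEval (algebraMap (Polynomial F) L X ^ (q i))
        (algebraMap (Polynomial F) L (P i) / algebraMap (Polynomial F) L (Q i)) ≠ 0) (K : ℕ) :
    ∃ C : ℤ, ∀ᶠ i in 𝒰, (((Bivariate.swap H).natDegree : ℤ) * K -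
      (Bivariate.swap H).natDegree + 1) * q i ≤ (H.natDegree : ℤ) * K * (Q i).natDegree + C := by
  set n := H.natDegree with hndef
  set n' := (Bivariate.swap H).natDegree with hn'def
  have hH0 : Bivariate.swap H ≠ 0 := by
    intro h
    rw [hn'def, h] at hn'
    simp at hn'
  obtain ⟨G, R, hG0, hGdeg, hGc, hGdeg'⟩ := exists_reduction (Bivariate.swap H) hH0 n (n * K)
    (n' * K) (natDegree_coeff_swap_le H) (by
    have : 0 < n' := Nat.pos_of_ne_zero hn'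
    rw [← hn'def]
    nlinarith)
  rw [← hn'def] at hGdeg hGdeg'
  have hnat : ∀ G : Polynomial (Polynomial L), G.degree < (n' : WithBot ℕ) →
      G.natDegree ≤ n' - 1 := by
    intro G hG
    rcases eq_or_ne G 0 with rfl | hG0
    · simp
    · rw [degree_eq_natDegree hG0, Nat.cast_lt] at hG
      omega
  have hGn : (Bivariate.swap G).natDegree ≤ n * K := by
    rw [natDegree_le_iff_coeff_eq_zero]
    intro j hj
    refine Polynomial.ext fun i => ?_
    rw [swap_coeff, coeff_zero]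
    exact coeff_eq_zero_of_natDegree_lt (lt_of_le_of_lt (hGc i) hj)
  obtain ⟨r, hr, hden⟩ := evalEval_denom (F := F) (Bivariate.swap G) (n * K) hGn
  set G' := X ^ (n' * K) * G - R * Bivariate.swap H with hG'
  obtain ⟨C1, hC1⟩ := evalEval_lower v hv (Bivariate.swap G') (n' - 1)
    (fun j => (natDegree_coeff_swap_le G' j).trans (hnat _ hGdeg')) c
  refine ⟨r.natDegree - C1, ?_⟩
  filter_upwards [hρ, hH, hmin G hG0 hGdeg] with i hi1 hi2 hi3
  set ρ : L := algebraMap (Polynomial F) L (P i) / algebraMap (Polynomial F) L (Q i) with hρdef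
  set τ : L := algebraMap (Polynomial F) L X ^ (q i) with hτ
  obtain ⟨g, hg⟩ := hden (q i) (P i) (Q i) (hQ i)
  rw [← hρdef, ← hτ] at hg
  have hQL : algebraMap (Polynomial F) L (Q i) ≠ 0 := by
    rw [Ne, IsFractionRing.to_map_eq_zero_iff]
    exact hQ i
  have hrL : algebraMap (Polynomial F) L r ≠ 0 := by
    rwa [Ne, IsFractionRing.to_map_eq_zero_iff]
  have hrel : (Bivariate.swap G').evalEval τ ρ = τ ^ (n' * K) * (Bivariate.swap G).evalEval τ ρ := by
    rw [hG', map_sub, map_mul, map_mul, map_pow, Bivariate.swap_Y, Bivariate.swap_swap_apply,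
      evalEval_sub, evalEval_mul, evalEval_mul, hi2, mul_zero, sub_zero, ← map_pow, evalEval_C,
      eval_pow, eval_X]
  have hg0 : g ≠ 0 := by
    rintro rfl
    rw [map_zero, map_mul, map_pow] at hg
    have := mul_ne_zero (mul_ne_zero hrL (pow_ne_zero (n * K) hQL)) hi3
    exact this hg.symm
  have hval : v (algebraMap L 𝕂 (algebraMap (Polynomial F) L g)) =
      v (algebraMap L 𝕂 (algebraMap (Polynomial F) L (r * (Q i) ^ (n * K)))) +
        v (algebraMap L 𝕂 ((Bivariate.swap G).evalEval τ ρ)) := by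
    rw [hg, map_mul (algebraMap L 𝕂), AddValuation.map_mul]
  rw [hv g hg0, hv _ (mul_ne_zero hr (pow_ne_zero _ (hQ i)))] at hval
  have hlow := hC1 (q i) ρ hi1
  rw [← hτ, hrel, map_mul (algebraMap L 𝕂), AddValuation.map_mul] at hlow
  have hτv : v (algebraMap L 𝕂 (τ ^ (n' * K))) = ((-((n' * K : ℕ) * q i : ℤ) : ℤ) : WithTop ℤ) := by
    have h1 : τ ^ (n' * K) = algebraMap (Polynomial F) L (X ^ (q i * (n' * K))) := by
      rw [hτ, ← pow_mul, map_pow]
    rw [h1, hv _ (pow_ne_zero _ X_ne_zero), natDegree_X_pow]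
    congr 1
    push_cast
    ring
  rw [hτv] at hlow
  -- make everything integral
  have hne : v (algebraMap L 𝕂 ((Bivariate.swap G).evalEval τ ρ)) ≠ ⊤ := by
    rw [AddValuation.ne_top_iff]
    exact (map_ne_zero (algebraMap L 𝕂)).2 hi3
  obtain ⟨w, hw⟩ := WithTop.ne_top_iff_exists.1 hne
  rw [← hw, ← WithTop.coe_add, WithTop.coe_le_coe] at hlow
  rw [← hw, ← WithTop.coe_add, WithTop.coe_inj, natDegree_mul hr (pow_ne_zero _ (hQ i)),
    natDegree_pow] at hval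
  have h5 : ((n' - 1 : ℕ) : ℤ) = (n' : ℤ) - 1 := by
    have : 0 < n' := Nat.pos_of_ne_zero hn'
    omega
  have h6 : (0 : ℤ) ≤ (g.natDegree : ℤ) := Int.natCast_nonneg _
  push_cast at hlow hval
  rw [h5] at hlow
  nlinarith

end Ineq

section Limits

theorem lim_ineq {𝒰 : Filter ℕ} [𝒰.NeBot] {q h : ℕ → ℝ} (hq : Tendsto q 𝒰 atTop) {η : ℝ}
    (hη : Tendsto (fun i => h i / q i) 𝒰 (nhds η)) (a b C : ℝ)
    (hab : ∀ᶠ i in 𝒰, a * h i ≤ b * q i + C) : a * η ≤ b := by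
  have h1 : Tendsto (fun i => a * (h i / q i)) 𝒰 (nhds (a * η)) := hη.const_mul a
  have h2 : Tendsto (fun i => b + C / q i) 𝒰 (nhds (b + 0)) :=
    tendsto_const_nhds.add (tendsto_const_nhds.div_atTop hq)
  rw [add_zero] at h2
  refine le_of_tendsto_of_tendsto h1 h2 ?_
  filter_upwards [hab, hq.eventually_gt_atTop 0] with i hi1 hi2
  have : b + C / q i = (b * q i + C) / q i := by
    field_simp
  rw [this, ← mul_div_assoc]
  exact div_le_div_of_nonneg_right hi1 hi2.le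

theorem lim_ineq' {𝒰 : Filter ℕ} [𝒰.NeBot] {q h : ℕ → ℝ} (hq : Tendsto q 𝒰 atTop) {η : ℝ}
    (hη : Tendsto (fun i => h i / q i) 𝒰 (nhds η)) (a b C : ℝ)
    (hab : ∀ᶠ i in 𝒰, a * q i ≤ b * h i + C) : a ≤ b * η := by
  have h1 := lim_ineq hq hη (-b) (-a) C (by
    filter_upwards [hab] with i hi
    linarith)
  linarith

theorem arch_le {a b c : ℝ} (h : ∀ K : ℕ, (K : ℝ) * a ≤ K * b + c) : a ≤ b := by
  by_contra hcon
  push Not at hcon
  obtain ⟨K, hK⟩ := exists_nat_gt (c / (a - b))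
  have h1 : 0 < a - b := sub_pos.2 hcon
  rw [div_lt_iff₀ h1] at hK
  have := h K
  nlinarith

end Limits

section Irr

variable {F : Type*} [Field F]
variable {L : Type*} [Field L] [Algebra (Polynomial F) L] [IsFractionRing (Polynomial F) L]
variable {𝕂 : Type*} [Field 𝕂] [Algebra L 𝕂] (v : AddValuation 𝕂 (WithTop ℤ))

/-- If `H (T ^ q, ρ) = 0` along a sequence with `v (ρ - ξ) / q → κ` then `κ` is rational. -/
theorem stepD (hv : ∀ P : Polynomial F, P ≠ 0 →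
      v (algebraMap L 𝕂 (algebraMap (Polynomial F) L P)) =
        ((-(P.natDegree : ℤ) : ℤ) : WithTop ℤ))
    (𝒰 : Filter ℕ) [𝒰.NeBot] (q : ℕ → ℕ) (hq : Tendsto (fun i => (q i : ℝ)) 𝒰 atTop)
    (ρ : ℕ → L) (ξ : 𝕂) (t : ℕ → ℤ)
    (ht : ∀ i, v (algebraMap L 𝕂 (ρ i) - ξ) = (t i : WithTop ℤ)) (κ : ℝ)
    (hκ : Tendsto (fun i => (t i : ℝ) / q i) 𝒰 (nhds κ))
    (H : Polynomial (Polynomial L)) (hH0 : H ≠ 0)
    (hH : ∀ᶠ i in 𝒰, H.evalEval (algebraMap (Polynomial F) L X ^ (q i)) (ρ i) = 0) :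
    ∃ r : ℚ, κ = r := by
  classical
  by_contra hcon
  push Not at hcon
  -- the shifted polynomial
  set H' : Polynomial (Polynomial 𝕂) :=
    (H.map (mapRingHom (algebraMap L 𝕂))).comp (X + C (C ξ)) with hH'
  have hH'0 : H' ≠ 0 := by
    rw [hH']
    intro h
    have h1 : (H.map (mapRingHom (algebraMap L 𝕂))) ≠ 0 := by
      rw [Ne, Polynomial.map_eq_zero_iff]
      · exact hH0
      · exact map_injective _ (algebraMap L 𝕂).injective
    have h2 : ((H.map (mapRingHom (algebraMap L 𝕂))).comp (X + C (C ξ))).comp (X - C (C ξ)) = 0 := by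
      rw [h, zero_comp]
    rw [comp_assoc] at h2
    simp at h2
    exact h1 h2
  have hH'ev : ∀ i, H'.evalEval ((algebraMap L 𝕂 (algebraMap (Polynomial F) L X)) ^ (q i))
      (algebraMap L 𝕂 (ρ i) - ξ) = algebraMap L 𝕂
        (H.evalEval (algebraMap (Polynomial F) L X ^ (q i)) (ρ i)) := by
    intro i
    rw [hH', evalEval, eval_comp, eval_add, eval_X, eval_C, ← C_add, sub_add_cancel]
    have := map_mapRingHom_evalEval (algebraMap L 𝕂) (p := H)
      (algebraMap (Polynomial F) L X ^ (q i)) (ρ i)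
    rw [evalEval, map_pow] at this
    exact this
  -- support
  set n := H'.natDegree with hn
  set A := (Bivariate.swap H').natDegree with hA
  set S : Finset (Fin (n + 1) × Fin (A + 1)) :=
    Finset.univ.filter fun s => (H'.coeff s.1).coeff s.2 ≠ 0 with hS
  have hSne : S.Nonempty := by
    by_contra hempty
    rw [Finset.not_nonempty_iff_eq_empty] at hempty
    apply hH'0
    refine Polynomial.ext fun j => Polynomial.ext fun a => ?_
    simp only [coeff_zero]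
    by_cases hj : j ≤ n
    · by_cases ha : a ≤ A
      · by_contra hne
        have : ((⟨j, by omega⟩, ⟨a, by omega⟩) : Fin (n + 1) × Fin (A + 1)) ∈ S := by
          rw [hS, Finset.mem_filter]
          exact ⟨Finset.mem_univ _, hne⟩
        rw [hempty] at this
        exact Finset.notMem_empty _ this
      · exact coeff_eq_zero_of_natDegree_lt
          (lt_of_le_of_lt (swap_natDegree_coeff_le H' j) (not_le.1 ha))
    · rw [coeff_eq_zero_of_natDegree_lt (not_le.1 hj), coeff_zero]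
  obtain ⟨s0, hs0, hmin⟩ := Finset.exists_min_image S
    (fun s => -((s.2 : ℕ) : ℝ) + ((s.1 : ℕ) : ℝ) * κ) hSne
  have hs0' : (H'.coeff s0.1).coeff s0.2 ≠ 0 := (Finset.mem_filter.1 hs0).2
  have hval : ∀ s ∈ S, ∃ w : ℤ, v ((H'.coeff s.1).coeff s.2) = w := by
    intro s hs
    have : v ((H'.coeff s.1).coeff s.2) ≠ ⊤ := by
      rw [AddValuation.ne_top_iff]
      exact (Finset.mem_filter.1 hs).2
    obtain ⟨w, hw⟩ := WithTop.ne_top_iff_exists.1 this
    exact ⟨w, hw.symm⟩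
  choose! w hw using hval
  -- valuation of the terms
  have hterm : ∀ i, ∀ s ∈ S, v ((H'.coeff s.1).coeff s.2 *
      ((algebraMap L 𝕂 (algebraMap (Polynomial F) L X)) ^ (q i)) ^ (s.2 : ℕ) *
      (algebraMap L 𝕂 (ρ i) - ξ) ^ (s.1 : ℕ)) =
        ((w s - (s.2 : ℕ) * q i + (s.1 : ℕ) * t i : ℤ) : WithTop ℤ) := by
    intro i s hs
    rw [AddValuation.map_mul, AddValuation.map_mul, AddValuation.map_pow, AddValuation.map_pow,
      AddValuation.map_pow, ht, hw s hs, hv X X_ne_zero, natDegree_X]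
    rw [← WithTop.coe_nsmul, ← WithTop.coe_nsmul, ← WithTop.coe_nsmul, ← WithTop.coe_add,
      ← WithTop.coe_add]
    congr 1
    simp
    ring
  have hlt : ∀ s ∈ S.erase s0, ∀ᶠ i in 𝒰,
      (w s0 - (s0.2 : ℕ) * q i + (s0.1 : ℕ) * t i : ℤ) <
        (w s - (s.2 : ℕ) * q i + (s.1 : ℕ) * t i : ℤ) := by
    intro s hs
    rw [Finset.mem_erase] at hs
    have h1 : -((s0.2 : ℕ) : ℝ) + ((s0.1 : ℕ) : ℝ) * κ < -((s.2 : ℕ) : ℝ) + ((s.1 : ℕ) : ℝ) * κ := by
      refine lt_of_le_of_ne (hmin s hs.2) ?_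
      intro heq
      apply hs.1
      have h2 : (((s0.1 : ℕ) : ℝ) - ((s.1 : ℕ) : ℝ)) * κ = ((s0.2 : ℕ) : ℝ) - ((s.2 : ℕ) : ℝ) := by
        linarith
      have h3 : (s0.1 : ℕ) = (s.1 : ℕ) := by
        by_contra hne
        have h4 : ((s0.1 : ℕ) : ℝ) - ((s.1 : ℕ) : ℝ) ≠ 0 := by
          rw [sub_ne_zero]
          exact_mod_cast hne
        apply hcon ((((s0.2 : ℕ) : ℚ) - ((s.2 : ℕ) : ℚ)) / (((s0.1 : ℕ) : ℚ) - ((s.1 : ℕ) : ℚ)))
        push_cast
        rw [eq_div_iff h4, mul_comm]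
        exact h2
      have h5 : (s0.2 : ℕ) = (s.2 : ℕ) := by
        rw [h3, sub_self, zero_mul] at h2
        have : ((s0.2 : ℕ) : ℝ) = ((s.2 : ℕ) : ℝ) := by linarith
        exact_mod_cast this
      exact Prod.ext (Fin.ext h3.symm) (Fin.ext h5.symm)
    set δ := (-((s.2 : ℕ) : ℝ) + ((s.1 : ℕ) : ℝ) * κ) - (-((s0.2 : ℕ) : ℝ) + ((s0.1 : ℕ) : ℝ) * κ)
      with hδ
    have hδ0 : 0 < δ := by rw [hδ]; linarith
    have hlim : Tendsto (fun i => ((w s : ℝ) - w s0) / q i + (((s0.2 : ℕ) : ℝ) - ((s.2 : ℕ) : ℝ)) +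
        (((s.1 : ℕ) : ℝ) - ((s0.1 : ℕ) : ℝ)) * ((t i : ℝ) / q i)) 𝒰
        (nhds (0 + (((s0.2 : ℕ) : ℝ) - ((s.2 : ℕ) : ℝ)) +
          (((s.1 : ℕ) : ℝ) - ((s0.1 : ℕ) : ℝ)) * κ)) :=
      ((tendsto_const_nhds.div_atTop hq).add tendsto_const_nhds).add (hκ.const_mul _)
    have hlim' : 0 < 0 + (((s0.2 : ℕ) : ℝ) - ((s.2 : ℕ) : ℝ)) +
          (((s.1 : ℕ) : ℝ) - ((s0.1 : ℕ) : ℝ)) * κ := by
      have : 0 + (((s0.2 : ℕ) : ℝ) - ((s.2 : ℕ) : ℝ)) +
          (((s.1 : ℕ) : ℝ) - ((s0.1 : ℕ) : ℝ)) * κ = δ := by rw [hδ]; ring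
      rw [this]
      exact hδ0
    filter_upwards [hlim.eventually (lt_mem_nhds hlim'), hq.eventually_gt_atTop 0] with i hi1 hi2
    have h6 : 0 < ((w s : ℝ) - w s0) + (((s0.2 : ℕ) : ℝ) - ((s.2 : ℕ) : ℝ)) * q i +
        (((s.1 : ℕ) : ℝ) - ((s0.1 : ℕ) : ℝ)) * t i := by
      have h7 := mul_pos hi1 hi2
      have h8 : (((w s : ℝ) - w s0) / q i + (((s0.2 : ℕ) : ℝ) - ((s.2 : ℕ) : ℝ)) +
        (((s.1 : ℕ) : ℝ) - ((s0.1 : ℕ) : ℝ)) * ((t i : ℝ) / q i)) * q i =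
        ((w s : ℝ) - w s0) + (((s0.2 : ℕ) : ℝ) - ((s.2 : ℕ) : ℝ)) * q i +
        (((s.1 : ℕ) : ℝ) - ((s0.1 : ℕ) : ℝ)) * t i := by
        field_simp
      rwa [h8] at h7
    have h9 : (((w s0 - (s0.2 : ℕ) * q i + (s0.1 : ℕ) * t i : ℤ)) : ℝ) <
        (((w s - (s.2 : ℕ) * q i + (s.1 : ℕ) * t i : ℤ)) : ℝ) := by
      push_cast
      linarith
    exact_mod_cast h9
  have hall : ∀ᶠ i in 𝒰, ∀ s ∈ S.erase s0,
      (w s0 - (s0.2 : ℕ) * q i + (s0.1 : ℕ) * t i : ℤ) <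
        (w s - (s.2 : ℕ) * q i + (s.1 : ℕ) * t i : ℤ) := by
    rw [Filter.eventually_all_finset]
    exact hlt
  obtain ⟨i, hi1, hi2⟩ := (hall.and hH).exists
  have hsum := hH'ev i
  rw [hi2, map_zero, evalEval_eq_sum _ _ H' n A le_rfl (swap_natDegree_coeff_le H')] at hsum
  rw [← Finset.sum_subset (Finset.subset_univ S)] at hsum
  · rw [← Finset.add_sum_erase _ _ hs0] at hsum
    have h1 := eq_neg_of_add_eq_zero_left hsum
    have h2 : v ((H'.coeff s0.1).coeff s0.2 *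
      ((algebraMap L 𝕂 (algebraMap (Polynomial F) L X)) ^ (q i)) ^ (s0.2 : ℕ) *
      (algebraMap L 𝕂 (ρ i) - ξ) ^ (s0.1 : ℕ)) < v (∑ s ∈ S.erase s0,
        (H'.coeff s.1).coeff s.2 *
      ((algebraMap L 𝕂 (algebraMap (Polynomial F) L X)) ^ (q i)) ^ (s.2 : ℕ) *
      (algebraMap L 𝕂 (ρ i) - ξ) ^ (s.1 : ℕ)) := by
      apply AddValuation.map_lt_sum
      · rw [hterm i s0 hs0]
        exact WithTop.coe_ne_top
      · intro s hs
        rw [hterm i s0 hs0, hterm i s (Finset.mem_of_mem_erase hs)]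
        exact_mod_cast hi1 s hs
    rw [h1, AddValuation.map_neg] at h2
    exact lt_irrefl _ h2
  · intro s _ hs
    have : (H'.coeff s.1).coeff s.2 = 0 := by
      by_contra hne
      exact hs (Finset.mem_filter.2 ⟨Finset.mem_univ _, hne⟩)
    rw [this, zero_mul, zero_mul]

end Irr

end Pool.Agent.MP3c0690
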