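import Mathlib
import Pool.Agent.Lib.MP_3c0690_nt.StepA
import Pool.Agent.Lib.MP_3c0690_nt.StepB
import Pool.Agent.Lib.MP_3c0690_nt.StepC
import Pool.Agent.Lib.MP_3c0690_nt.Count
import Pool.Agent.Lib.MP_3c0690_nt.Fields

namespace Pool.Agent.MP3c0690

open Finset Polynomial TensorProduct Filter IntermediateField

set_option linter.unusedSectionVars false

section StepA'

variable {F : Type*} [Field F] [Finite F]
variable {L : Type*} [Field L] [Algebra F L] [Algebra (Polynomial F) L]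
  [IsScalarTower F (Polynomial F) L] [IsFractionRing (Polynomial F) L]
variable {M : Type*} [Field M] [Algebra L M] [FiniteDimensional L M] [IsGalois L M]
  [Algebra F M] [IsScalarTower F L M]
  [Algebra (Polynomial F) M] [IsScalarTower (Polynomial F) L M]
variable (F' : Type*) [Field F'] [Finite F'] [Algebra F F'] [Algebra F' M] [IsScalarTower F F' M]
variable {𝕂 : Type*} [Field 𝕂] [Algebra L 𝕂] (v : AddValuation 𝕂 (WithTop ℤ))

/-- Step A for an element `ξ` of `𝕂` whose minimal polynomial has a root in the Galois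
extension `M`. -/
theorem stepA' (hv : ∀ P : Polynomial F, P ≠ 0 →
      v (algebraMap L 𝕂 (algebraMap (Polynomial F) L P)) =
        ((-(P.natDegree : ℤ) : ℤ) : WithTop ℤ))
    (hcoef : ∀ a : ℤ, ∃ c : 𝕂 →+ F, ∀ x, (a : WithTop ℤ) ≤ v x → c x = 0 →
      ((a + 1 : ℤ) : WithTop ℤ) ≤ v x)
    (ξ : 𝕂) (ξM : M) (hξM : minpoly L ξM = minpoly L ξ) :
    ∃ (V : ℕ → Submodule F' M), (∀ e, FiniteDimensional F' (V e)) ∧
    ∃ C : ℕ, ∀ (s : ℝ), 0 < s → ∀ m e M' : ℕ,
      (∑ c ∈ range (m + 1), ((M' : ℤ) + e + C - ⌊(c : ℝ) * s⌋).toNat < (m + 1) * (e + 1)) →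
      ∃ Γ : Fin (m + 1) → M ⊗[F'] (V e), Γ ≠ 0 ∧
        ∃ B : ℤ, ∀ (k : ℕ) (P Q : Polynomial F), Q ≠ 0 → ∀ t : ℤ,
          (t : WithTop ℤ) ≤ v (algebraMap L 𝕂
            (algebraMap (Polynomial F) L P / algebraMap (Polynomial F) L Q) - ξ) →
          s * (Nat.card F' ^ k : ℕ) ≤ t →
          B < (Nat.card F' ^ k : ℕ) * (M' : ℤ) - m * Q.natDegree →
          ∑ a : Fin (m + 1), (algebraMap L M
            (algebraMap (Polynomial F) L P / algebraMap (Polynomial F) L Q)) ^ (a : ℕ) *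
              ev F' (V e) k (Γ a) = 0 := by
  classical
  have hint : IsIntegral L ξM := Algebra.IsIntegral.isIntegral ξM
  have hξint : IsIntegral L ξ := by
    by_contra h
    have h1 := minpoly.eq_zero h
    rw [← hξM] at h1
    exact minpoly.ne_zero hint h1
  -- the embedding of `L(ξM)`
  have hroot : ξ ∈ (minpoly L ξM).aroots 𝕂 := by
    rw [mem_aroots]
    exact ⟨minpoly.ne_zero hint, by rw [hξM, minpoly.aeval]⟩
  let θ : L⟮ξM⟯ →ₐ[L] 𝕂 := (algHomAdjoinIntegralEquiv L hint).symm ⟨ξ, hroot⟩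
  have hθ : θ (AdjoinSimple.gen L ξM) = ξ := algHomAdjoinIntegralEquiv_symm_apply_gen L hint _
  let μ := Module.finBasis L⟮ξM⟯ M
  obtain ⟨S, b, hb⟩ := FiniteDimensional.exists_is_basis_integral (Polynomial F) L M
  -- the roots
  let Λ := (minpoly L ξM).rootSet M
  have hΛroot : ∀ α : M, α ∈ (minpoly L ξM).rootSet M ↔ aeval α (minpoly L ξM) = 0 := by
    intro α
    rw [mem_rootSet]
    exact ⟨fun h => h.2, fun h => ⟨minpoly.ne_zero hint, h⟩⟩
  have hσ : ∀ j : Λ, ∃ σ : M ≃ₐ[L] M, σ (j : M) = ξM := by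
    intro j
    have h1 : IsConjRoot L ξM (j : M) := isConjRoot_of_aeval_eq_zero hint ((hΛroot _).1 j.2)
    exact isConjRoot_iff_exists_algEquiv.1 h1
  choose σ hσ using hσ
  have hall : ∀ τ : M ≃ₐ[L] M, ∃ j : Λ, τ (j : M) = ξM := by
    intro τ
    refine ⟨⟨τ.symm ξM, ?_⟩, by simp⟩
    rw [hΛroot]
    have : aeval (τ.symm ξM) (minpoly L ξM) = τ.symm (aeval ξM (minpoly L ξM)) := by
      rw [← AlgEquiv.coe_toAlgHom, ← aeval_algHom_apply]
    rw [this, minpoly.aeval, map_zero]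
  have hfix : ∀ δ : M ≃ₐ[L] M, δ ξM = ξM → ∀ k : L⟮ξM⟯, δ (algebraMap L⟮ξM⟯ M k) =
      algebraMap L⟮ξM⟯ M k := by
    intro δ hδ k
    have hle : L⟮ξM⟯ ≤ IntermediateField.fixedField (Subgroup.zpowers δ) := by
      rw [adjoin_simple_le_iff, mem_fixedField_iff]
      intro f hf
      obtain ⟨n, rfl⟩ := Subgroup.mem_zpowers_iff.1 hf
      have h1 : δ ∈ MulAction.stabilizer (M ≃ₐ[L] M) ξM := hδ
      have h2 := Subgroup.zpow_mem _ h1 n
      exact h2
    have h3 := hle k.2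
    rw [mem_fixedField_iff] at h3
    exact h3 δ (Subgroup.mem_zpowers δ)
  have hcard : Fintype.card Λ * Nat.card (Fin (Module.finrank L⟮ξM⟯ M)) ≤ Fintype.card S := by
    rw [Nat.card_eq_fintype_card, Fintype.card_fin, ← Module.finrank_eq_card_basis b]
    have hsep : (minpoly L ξM).Separable := Algebra.IsSeparable.isSeparable L ξM
    have hsplit : Splits ((minpoly L ξM).map (algebraMap L M)) :=
      Normal.splits inferInstance ξM
    rw [card_rootSet_eq_natDegree hsep hsplit, ← adjoin.finrank hint,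
      Module.finrank_mul_finrank L L⟮ξM⟯ M]
  refine ⟨fun e => Vsp (F := F) F' b e, fun e => inferInstance, ?_⟩
  obtain ⟨C, hC⟩ := stepA (F := F) (L := L) (M := M) F' v (θ : L⟮ξM⟯ →+* 𝕂) μ
    (by
      intro P hP
      have : (θ : L⟮ξM⟯ →+* 𝕂) (algebraMap L L⟮ξM⟯ (algebraMap (Polynomial F) L P)) =
        algebraMap L 𝕂 (algebraMap (Polynomial F) L P) := θ.commutes _
      rw [this]
      exact hv P hP)
    hcoef b hb σ (fun j => (j : M)) hcard (AdjoinSimple.gen L ξM)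
    (by
      intro j
      rw [hσ j]
      exact (AdjoinSimple.algebraMap_gen L ξM).symm)
    (by
      intro τ
      obtain ⟨j, hj⟩ := hall τ
      exact ⟨j, hj.trans (AdjoinSimple.algebraMap_gen L ξM).symm⟩)
    (by
      intro δ hδ
      rw [AdjoinSimple.algebraMap_gen] at hδ
      exact hfix δ hδ)
  refine ⟨C, fun s hs m e M' hcount => ?_⟩
  obtain ⟨Γ, hΓ0, B, hB⟩ := hC s hs m e M' hcount
  refine ⟨Γ, hΓ0, B, fun k P Q hQ t ht hst hBt => hB k P Q hQ t ?_ hst hBt⟩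
  have h1 : (θ : L⟮ξM⟯ →+* 𝕂) (algebraMap L L⟮ξM⟯ (algebraMap (Polynomial F) L P /
      algebraMap (Polynomial F) L Q) - AdjoinSimple.gen L ξM) =
      algebraMap L 𝕂 (algebraMap (Polynomial F) L P / algebraMap (Polynomial F) L Q) - ξ := by
    rw [map_sub]
    congr 1
    exact θ.commutes _
  rw [h1]
  exact ht

end StepA'

end Pool.Agent.MP3c0690
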