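import Mathlib
import Pool.Agent.Lib.MP_3c0690_nt.Core

namespace Pool.Agent.MP3c0690

open Finset Polynomial TensorProduct Filter

set_option linter.unusedSectionVars false

section Main

variable {F : Type*} [Field F] [Finite F]
variable {L : Type*} [Field L] [Algebra F L] [Algebra (Polynomial F) L]
  [IsScalarTower F (Polynomial F) L] [IsFractionRing (Polynomial F) L]

theorem denom_le_of_eq {P Q a b : Polynomial F} (hcop : IsCoprime P Q) (hQ : Q ≠ 0) (hb : b ≠ 0)
    (h : algebraMap (Polynomial F) L P / algebraMap (Polynomial F) L Q =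
      algebraMap (Polynomial F) L a / algebraMap (Polynomial F) L b) :
    Q.natDegree ≤ b.natDegree := by
  have hQL : algebraMap (Polynomial F) L Q ≠ 0 := by
    rwa [Ne, IsFractionRing.to_map_eq_zero_iff]
  have hbL : algebraMap (Polynomial F) L b ≠ 0 := by
    rwa [Ne, IsFractionRing.to_map_eq_zero_iff]
  rw [div_eq_div_iff hQL hbL, ← map_mul, ← map_mul] at h
  have h1 := IsFractionRing.injective (Polynomial F) L h
  have h2 : Q ∣ P * b := ⟨a, by rw [h1, mul_comm]⟩
  exact natDegree_le_of_dvd (hcop.symm.dvd_of_dvd_mul_left h2) hb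

/-- A nonzero polynomial vanishes at only finitely many terms of a sequence of fractions with
denominators of degree tending to infinity. -/
theorem eventually_eval_ne (P Q : ℕ → Polynomial F) (hcop : ∀ i, IsCoprime (P i) (Q i))
    (hQ : ∀ i, Q i ≠ 0) (hh : Tendsto (fun i => (Q i).natDegree) atTop atTop)
    (f : Polynomial L) (hf : f ≠ 0) :
    ∀ᶠ i in atTop, f.eval (algebraMap (Polynomial F) L (P i) /
      algebraMap (Polynomial F) L (Q i)) ≠ 0 := by
  classical
  have h1 : ∀ z ∈ f.roots.toFinset, ∀ᶠ i in atTop,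
      algebraMap (Polynomial F) L (P i) / algebraMap (Polynomial F) L (Q i) ≠ z := by
    intro z _
    obtain ⟨a, b, hb, rfl⟩ := IsFractionRing.div_surjective (A := Polynomial F) z
    have hb0 : b ≠ 0 := nonZeroDivisors.ne_zero hb
    filter_upwards [hh.eventually_gt_atTop b.natDegree] with i hi heq
    exact absurd (denom_le_of_eq (hcop i) (hQ i) hb0 heq) (not_le.2 hi)
  rw [← Filter.eventually_all_finset] at h1
  filter_upwards [h1] with i hi heq
  exact hi _ (Multiset.mem_toFinset.2 ((mem_roots hf).2 heq)) rfl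

variable {M : Type*} [Field M] [Algebra L M] [FiniteDimensional L M] [IsGalois L M]
  [Algebra F M] [IsScalarTower F L M]
  [Algebra (Polynomial F) M] [IsScalarTower (Polynomial F) L M]
variable (F' : Type*) [Field F'] [Finite F'] [Algebra F F'] [Algebra F' M] [IsScalarTower F F' M]
variable {𝕂 : Type*} [Field 𝕂] [Algebra L 𝕂] (v : AddValuation 𝕂 (WithTop ℤ))

theorem core1 (hv : ∀ P : Polynomial F, P ≠ 0 →
      v (algebraMap L 𝕂 (algebraMap (Polynomial F) L P)) =
        ((-(P.natDegree : ℤ) : ℤ) : WithTop ℤ))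
    (hcoef : ∀ a : ℤ, ∃ c : 𝕂 →+ F, ∀ x, (a : WithTop ℤ) ≤ v x → c x = 0 →
      ((a + 1 : ℤ) : WithTop ℤ) ≤ v x)
    (hfin : ∀ (V : Submodule F' M), FiniteDimensional F' V → ∀ z : M ⊗[F'] V, z ≠ 0 →
      {k : ℕ | ev F' V k z = 0}.Finite)
    (ξ : 𝕂) (ξM : M) (hξM : minpoly L ξM = minpoly L ξ)
    (P Q : ℕ → Polynomial F) (hcop : ∀ i, IsCoprime (P i) (Q i)) (hQ : ∀ i, Q i ≠ 0)
    (hh : Tendsto (fun i => (Q i).natDegree) atTop atTop)
    (t : ℕ → ℤ) (ht : ∀ i, v (algebraMap L 𝕂
      (algebraMap (Polynomial F) L (P i) / algebraMap (Polynomial F) L (Q i)) - ξ) = t i)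
    (k : ℕ → ℕ) (hk : Tendsto k atTop atTop) (κ η : ℝ)
    (hκ : Tendsto (fun i => (t i : ℝ) / (Nat.card F' ^ k i : ℕ)) atTop (nhds κ))
    (hη : Tendsto (fun i => ((Q i).natDegree : ℝ) / (Nat.card F' ^ k i : ℕ)) atTop (nhds η))
    (hκ0 : 0 < κ) (hηκ : η < κ / 2) :
    (∃ r : ℚ, κ = r) ∧ (∃ r : ℚ, 0 < r ∧ η = r) := by
  classical
  set q : ℕ → ℕ := fun i => Nat.card F' ^ k i with hqdef
  have hqN : Tendsto q atTop atTop :=
    (tendsto_pow_atTop_atTop_of_one_lt Finite.one_lt_card).comp hk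
  have hq : Tendsto (fun i => (q i : ℝ)) atTop atTop := tendsto_natCast_atTop_atTop.comp hqN
  have hη0 : 0 ≤ η := by
    refine ge_of_tendsto hη (Eventually.of_forall fun i => ?_)
    positivity
  -- parameters
  set s : ℝ := (2 * η + κ) / 2 with hs
  have hs0 : 0 < s := by rw [hs]; linarith
  have hsκ : s < κ := by rw [hs]; linarith
  have hηs : η < s / 2 := by rw [hs]; linarith
  set η' : ℝ := (η + s / 2) / 2 with hη'
  have hη'1 : η < η' := by rw [hη']; linarith
  have hη'2 : η' < s / 2 := by rw [hη']; linarith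
  obtain ⟨V, hV, C, hC⟩ := stepA' F' v hv hcoef ξ ξM hξM
  obtain ⟨m, e, M', hcount, hM'⟩ := count_lemma C s η' hs0 (by linarith) hη'2
  obtain ⟨Γ, hΓ0, B, hB⟩ := hC s hs0 m e M' hcount
  -- the relation holds eventually
  have hrel : ∀ᶠ i in atTop, ∑ a : Fin (m + 1), (algebraMap L M
      (algebraMap (Polynomial F) L (P i) / algebraMap (Polynomial F) L (Q i))) ^ (a : ℕ) *
        ev F' (V e) (k i) (Γ a) = 0 := by
    have e1 : ∀ᶠ i in atTop, s < (t i : ℝ) / (q i) := hκ.eventually (lt_mem_nhds hsκ)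
    have e2 : ∀ᶠ i in atTop, ((Q i).natDegree : ℝ) / (q i) < η' :=
      hη.eventually (gt_mem_nhds hη'1)
    have e3 : ∀ᶠ i in atTop, (B : ℝ) / (M' - m * η') < q i := hq.eventually_gt_atTop _
    have e4 : ∀ᶠ i in atTop, (0 : ℝ) < q i := hq.eventually_gt_atTop _
    filter_upwards [e1, e2, e3, e4] with i h1 h2 h3 h4
    refine hB (k i) (P i) (Q i) (hQ i) (t i) (ht i).ge ?_ ?_
    · rw [lt_div_iff₀ h4] at h1
      exact h1.le
    · rw [div_lt_iff₀ h4] at h2
      rw [div_lt_iff₀ (by linarith)] at h3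
      have h5 : (B : ℝ) < (q i) * M' - m * (Q i).natDegree := by
        have h6 : (m : ℝ) * (Q i).natDegree ≤ m * (η' * q i) :=
          mul_le_mul_of_nonneg_left h2.le (by positivity)
        nlinarith
      exact_mod_cast h5
  obtain ⟨a0, ha0⟩ : ∃ a, Γ a ≠ 0 := by
    by_contra hcon
    push Not at hcon
    exact hΓ0 (funext hcon)
  obtain ⟨H, hHirr, hHdeg, hHker⟩ := stepB (F := F) (L := L) (M := M) F' hk
    (fun i => algebraMap (Polynomial F) L (P i) / algebraMap (Polynomial F) L (Q i)) (V e) Γ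
    ⟨a0, hfin (V e) (hV e) _ ha0⟩ hrel
  -- move to the ultrafilter
  have hUle : (hyperfilter ℕ : Filter ℕ) ≤ atTop := Nat.hyperfilter_le_atTop
  have hqU : Tendsto (fun i => (q i : ℝ)) (hyperfilter ℕ : Filter ℕ) atTop := hq.mono_left hUle
  have hκU : Tendsto (fun i => (t i : ℝ) / q i) (hyperfilter ℕ : Filter ℕ) (nhds κ) :=
    hκ.mono_left hUle
  have hηU : Tendsto (fun i => ((Q i).natDegree : ℝ) / q i) (hyperfilter ℕ : Filter ℕ) (nhds η) :=
    hη.mono_left hUle
  have hH0 : H ≠ 0 := hHirr.ne_zero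
  have hHev := (hHker H).2 dvd_rfl
  -- `ρ` stays bounded
  obtain ⟨c0, hc0⟩ := exists_lower v ξ
  have hρ : ∀ᶠ i in (hyperfilter ℕ : Filter ℕ), ((min c0 0 : ℤ) : WithTop ℤ) ≤ v (algebraMap L 𝕂
      (algebraMap (Polynomial F) L (P i) / algebraMap (Polynomial F) L (Q i))) := by
    apply hUle
    have e1 : ∀ᶠ i in atTop, 0 < (t i : ℝ) / (q i) := hκ.eventually (lt_mem_nhds hκ0)
    have e4 : ∀ᶠ i in atTop, (0 : ℝ) < q i := hq.eventually_gt_atTop _
    filter_upwards [e1, e4] with i h1 h4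
    have h5 : (0 : ℝ) < t i := by
      rw [lt_div_iff₀ h4, zero_mul] at h1
      exact h1
    have h6 : 0 < t i := by exact_mod_cast h5
    have h7 : algebraMap L 𝕂 (algebraMap (Polynomial F) L (P i) /
        algebraMap (Polynomial F) L (Q i)) = (algebraMap L 𝕂 (algebraMap (Polynomial F) L (P i) /
        algebraMap (Polynomial F) L (Q i)) - ξ) + ξ := by ring
    rw [h7]
    apply AddValuation.map_le_add
    · rw [ht i]
      have : min c0 0 ≤ t i := le_trans (min_le_right _ _) h6.le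
      exact_mod_cast this
    · refine le_trans ?_ hc0
      have : min c0 0 ≤ c0 := min_le_left _ _
      exact_mod_cast this
  set n := H.natDegree with hn
  set n' := (Bivariate.swap H).natDegree with hn'
  have hn'0 : n' ≠ 0 := by
    intro h0
    obtain ⟨f, hf⟩ := natDegree_eq_zero.1 (hn'.symm.trans h0)
    have hf0 : f ≠ 0 := by
      rintro rfl
      rw [C_0] at hf
      have h1 := Bivariate.swap_swap_apply H
      rw [← hf, map_zero] at h1
      exact hH0 h1.symm
    have h2 := hUle (eventually_eval_ne P Q hcop hQ hh f hf0)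
    obtain ⟨i, hi1, hi2⟩ := (hHev.and h2).exists
    apply hi2
    have h3 := evalEval_swap (algebraMap (Polynomial F) L X ^ (Nat.card F' ^ k i))
      (algebraMap (Polynomial F) L (P i) / algebraMap (Polynomial F) L (Q i)) H
    rw [← hf, evalEval_C] at h3
    rw [h3]
    exact hi1
  have hminC1 : ∀ G : Polynomial (Polynomial L), G ≠ 0 → G.degree < (n : WithBot ℕ) →
      ∀ᶠ i in (hyperfilter ℕ : Filter ℕ), G.evalEval (algebraMap (Polynomial F) L X ^ (q i))
        (algebraMap (Polynomial F) L (P i) / algebraMap (Polynomial F) L (Q i)) ≠ 0 := by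
    intro G hG0 hGdeg
    rw [Ultrafilter.eventually_not]
    intro hcon
    have h1 := (hHker G).1 hcon
    have h2 := degree_le_of_dvd h1 hG0
    rw [degree_eq_natDegree hH0, ← hn] at h2
    exact absurd hGdeg (not_lt.2 h2)
  have hminC2 : ∀ G : Polynomial (Polynomial L), G ≠ 0 → G.degree < (n' : WithBot ℕ) →
      ∀ᶠ i in (hyperfilter ℕ : Filter ℕ), (Bivariate.swap G).evalEval
        (algebraMap (Polynomial F) L X ^ (q i))
        (algebraMap (Polynomial F) L (P i) / algebraMap (Polynomial F) L (Q i)) ≠ 0 := by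
    intro G hG0 hGdeg
    rw [Ultrafilter.eventually_not]
    intro hcon
    have h1 := (hHker (Bivariate.swap G)).1 hcon
    have h2 : Bivariate.swap H ∣ G := by
      obtain ⟨c, hc⟩ := h1
      refine ⟨Bivariate.swap c, ?_⟩
      rw [← map_mul, ← hc, Bivariate.swap_swap_apply]
    have h3 := degree_le_of_dvd h2 hG0
    have h4 : Bivariate.swap H ≠ 0 := by
      intro h
      rw [h, natDegree_zero] at hn'
      exact hn'0 hn'
    rw [degree_eq_natDegree h4, ← hn'] at h3
    exact absurd hGdeg (not_lt.2 h3)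
  -- upper bound
  have hup : (n : ℝ) * η ≤ n' := by
    apply arch_le (c := ((n : ℝ) - 1) * η)
    intro K
    obtain ⟨C1, hC1⟩ := stepC1 v hv (hyperfilter ℕ : Filter ℕ) q P Q hcop hQ (min c0 0) hρ H n'
      hHdeg (swap_natDegree_coeff_le H) hHev hminC1 K
    have h1 := lim_ineq hqU hηU ((n : ℝ) * K - n + 1) ((n' : ℝ) * K) C1 (by
      filter_upwards [hC1] with i hi
      exact_mod_cast hi)
    linarith
  have hlow : (n' : ℝ) ≤ n * η := by
    apply arch_le (c := (n' : ℝ) - 1)
    intro K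
    obtain ⟨C2, hC2⟩ := stepC2 v hv (hyperfilter ℕ : Filter ℕ) q P Q hQ (min c0 0) hρ H
      hn'0 hHev hminC2 K
    have h1 := lim_ineq' hqU hηU ((n' : ℝ) * K - n' + 1) ((n : ℝ) * K) C2 (by
      filter_upwards [hC2] with i hi
      exact_mod_cast hi)
    linarith
  have hnpos : (0 : ℝ) < n := by
    have : 0 < n := Nat.pos_of_ne_zero hHdeg
    exact_mod_cast this
  have hn'pos : (0 : ℚ) < n' := by
    have : 0 < n' := Nat.pos_of_ne_zero hn'0
    exact_mod_cast this
  refine ⟨stepD v hv (hyperfilter ℕ : Filter ℕ) q hqU _ ξ t ht κ hκU H hH0 hHev,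
    (n' : ℚ) / n, div_pos hn'pos (by exact_mod_cast hnpos), ?_⟩
  push_cast
  rw [eq_div_iff hnpos.ne']
  linarith

end Main

end Pool.Agent.MP3c0690
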