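import Mathlib
import Pool.Agent.Lib.MP_3c0690_nt.Main

namespace Pool.Agent.MP3c0690

open Finset Polynomial TensorProduct Filter

set_option linter.unusedSectionVars false

section Core2

variable {F : Type*} [Field F] [Finite F]
variable {L : Type*} [Field L] [Algebra F L] [Algebra (Polynomial F) L]
  [IsScalarTower F (Polynomial F) L] [IsFractionRing (Polynomial F) L]
variable {𝕂 : Type*} [Field 𝕂] [Algebra L 𝕂] (v : AddValuation 𝕂 (WithTop ℤ))

/-- Core theorem: the limit of `deg Q / v (P / Q - ξ)` along a sequence of very good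
approximations is a positive rational number. -/
theorem core2 (hv : ∀ P : Polynomial F, P ≠ 0 →
      v (algebraMap L 𝕂 (algebraMap (Polynomial F) L P)) =
        ((-(P.natDegree : ℤ) : ℤ) : WithTop ℤ))
    (hcoef : ∀ a : ℤ, ∃ c : 𝕂 →+ F, ∀ x, (a : WithTop ℤ) ≤ v x → c x = 0 →
      ((a + 1 : ℤ) : WithTop ℤ) ≤ v x)
    (ξ : 𝕂) (hξ : IsIntegral L ξ)
    (P Q : ℕ → Polynomial F) (hcop : ∀ i, IsCoprime (P i) (Q i)) (hQ : ∀ i, Q i ≠ 0)
    (hh : Tendsto (fun i => (Q i).natDegree) atTop atTop)
    (t : ℕ → ℤ) (ht : ∀ i, v (algebraMap L 𝕂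
      (algebraMap (Polynomial F) L (P i) / algebraMap (Polynomial F) L (Q i)) - ξ) = t i)
    (htpos : ∀ i, 0 < t i) (τ : ℝ)
    (hτ : Tendsto (fun i => ((Q i).natDegree : ℝ) / t i) atTop (nhds τ)) (hτ2 : τ < 1 / 2) :
    ∃ r : ℚ, 0 < r ∧ τ = r := by
  classical
  obtain ⟨p, hp⟩ := CharP.exists F
  have hpp : p.Prime := CharP.char_is_prime F p
  have : Fact p.Prime := ⟨hpp⟩
  have hL : CharP L p := charP_of_injective_algebraMap (algebraMap F L).injective p
  have hsep : (minpoly L ξ).Separable := minpoly_separable v p (by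
    rw [hv X X_ne_zero, natDegree_X]
    rfl) ξ hξ
  let M := (minpoly L ξ).SplittingField
  have hGal : IsGalois L M := IsGalois.of_separable_splitting_field hsep
  have hsplit : Splits ((minpoly L ξ).map (algebraMap L M)) := SplittingField.splits _
  obtain ⟨ξM, hroot⟩ : ∃ x : M, aeval x (minpoly L ξ) = 0 := by
    have hdeg : ((minpoly L ξ).map (algebraMap L M)).degree ≠ 0 := by
      rw [degree_map]
      exact (minpoly.degree_pos hξ).ne'
    obtain ⟨x, hx⟩ := hsplit.exists_eval_eq_zero hdeg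
    refine ⟨x, ?_⟩
    rwa [aeval_def, ← eval_map]
  have hξM : minpoly L ξM = minpoly L ξ :=
    (minpoly.eq_of_irreducible_of_monic (minpoly.irreducible hξ) hroot (minpoly.monic hξ)).symm
  have hM : CharP M p := charP_of_injective_algebraMap (algebraMap L M).injective p
  set N := (Module.finrank L M).factorial with hN
  have hN0 : N ≠ 0 := Nat.factorial_ne_zero _
  let F' := constField F M N
  have hF'fin : Finite F' := constField_finite F M hN0
  have hfin : ∀ (V : Submodule F' M), FiniteDimensional F' V → ∀ z : M ⊗[F'] V, z ≠ 0 →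
      {k : ℕ | ev F' V k z = 0}.Finite := by
    intro V hV z hz
    refine ev_finite (p := p) (algebraMap L M (algebraMap (Polynomial F) L X)) ?_ ?_ ?_ V z hz
    · intro r x
      exact sep_decomp (algebraMap (Polynomial F) L X) r (frac_decomp r) x
    · intro r c hc
      refine sep_unique (algebraMap (Polynomial F) L X) r ?_ c hc
      intro c hc j hj
      have h1 := val_unique v (algebraMap L 𝕂 (algebraMap (Polynomial F) L X)) (by
        rw [hv X X_ne_zero, natDegree_X]
        rfl) (p ^ r) (fun j => algebraMap L 𝕂 (c j)) (by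
        have h2 := congrArg (algebraMap L 𝕂) hc
        rw [map_sum, map_zero] at h2
        rw [← h2]
        refine Finset.sum_congr rfl fun j _ => ?_
        rw [map_mul, map_pow, map_pow]) j hj
      exact (map_eq_zero (algebraMap L 𝕂)).1 h1
    · intro x hx
      have h1 := pow_card_of_forall_root (F := F) (L := L) (p := p) x hx
      exact ⟨⟨x, (mem_constField F M).2 h1⟩, rfl⟩
  -- choice of exponents
  set q1 := Nat.card F' with hq1
  have hq1' : 1 < q1 := Finite.one_lt_card
  set T : ℕ → ℕ := fun i => (t i).toNat with hT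
  have hTt : ∀ i, ((T i : ℕ) : ℤ) = t i := fun i => Int.toNat_of_nonneg (htpos i).le
  have hTr : ∀ i, ((T i : ℕ) : ℝ) = t i := fun i => by
    rw [← hTt i]
    simp
  have hTpos : ∀ i, 0 < T i := fun i => by
    have := hTt i
    have := htpos i
    omega
  set k : ℕ → ℕ := fun i => Nat.log q1 (T i) with hk
  have hk1 : ∀ i, q1 ^ k i ≤ T i := fun i => Nat.pow_log_le_self q1 (hTpos i).ne'
  have hk2 : ∀ i, T i < q1 ^ (k i + 1) := fun i => Nat.lt_pow_succ_log_self hq1' _
  have hTinf : Tendsto T atTop atTop := by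
    have e1 : ∀ᶠ i in atTop, ((Q i).natDegree : ℝ) / t i < 1 / 2 :=
      hτ.eventually (gt_mem_nhds hτ2)
    refine tendsto_atTop_mono' atTop ?_ hh
    filter_upwards [e1] with i hi
    have h1 : (0 : ℝ) < t i := by exact_mod_cast htpos i
    rw [div_lt_iff₀ h1, ← hTr i] at hi
    have h2 : ((Q i).natDegree : ℝ) ≤ T i := by
      have : (0 : ℝ) ≤ T i := by positivity
      linarith
    exact_mod_cast h2
  have hkinf : Tendsto k atTop atTop := by
    rw [tendsto_atTop]
    intro K
    filter_upwards [hTinf.eventually_ge_atTop (q1 ^ K)] with i hi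
    exact Nat.le_log_of_pow_le hq1' hi
  have hqpos : ∀ i, (0 : ℝ) < (q1 ^ k i : ℕ) := fun i => by
    have : 0 < q1 ^ k i := pow_pos (by omega) _
    exact_mod_cast this
  have hmem : ∀ i, (t i : ℝ) / (q1 ^ k i : ℕ) ∈ Set.Icc (1 : ℝ) q1 := by
    intro i
    rw [← hTr i]
    constructor
    · rw [le_div_iff₀ (hqpos i), one_mul]
      exact_mod_cast hk1 i
    · rw [div_le_iff₀ (hqpos i)]
      have := (hk2 i).le
      rw [pow_succ'] at this
      exact_mod_cast this
  obtain ⟨κ, hκmem, φ, hφ, hκ⟩ := (isCompact_Icc (a := (1 : ℝ)) (b := (q1 : ℝ))).tendsto_subseq hmem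
  have hφinf : Tendsto φ atTop atTop := hφ.tendsto_atTop
  have hκpos : 0 < κ := lt_of_lt_of_le one_pos hκmem.1
  have hη : Tendsto (fun i => ((Q (φ i)).natDegree : ℝ) / (q1 ^ k (φ i) : ℕ)) atTop
      (nhds (τ * κ)) := by
    have h1 := (hτ.comp hφinf).mul hκ
    refine h1.congr fun i => ?_
    simp only [Function.comp_apply]
    have h2 : (t (φ i) : ℝ) ≠ 0 := by
      have := htpos (φ i)
      exact_mod_cast this.ne'
    have h3 := (hqpos (φ i)).ne'
    field_simp
  obtain ⟨⟨r1, hr1⟩, ⟨r2, hr2, hr2'⟩⟩ := core1 (F := F) (L := L) (M := M) F' v hv hcoef hfin ξ ξM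
    hξM (fun i => P (φ i)) (fun i => Q (φ i)) (fun i => hcop _) (fun i => hQ _)
    (hh.comp hφinf) (fun i => t (φ i)) (fun i => ht _) (fun i => k (φ i)) (hkinf.comp hφinf)
    κ (τ * κ) hκ hη hκpos (by
      have := mul_lt_mul_of_pos_right hτ2 hκpos
      linarith)
  have hr1pos : (0 : ℝ) < r1 := by rw [← hr1]; exact hκpos
  refine ⟨r2 / r1, div_pos hr2 (by exact_mod_cast hr1pos), ?_⟩
  push_cast
  rw [eq_div_iff hr1pos.ne', ← hr1]
  exact hr2'

end Core2

end Pool.Agent.MP3c0690
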