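import Mathlib
import Pool.Agent.Lib.MP_3c0690_nt.Core2

namespace Pool.Agent.MP3c0690

open Finset Polynomial Filter

set_option linter.unusedSectionVars false

section Final

variable {F : Type*} [Field F] [Finite F]
variable {𝕂 : Type*} [Field 𝕂] (v : AddValuation 𝕂 (WithTop ℤ)) (emb : Polynomial F →+* 𝕂)

/-- The larger of the two degrees. -/
def dg (x : Polynomial F × Polynomial F) : ℕ := max x.1.natDegree x.2.natDegree

theorem dg_finite (K : ℕ) : {x : Polynomial F × Polynomial F | dg x ≤ K}.Finite := by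
  have h1 : {A : Polynomial F | A.natDegree ≤ K}.Finite := by
    have h2 : Finite (degreeLT F (K + 1)) := Finite.of_equiv _ (degreeLTEquiv F (K + 1)).symm.toEquiv
    refine (Set.toFinite (degreeLT F (K + 1) : Set (Polynomial F))).subset ?_
    intro A hA
    rw [SetLike.mem_coe, mem_degreeLT]
    exact lt_of_le_of_lt degree_le_natDegree (by
      have : A.natDegree ≤ K := hA
      exact_mod_cast Nat.lt_succ_of_le this)
  refine (h1.prod h1).subset ?_
  intro x hx
  have hx' : dg x ≤ K := hx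
  exact ⟨(le_max_left _ _).trans hx', (le_max_right _ _).trans hx'⟩

/-- Value of the linear form `A + B ξ`. -/
noncomputable def lin (ξ : 𝕂) (x : Polynomial F × Polynomial F) : 𝕂 := emb x.1 + emb x.2 * ξ

/-- The linear forms `A + B ξ` with `w * log H ≤ - log |A + B ξ| < ∞`. -/
def SS (ξ : 𝕂) (w : ℝ) : Set (Polynomial F × Polynomial F) :=
  {x | ∃ a : ℤ, v (lin emb ξ x) = a ∧ w * (dg x : ℝ) ≤ a}

theorem SS_mono (ξ : 𝕂) {w w' : ℝ} (h : w ≤ w') : SS v emb ξ w' ⊆ SS v emb ξ w := by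
  rintro x ⟨a, ha, hw⟩
  exact ⟨a, ha, le_trans (mul_le_mul_of_nonneg_right h (by positivity)) hw⟩

variable {v emb}

theorem emb_inj (hv : ∀ P : Polynomial F, P ≠ 0 →
      v (emb P) = ((-(P.natDegree : ℤ) : ℤ) : WithTop ℤ)) : Function.Injective emb := by
  rw [injective_iff_map_eq_zero]
  intro P hP
  by_contra hne
  have := hv P hne
  rw [hP, AddValuation.map_zero] at this
  exact WithTop.coe_ne_top this.symm

/-- Values of linear forms of bounded height are bounded. -/
theorem bounded_of_dg (ξ : 𝕂) (K : ℕ) :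
    ∃ N : ℤ, ∀ x : Polynomial F × Polynomial F, dg x ≤ K → ∀ a : ℤ,
      v (lin emb ξ x) = a → a ≤ N := by
  classical
  have hfin : ((fun x : Polynomial F × Polynomial F => v (lin emb ξ x)) ''
      {x | dg x ≤ K}).Finite := (dg_finite K).image _
  have hfin2 : {a : ℤ | (a : WithTop ℤ) ∈ ((fun x : Polynomial F × Polynomial F =>
      v (lin emb ξ x)) '' {x | dg x ≤ K})}.Finite :=
    Set.Finite.preimage (fun a _ b _ h => WithTop.coe_inj.1 h) hfin
  obtain ⟨N, hN⟩ := hfin2.bddAbove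
  exact ⟨N, fun x hx a ha => hN ⟨x, hx, ha⟩⟩

/-- Dirichlet's theorem by the pigeonhole principle. -/
theorem dirichlet (hv : ∀ P : Polynomial F, P ≠ 0 →
      v (emb P) = ((-(P.natDegree : ℤ) : ℤ) : WithTop ℤ))
    (hcoef : ∀ a : ℤ, ∃ c : 𝕂 →+ F, ∀ x, (a : WithTop ℤ) ≤ v x → c x = 0 →
      ((a + 1 : ℤ) : WithTop ℤ) ≤ v x) (ξ : 𝕂) :
    ∃ c0 : ℕ, ∀ m : ℕ, ∃ x : Polynomial F × Polynomial F, x ≠ 0 ∧ dg x ≤ m + c0 ∧
      ((m : ℤ) : WithTop ℤ) ≤ v (lin emb ξ x) := by
  classical
  have := Fintype.ofFinite F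
  obtain ⟨c1, hc1⟩ := exists_lower v ξ
  refine ⟨(-c1).toNat, fun m => ?_⟩
  set c0 := (-c1).toNat with hc0
  have hc0' : -c1 ≤ (c0 : ℤ) := Int.self_le_toNat _
  obtain ⟨c, hc⟩ := coef_iter v hcoef (-((m + c0 : ℕ) : ℤ)) (2 * m + c0)
  let e1 := (degreeLTEquiv F (m + c0 + 1)).symm
  let e2 := (degreeLTEquiv F (m + 1)).symm
  let Φ : (Fin (m + c0 + 1) → F) × (Fin (m + 1) → F) → Polynomial F × Polynomial F :=
    fun y => ((e1 y.1 : Polynomial F), (e2 y.2 : Polynomial F))
  have hΦ : ∀ y, (Φ y).1.natDegree ≤ m + c0 ∧ (Φ y).2.natDegree ≤ m := by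
    intro y
    have h1 := mem_degreeLT.1 (e1 y.1).2
    have h2 := mem_degreeLT.1 (e2 y.2).2
    constructor
    · exact natDegree_le_of_degree_le (Order.le_of_lt_succ (by exact_mod_cast h1))
    · exact natDegree_le_of_degree_le (Order.le_of_lt_succ (by exact_mod_cast h2))
  have hcard : Fintype.card (Fin (2 * m + c0) → F) <
      Fintype.card ((Fin (m + c0 + 1) → F) × (Fin (m + 1) → F)) := by
    rw [Fintype.card_prod, Fintype.card_fun, Fintype.card_fun, Fintype.card_fun, Fintype.card_fin,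
      Fintype.card_fin, Fintype.card_fin, ← pow_add]
    exact Nat.pow_lt_pow_right Fintype.one_lt_card (by omega)
  obtain ⟨y, z, hyz, heq⟩ := Fintype.exists_ne_map_eq_of_card_lt
    (fun y => c (lin emb ξ (Φ y))) hcard
  refine ⟨Φ y - Φ z, ?_, ?_, ?_⟩
  · intro h0
    apply hyz
    have h1 := sub_eq_zero.1 h0
    have h2 : (e1 y.1 : Polynomial F) = e1 z.1 := congrArg Prod.fst h1
    have h3 : (e2 y.2 : Polynomial F) = e2 z.2 := congrArg Prod.snd h1
    exact Prod.ext (e1.injective (Subtype.ext h2)) (e2.injective (Subtype.ext h3))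
  · have h1 := hΦ y
    have h2 := hΦ z
    apply max_le
    · exact (natDegree_sub_le _ _).trans (max_le h1.1 h2.1)
    · exact (natDegree_sub_le _ _).trans (max_le (by omega) (by omega))
  · have hbase : ∀ y, ((-((m + c0 : ℕ) : ℤ) : ℤ) : WithTop ℤ) ≤ v (lin emb ξ (Φ y)) := by
      intro y
      have h1 := hΦ y
      apply AddValuation.map_le_add
      · rcases eq_or_ne (Φ y).1 0 with h0 | h0
        · rw [h0, map_zero, AddValuation.map_zero]
          exact le_top
        · rw [hv _ h0]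
          have := h1.1
          exact_mod_cast (by omega : -((m + c0 : ℕ) : ℤ) ≤ -((Φ y).1.natDegree : ℤ))
      · rcases eq_or_ne (Φ y).2 0 with h0 | h0
        · rw [h0, map_zero, zero_mul, AddValuation.map_zero]
          exact le_top
        · rw [AddValuation.map_mul, hv _ h0]
          refine le_trans ?_ (add_le_add le_rfl hc1)
          rw [← WithTop.coe_add, WithTop.coe_le_coe]
          have := h1.2
          push_cast
          omega
    have hlin : lin emb ξ (Φ y - Φ z) = lin emb ξ (Φ y) - lin emb ξ (Φ z) := by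
      simp only [lin, Prod.fst_sub, Prod.snd_sub, map_sub]
      ring
    have h1 : c (lin emb ξ (Φ y - Φ z)) = 0 := by
      rw [hlin, map_sub, sub_eq_zero]
      exact heq
    have h2 : ((-((m + c0 : ℕ) : ℤ) : ℤ) : WithTop ℤ) ≤ v (lin emb ξ (Φ y - Φ z)) := by
      rw [hlin]
      exact AddValuation.map_le_sub v (hbase y) (hbase z)
    have h3 := hc _ h2 h1
    refine le_trans ?_ h3
    rw [WithTop.coe_le_coe]
    push_cast
    omega

/-- The rational case. -/
theorem final_rational (hv : ∀ P : Polynomial F, P ≠ 0 →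
      v (emb P) = ((-(P.natDegree : ℤ) : ℤ) : WithTop ℤ)) (ξ : 𝕂)
    (x0 : Polynomial F × Polynomial F) (hx0 : x0 ≠ 0) (hx : lin emb ξ x0 = 0) :
    (∀ w : ℝ, w < 0 → (SS v emb ξ w).Infinite) ∧ (∀ w : ℝ, 0 < w → (SS v emb ξ w).Finite) := by
  classical
  have hinj := emb_inj hv
  have hB0 : x0.2 ≠ 0 := by
    intro h0
    rw [lin, h0, map_zero, zero_mul, add_zero] at hx
    have h1 : x0.1 = 0 := hinj (by rw [hx, map_zero])
    exact hx0 (Prod.ext h1 h0)
  constructor
  · intro w hw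
    have hinf : (Set.range fun m : ℕ => ((x0.1 * X ^ m + 1, x0.2 * X ^ m) :
        Polynomial F × Polynomial F)).Infinite := by
      apply Set.infinite_range_of_injective
      intro a b hab
      have h1 := congrArg Prod.snd hab
      simp only at h1
      have h2 := congrArg natDegree (mul_left_cancel₀ hB0 h1)
      simpa using h2
    refine hinf.mono ?_
    rintro _ ⟨m, rfl⟩
    refine ⟨0, ?_, ?_⟩
    · have h1 : lin emb ξ (x0.1 * X ^ m + 1, x0.2 * X ^ m) = 1 := by
        have h2 : lin emb ξ (x0.1 * X ^ m + 1, x0.2 * X ^ m) =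
            emb (X ^ m) * lin emb ξ x0 + 1 := by
          simp only [lin, map_mul, map_add, map_one]
          ring
        rw [h2, hx, mul_zero, zero_add]
      rw [h1, AddValuation.map_one]
      rfl
    · have : (0 : ℝ) ≤ (dg (x0.1 * X ^ m + 1, x0.2 * X ^ m) : ℝ) := by positivity
      push_cast
      nlinarith
  · intro w hw
    refine (dg_finite (⌈(x0.2.natDegree : ℝ) / w⌉₊)).subset ?_
    rintro x ⟨a, ha, hwa⟩
    have h1 : emb x0.2 * lin emb ξ x = emb (x0.2 * x.1 - x.2 * x0.1) := by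
      have h2 : emb x0.2 * ξ = -emb x0.1 := by
        rw [lin] at hx
        linear_combination hx
      simp only [lin, map_sub, map_mul]
      linear_combination emb x.2 * h2
    have h3 : x0.2 * x.1 - x.2 * x0.1 ≠ 0 := by
      intro h0
      rw [h0, map_zero] at h1
      rcases mul_eq_zero.1 h1 with h4 | h4
      · exact hB0 (hinj (by rw [h4, map_zero]))
      · rw [h4, AddValuation.map_zero] at ha
        exact WithTop.coe_ne_top ha.symm
    have h5 := congrArg v h1
    rw [AddValuation.map_mul, hv _ hB0, hv _ h3, ha, ← WithTop.coe_add, WithTop.coe_inj] at h5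
    have h6 : a ≤ x0.2.natDegree := by
      have : (0 : ℤ) ≤ ((x0.2 * x.1 - x.2 * x0.1).natDegree : ℤ) := Int.natCast_nonneg _
      omega
    have h7 : w * (dg x : ℝ) ≤ x0.2.natDegree := by
      refine hwa.trans ?_
      exact_mod_cast h6
    have h8 : (dg x : ℝ) ≤ (x0.2.natDegree : ℝ) / w := by
      rw [le_div_iff₀ hw]
      linarith
    have h9 : (dg x : ℝ) ≤ (⌈(x0.2.natDegree : ℝ) / w⌉₊ : ℝ) := h8.trans (Nat.le_ceil _)
    exact_mod_cast h9

/-- Every `w < 1` is admissible when `ξ` is irrational. -/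
theorem infinite_of_lt_one (hv : ∀ P : Polynomial F, P ≠ 0 →
      v (emb P) = ((-(P.natDegree : ℤ) : ℤ) : WithTop ℤ))
    (hcoef : ∀ a : ℤ, ∃ c : 𝕂 →+ F, ∀ x, (a : WithTop ℤ) ≤ v x → c x = 0 →
      ((a + 1 : ℤ) : WithTop ℤ) ≤ v x) (ξ : 𝕂)
    (hirr : ∀ x : Polynomial F × Polynomial F, lin emb ξ x = 0 → x = 0) (w : ℝ) (hw : w < 1) :
    (SS v emb ξ w).Infinite := by
  classical
  obtain ⟨c0, hc0⟩ := dirichlet hv hcoef ξ
  intro hfin
  -- values on a finite set are bounded
  obtain ⟨N, hN⟩ : ∃ N : ℕ, ∀ x ∈ SS v emb ξ w, dg x ≤ N := by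
    obtain ⟨N, hN⟩ := (hfin.image dg).bddAbove
    exact ⟨N, fun x hx => hN ⟨x, hx, rfl⟩⟩
  obtain ⟨B, hB⟩ := bounded_of_dg (v := v) (emb := emb) ξ N
  obtain ⟨m1, hm1⟩ := exists_nat_gt ((c0 : ℝ) * max w 0 / (1 - max w 0))
  set m : ℕ := max m1 (B.toNat + 1) with hm
  obtain ⟨x, hx0, hxd, hxv⟩ := hc0 m
  have hne : v (lin emb ξ x) ≠ ⊤ := by
    rw [AddValuation.ne_top_iff]
    exact fun h => hx0 (hirr x h)
  obtain ⟨a, ha⟩ := WithTop.ne_top_iff_exists.1 hne
  rw [← ha, WithTop.coe_le_coe] at hxv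
  have hxS : x ∈ SS v emb ξ w := by
    refine ⟨a, ha.symm, ?_⟩
    set w' := max w 0 with hw'
    have hw'1 : w' < 1 := max_lt hw one_pos
    have hw'0 : 0 ≤ w' := le_max_right _ _
    have h1 : w * (dg x : ℝ) ≤ w' * (dg x : ℝ) :=
      mul_le_mul_of_nonneg_right (le_max_left _ _) (by positivity)
    have h2 : w' * (dg x : ℝ) ≤ w' * (m + c0) :=
      mul_le_mul_of_nonneg_left (by exact_mod_cast hxd) hw'0
    have h3 : (m1 : ℝ) ≤ m := by exact_mod_cast le_max_left _ _
    have h4 : (c0 : ℝ) * w' / (1 - w') < m := lt_of_lt_of_le hm1 h3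
    rw [div_lt_iff₀ (by linarith)] at h4
    have h5 : w' * (m + c0) ≤ m := by nlinarith
    have h6 : (m : ℝ) ≤ a := by exact_mod_cast hxv
    linarith
  have h7 := hB x (hN x hxS) a ha.symm
  have h8 : B.toNat + 1 ≤ m := le_max_right _ _
  have h9 := Int.self_le_toNat B
  omega

end Final

end Pool.Agent.MP3c0690
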