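import Mathlib
import Pool.Agent.Lib.MP_3c0690_nt.Final

namespace Pool.Agent.MP3c0690

open Finset Polynomial Filter

set_option linter.unusedSectionVars false

section Final2

variable {F : Type*} [Field F] [Finite F]
variable {𝕂 : Type*} [Field 𝕂] {v : AddValuation 𝕂 (WithTop ℤ)} {emb : Polynomial F →+* 𝕂}

/-- Division by the gcd. -/
theorem exists_primitive (x : Polynomial F × Polynomial F) (hx : x ≠ 0) :
    ∃ (g : Polynomial F) (y : Polynomial F × Polynomial F), g ≠ 0 ∧ x = (g * y.1, g * y.2) ∧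
      IsCoprime y.1 y.2 := by
  classical
  let := EuclideanDomain.gcdMonoid (Polynomial F)
  have hg : GCDMonoid.gcd x.1 x.2 ≠ 0 := by
    intro h
    rw [_root_.gcd_eq_zero_iff] at h
    exact hx (Prod.ext h.1 h.2)
  refine ⟨GCDMonoid.gcd x.1 x.2, (x.1 / GCDMonoid.gcd x.1 x.2, x.2 / GCDMonoid.gcd x.1 x.2), hg, ?_,
    isCoprime_div_gcd_div_gcd_of_gcd_ne_zero hg⟩
  ext1
  · exact (EuclideanDomain.mul_div_cancel' hg (gcd_dvd_left _ _)).symm
  · exact (EuclideanDomain.mul_div_cancel' hg (gcd_dvd_right _ _)).symm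

/-- The core theorem in terms of linear forms. -/
theorem core3 (hv : ∀ P : Polynomial F, P ≠ 0 →
      v (emb P) = ((-(P.natDegree : ℤ) : ℤ) : WithTop ℤ))
    (hcoef : ∀ a : ℤ, ∃ c : 𝕂 →+ F, ∀ x, (a : WithTop ℤ) ≤ v x → c x = 0 →
      ((a + 1 : ℤ) : WithTop ℤ) ≤ v x) (ξ : 𝕂)
    (hξ : ∃ f : Polynomial (Polynomial F), f ≠ 0 ∧ f.eval₂ emb ξ = 0)
    (x : ℕ → Polynomial F × Polynomial F) (hcop : ∀ i, IsCoprime (x i).1 (x i).2)
    (hB : ∀ i, (x i).2 ≠ 0) (a : ℕ → ℤ) (ha : ∀ i, v (lin emb ξ (x i)) = a i)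
    (hapos : ∀ i, 0 < a i) (hD : Tendsto (fun i => dg (x i)) atTop atTop)
    (lam : ℝ) (hlam : lam < 1) (hlim : Tendsto (fun i => (dg (x i) : ℝ) / a i) atTop (nhds lam)) :
    ∃ r : ℚ, 0 < r ∧ lam = r := by
  classical
  have hinj := emb_inj hv
  -- lam is nonnegative
  have hlam0 : 0 ≤ lam := by
    refine ge_of_tendsto hlim (Eventually.of_forall fun i => ?_)
    have : (0 : ℝ) < a i := by exact_mod_cast hapos i
    positivity
  let L := FractionRing (Polynomial F)
  let φ : L →+* 𝕂 := IsFractionRing.lift hinj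
  let : Algebra L 𝕂 := φ.toAlgebra
  have hφ : ∀ P : Polynomial F, algebraMap L 𝕂 (algebraMap (Polynomial F) L P) = emb P := by
    intro P
    exact IsFractionRing.lift_algebraMap hinj P
  have hv' : ∀ P : Polynomial F, P ≠ 0 →
      v (algebraMap L 𝕂 (algebraMap (Polynomial F) L P)) =
        ((-(P.natDegree : ℤ) : ℤ) : WithTop ℤ) := by
    intro P hP
    rw [hφ]
    exact hv P hP
  have hint : IsIntegral L ξ := by
    rw [← isAlgebraic_iff_isIntegral]
    obtain ⟨f, hf0, hf⟩ := hξ
    refine ⟨f.map (algebraMap (Polynomial F) L), ?_, ?_⟩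
    · rwa [Ne, Polynomial.map_eq_zero_iff (IsFractionRing.injective (Polynomial F) L)]
    · rw [aeval_def, eval₂_map, ← hf]
      congr 1
      ext P
      · simp [hφ]
      · simp [hφ]
  -- degree comparison
  obtain ⟨c1, hc1⟩ := exists_lower v ξ
  set c : ℕ := (-c1).toNat with hc
  have hcc : -c1 ≤ (c : ℤ) := Int.self_le_toNat _
  have hdeg : ∀ i, dg (x i) ≤ (x i).2.natDegree + c := by
    intro i
    apply max_le _ (Nat.le_add_right _ _)
    rcases eq_or_ne (x i).1 0 with h0 | h0
    · rw [h0, natDegree_zero]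
      exact Nat.zero_le _
    · have h1 : emb (x i).1 = lin emb ξ (x i) - emb (x i).2 * ξ := by
        rw [lin]
        ring
      have h2 : ((-((x i).2.natDegree + c : ℤ) : ℤ) : WithTop ℤ) ≤ v (emb (x i).1) := by
        rw [h1]
        apply AddValuation.map_le_sub
        · rw [ha i, WithTop.coe_le_coe]
          have := hapos i
          have h3 : (0 : ℤ) ≤ ((x i).2.natDegree : ℤ) := Int.natCast_nonneg _
          have h4 : (0 : ℤ) ≤ (c : ℤ) := Int.natCast_nonneg _
          omega
        · rw [AddValuation.map_mul, hv _ (hB i)]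
          refine le_trans ?_ (add_le_add le_rfl hc1)
          rw [← WithTop.coe_add, WithTop.coe_le_coe]
          omega
      rw [hv _ h0, WithTop.coe_le_coe] at h2
      omega
  have hdeg' : ∀ i, (x i).2.natDegree ≤ dg (x i) := fun i => le_max_right _ _
  have hapos' : ∀ i, (0 : ℝ) < a i := fun i => by exact_mod_cast hapos i
  -- `a → ∞`
  have hainf : Tendsto (fun i => (a i : ℝ)) atTop atTop := by
    have e1 : ∀ᶠ i in atTop, (dg (x i) : ℝ) / a i < 1 := hlim.eventually (gt_mem_nhds hlam)
    refine tendsto_atTop_mono' atTop ?_ (tendsto_natCast_atTop_atTop.comp hD)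
    filter_upwards [e1] with i hi
    rw [div_lt_iff₀ (hapos' i), one_mul] at hi
    exact hi.le
  have hhinf : Tendsto (fun i => (x i).2.natDegree) atTop atTop := by
    rw [tendsto_atTop] at hD ⊢
    intro K
    filter_upwards [hD (K + c)] with i hi
    have := hdeg i
    omega
  -- limit of `h / a`
  have hlim2 : Tendsto (fun i => ((x i).2.natDegree : ℝ) / a i) atTop (nhds lam) := by
    have h1 : Tendsto (fun i => (dg (x i) : ℝ) / a i - (c : ℝ) / a i) atTop (nhds (lam - 0)) :=
      hlim.sub (tendsto_const_nhds.div_atTop hainf)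
    rw [sub_zero] at h1
    refine tendsto_of_tendsto_of_tendsto_of_le_of_le h1 hlim (fun i => ?_) (fun i => ?_)
    · simp only
      rw [← sub_div]
      apply div_le_div_of_nonneg_right _ (hapos' i).le
      have : (dg (x i) : ℝ) ≤ (x i).2.natDegree + c := by exact_mod_cast hdeg i
      linarith
    · apply div_le_div_of_nonneg_right _ (hapos' i).le
      exact_mod_cast hdeg' i
  set t : ℕ → ℤ := fun i => a i + (x i).2.natDegree with ht
  have htv : ∀ i, v (algebraMap L 𝕂 (algebraMap (Polynomial F) L (-(x i).1) /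
      algebraMap (Polynomial F) L (x i).2) - ξ) = t i := by
    intro i
    have hB' : emb (x i).2 ≠ 0 := by
      intro h
      exact hB i (hinj (by rw [h, map_zero]))
    have h1 : emb (x i).2 * (algebraMap L 𝕂 (algebraMap (Polynomial F) L (-(x i).1) /
      algebraMap (Polynomial F) L (x i).2) - ξ) = -lin emb ξ (x i) := by
      rw [map_div₀, hφ, hφ, lin, map_neg]
      field_simp
      ring
    have h2 := congrArg v h1
    rw [AddValuation.map_mul, AddValuation.map_neg, ha i, hv _ (hB i)] at h2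
    have hne : v (algebraMap L 𝕂 (algebraMap (Polynomial F) L (-(x i).1) /
      algebraMap (Polynomial F) L (x i).2) - ξ) ≠ ⊤ := by
      intro h
      rw [h, WithTop.add_top] at h2
      exact WithTop.coe_ne_top h2.symm
    obtain ⟨w, hw⟩ := WithTop.ne_top_iff_exists.1 hne
    rw [← hw, ← WithTop.coe_add, WithTop.coe_inj] at h2
    rw [← hw, WithTop.coe_inj, ht]
    simp only
    omega
  have htpos : ∀ i, 0 < t i := by
    intro i
    have := hapos i
    simp only [ht]
    have h3 : (0 : ℤ) ≤ ((x i).2.natDegree : ℤ) := Int.natCast_nonneg _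
    omega
  have hlim3 : Tendsto (fun i => ((x i).2.natDegree : ℝ) / t i) atTop (nhds (lam / (1 + lam))) := by
    have h1 : Tendsto (fun i => (((x i).2.natDegree : ℝ) / a i) /
        (1 + ((x i).2.natDegree : ℝ) / a i)) atTop (nhds (lam / (1 + lam))) :=
      hlim2.div (tendsto_const_nhds.add hlim2) (by positivity)
    refine h1.congr fun i => ?_
    have h2 := hapos' i
    have h3 : (0 : ℝ) < a i + (x i).2.natDegree := by positivity
    simp only [ht]
    push_cast
    have h4 : (1 : ℝ) + ((x i).2.natDegree : ℝ) / a i = (a i + (x i).2.natDegree) / a i := by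
      field_simp
    rw [h4, div_div_div_cancel_right₀ h2.ne']
  obtain ⟨r, hr0, hr⟩ := core2 (F := F) (L := L) v hv' hcoef ξ hint (fun i => -(x i).1)
    (fun i => (x i).2) (fun i => (hcop i).neg_left) hB hhinf t htv htpos (lam / (1 + lam)) hlim3 (by
      rw [div_lt_div_iff₀ (by positivity) (by norm_num)]
      linarith)
  -- solve for `lam`
  have hr1 : (r : ℝ) < 1 := by
    rw [← hr, div_lt_one (by positivity)]
    linarith
  have hr0' : (0 : ℝ) < r := by exact_mod_cast hr0
  refine ⟨r / (1 - r), div_pos hr0 (by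
    have : r < 1 := by exact_mod_cast hr1
    linarith), ?_⟩
  push_cast
  rw [eq_div_iff (by linarith)]
  rw [div_eq_iff (by positivity)] at hr
  linarith

/-- From many good linear forms to coprime ones. -/
theorem exists_seq (hv : ∀ P : Polynomial F, P ≠ 0 →
      v (emb P) = ((-(P.natDegree : ℤ) : ℤ) : WithTop ℤ)) (ξ : 𝕂)
    (w : ℕ → ℝ) (hw1 : ∀ j, 1 ≤ w j) (hw : ∀ j, (SS v emb ξ (w j)).Infinite) :
    ∃ (x : ℕ → Polynomial F × Polynomial F) (a : ℕ → ℤ), (∀ j, IsCoprime (x j).1 (x j).2) ∧
      (∀ j, (x j).2 ≠ 0) ∧ (∀ j, v (lin emb ξ (x j)) = a j) ∧ (∀ j : ℕ, (j : ℤ) < a j) ∧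
      (∀ j, w j * dg (x j) ≤ a j) ∧ Tendsto (fun j => dg (x j)) atTop atTop := by
  classical
  have hinj := emb_inj hv
  have key : ∀ j : ℕ, ∃ (x : Polynomial F × Polynomial F) (a : ℤ), IsCoprime x.1 x.2 ∧
      x.2 ≠ 0 ∧ v (lin emb ξ x) = a ∧ (j : ℤ) < a ∧ w j * dg x ≤ a := by
    intro j
    obtain ⟨y, hyS, hyd⟩ := (hw j).exists_notMem_finite (dg_finite j)
    obtain ⟨b, hb, hwb⟩ := hyS
    have hyd' : j < dg y := not_le.1 hyd
    have hy0 : y ≠ 0 := by
      rintro rfl
      simp [dg] at hyd'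
    obtain ⟨g, x, hg, hyx, hcop⟩ := exists_primitive y hy0
    have hlin : lin emb ξ y = emb g * lin emb ξ x := by
      rw [hyx]
      simp only [lin, map_mul]
      ring
    have hle : dg x ≤ dg y := by
      apply max_le_max
      · rcases eq_or_ne x.1 0 with h0 | h0
        · rw [h0, natDegree_zero]
          exact Nat.zero_le _
        · rw [hyx]
          exact natDegree_le_of_dvd (Dvd.intro_left g rfl) (mul_ne_zero hg h0)
      · rcases eq_or_ne x.2 0 with h0 | h0
        · rw [h0, natDegree_zero]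
          exact Nat.zero_le _
        · rw [hyx]
          exact natDegree_le_of_dvd (Dvd.intro_left g rfl) (mul_ne_zero hg h0)
    rw [hlin, AddValuation.map_mul, hv g hg] at hb
    have hne : v (lin emb ξ x) ≠ ⊤ := by
      intro h
      rw [h, WithTop.add_top] at hb
      exact WithTop.coe_ne_top hb.symm
    obtain ⟨a, ha⟩ := WithTop.ne_top_iff_exists.1 hne
    rw [← ha, ← WithTop.coe_add, WithTop.coe_inj] at hb
    have hba : b ≤ a := by
      have h3 : (0 : ℤ) ≤ (g.natDegree : ℤ) := Int.natCast_nonneg _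
      omega
    have hjb : (j : ℤ) < b := by
      have h1 : (j : ℝ) < b := by
        calc (j : ℝ) < dg y := by exact_mod_cast hyd'
          _ ≤ w j * dg y := by
            have := hw1 j
            have h2 : (0 : ℝ) ≤ dg y := by positivity
            nlinarith
          _ ≤ b := hwb
      exact_mod_cast h1
    have hja : (j : ℤ) < a := lt_of_lt_of_le hjb hba
    refine ⟨x, a, hcop, ?_, ha.symm, hja, ?_⟩
    · intro h0
      -- then `x.1` is a unit
      rw [h0, isCoprime_zero_right] at hcop
      have h1 : x.1 ≠ 0 := hcop.ne_zero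
      have h2 : v (lin emb ξ x) = 0 := by
        rw [lin, h0, map_zero, zero_mul, add_zero, hv _ h1, natDegree_eq_zero_of_isUnit hcop]
        rfl
      rw [← ha] at h2
      have h3 : a = 0 := by exact_mod_cast h2
      omega
    · have h1 : (w j : ℝ) * dg x ≤ w j * dg y :=
        mul_le_mul_of_nonneg_left (by exact_mod_cast hle) (by linarith [hw1 j])
      have h2 : (b : ℝ) ≤ a := by exact_mod_cast hba
      linarith
  choose x a h1 h2 h3 h4 h5 using key
  refine ⟨x, a, h1, h2, h3, h4, h5, ?_⟩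
  rw [tendsto_atTop]
  intro K
  obtain ⟨N, hN⟩ := bounded_of_dg (v := v) (emb := emb) ξ K
  filter_upwards [eventually_ge_atTop N.toNat] with j hj
  by_contra hcon
  have h6 := hN (x j) (not_le.1 hcon).le (a j) (h3 j)
  have h7 := h4 j
  have h8 := Int.self_le_toNat N
  omega

/-- The irrational case. -/
theorem final_irrational (hv : ∀ P : Polynomial F, P ≠ 0 →
      v (emb P) = ((-(P.natDegree : ℤ) : ℤ) : WithTop ℤ))
    (hcoef : ∀ a : ℤ, ∃ c : 𝕂 →+ F, ∀ x, (a : WithTop ℤ) ≤ v x → c x = 0 →
      ((a + 1 : ℤ) : WithTop ℤ) ≤ v x) (ξ : 𝕂)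
    (hξ : ∃ f : Polynomial (Polynomial F), f ≠ 0 ∧ f.eval₂ emb ξ = 0)
    (hirr : ∀ x : Polynomial F × Polynomial F, lin emb ξ x = 0 → x = 0) :
    ∃ r : ℚ, (∀ w : ℝ, w < r → (SS v emb ξ w).Infinite) ∧
      (∀ w : ℝ, (r : ℝ) < w → (SS v emb ξ w).Finite) := by
  classical
  set W : Set ℝ := {w | (SS v emb ξ w).Infinite} with hW
  have hdown : ∀ w w', w ≤ w' → w' ∈ W → w ∈ W := fun w w' h hw' =>
    Set.Infinite.mono (SS_mono v emb ξ h) hw'
  have hlt1 : ∀ w < 1, w ∈ W := fun w hw => infinite_of_lt_one hv hcoef ξ hirr w hw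
  have hne : W.Nonempty := ⟨0, hlt1 0 one_pos⟩
  -- bounded above
  have hbdd : BddAbove W := by
    by_contra hunb
    have hall : ∀ w, w ∈ W := by
      intro w
      rw [not_bddAbove_iff] at hunb
      obtain ⟨w', hw', hlt⟩ := hunb w
      exact hdown w w' hlt.le hw'
    obtain ⟨x, a, hx1, hx2, hx3, hx4, hx5, hx6⟩ := exists_seq hv ξ (fun j => (j : ℝ) + 1)
      (fun j => by
        have : (0 : ℝ) ≤ j := by positivity
        linarith) (fun j => hall _)
    have hapos : ∀ j, 0 < a j := fun j => lt_of_le_of_lt (Int.natCast_nonneg j) (hx4 j)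
    have hlim : Tendsto (fun i => (dg (x i) : ℝ) / a i) atTop (nhds 0) := by
      refine squeeze_zero (fun i => ?_) (fun i => ?_) tendsto_one_div_add_atTop_nhds_zero_nat
      · have : (0 : ℝ) < a i := by exact_mod_cast hapos i
        positivity
      · have h1 : (0 : ℝ) < a i := by exact_mod_cast hapos i
        rw [div_le_div_iff₀ h1 (by positivity)]
        have := hx5 i
        linarith
    obtain ⟨r, hr0, hr⟩ := core3 hv hcoef ξ hξ x hx1 hx2 a hx3 hapos hx6 0 one_pos hlim
    have : (0 : ℝ) < r := by exact_mod_cast hr0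
    rw [← hr] at this
    exact lt_irrefl _ this
  set ws := sSup W with hws
  have hws1 : 1 ≤ ws := by
    apply le_of_forall_lt
    intro c hc
    have h1 : (c + 1) / 2 ∈ W := hlt1 _ (by linarith)
    have h2 := le_csSup hbdd h1
    linarith
  have hinf : ∀ w < ws, w ∈ W := by
    intro w hw
    obtain ⟨w', hw', hlt⟩ := exists_lt_of_lt_csSup hne hw
    exact hdown w w' hlt.le hw'
  have hfin : ∀ w, ws < w → (SS v emb ξ w).Finite := by
    intro w hw
    by_contra hcon
    exact absurd (le_csSup hbdd (show w ∈ W from hcon)) (not_le.2 hw)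
  rcases eq_or_lt_of_le hws1 with h1 | h1
  · refine ⟨1, fun w hw => hinf w ?_, fun w hw => hfin w ?_⟩
    · rw [← h1]
      simpa using hw
    · rw [← h1]
      simpa using hw
  · -- `ws > 1`
    obtain ⟨x, a, hx1, hx2, hx3, hx4, hx5, hx6⟩ := exists_seq hv ξ
      (fun j => max 1 (ws - 1 / ((j : ℝ) + 1))) (fun j => le_max_left _ _) (fun j => by
        apply hinf
        apply max_lt h1
        have : (0 : ℝ) < 1 / ((j : ℝ) + 1) := by positivity
        linarith)
    have hapos : ∀ j, 0 < a j := fun j => lt_of_le_of_lt (Int.natCast_nonneg j) (hx4 j)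
    have hapos' : ∀ j, (0 : ℝ) < a j := fun j => by exact_mod_cast hapos j
    have hlim : Tendsto (fun i => (dg (x i) : ℝ) / a i) atTop (nhds (1 / ws)) := by
      rw [tendsto_order]
      constructor
      · intro c hc
        -- eventually `c < D / a`
        rcases le_or_gt c 0 with hc0 | hc0
        · filter_upwards [hx6.eventually_gt_atTop 0] with i hi
          have h2 : (0 : ℝ) < dg (x i) := by exact_mod_cast hi
          have h3 := hapos' i
          have : 0 < (dg (x i) : ℝ) / a i := by positivity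
          linarith
        · have hlt : ws < 1 / c := by
            rw [lt_div_iff₀ hc0]
            rw [lt_div_iff₀ (by linarith)] at hc
            linarith
          have hF := hfin _ hlt
          obtain ⟨N, hN⟩ : ∃ N : ℕ, ∀ y ∈ SS v emb ξ (1 / c), dg y ≤ N := by
            obtain ⟨N, hN⟩ := (hF.image dg).bddAbove
            exact ⟨N, fun y hy => hN ⟨y, hy, rfl⟩⟩
          filter_upwards [hx6.eventually_gt_atTop N] with i hi
          have hnot : x i ∉ SS v emb ξ (1 / c) := fun h => absurd (hN _ h) (not_le.2 hi)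
          have h2 : (a i : ℝ) < 1 / c * dg (x i) := by
            by_contra hcon
            exact hnot ⟨a i, hx3 i, not_lt.1 hcon⟩
          rw [lt_div_iff₀ (hapos' i)]
          have h3 : c * a i < c * (1 / c * dg (x i)) := mul_lt_mul_of_pos_left h2 hc0
          have h4 : c * (1 / c * dg (x i)) = dg (x i) := by
            field_simp
          linarith
      · intro c hc
        have hc0 : 0 < c := lt_trans (by positivity) hc
        have hlt : 1 / c < ws := by
          have hc' : 1 / ws < c := hc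
          rw [div_lt_iff₀ (by linarith)] at hc'
          rw [div_lt_iff₀ hc0]
          linarith
        -- eventually `1 / c < ws - 1 / (j + 1)`
        have hev : ∀ᶠ j : ℕ in atTop, (1 : ℝ) / ((j : ℝ) + 1) < ws - 1 / c :=
          tendsto_one_div_add_atTop_nhds_zero_nat.eventually (gt_mem_nhds (by linarith))
        filter_upwards [hev] with i hi
        have h2 := hx5 i
        have h3 : 1 / c < max 1 (ws - 1 / ((i : ℝ) + 1)) := lt_max_of_lt_right (by linarith)
        rw [div_lt_iff₀ (hapos' i)]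
        rcases Nat.eq_zero_or_pos (dg (x i)) with h0 | h0
        · rw [h0]
          have := hapos' i
          simp only [Nat.cast_zero]
          positivity
        · have h4 : (0 : ℝ) < dg (x i) := by exact_mod_cast h0
          have h5 : 1 / c * dg (x i) < a i := lt_of_lt_of_le (mul_lt_mul_of_pos_right h3 h4) h2
          have h6 : c * (1 / c * dg (x i)) < c * a i := mul_lt_mul_of_pos_left h5 hc0
          have h7 : c * (1 / c * dg (x i)) = dg (x i) := by
            field_simp
          linarith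
    obtain ⟨r, hr0, hr⟩ := core3 hv hcoef ξ hξ x hx1 hx2 a hx3 hapos hx6 (1 / ws) (by
      rw [div_lt_one (by linarith)]
      exact h1) hlim
    have hwsr : ws = ((1 / r : ℚ) : ℝ) := by
      push_cast
      rw [← hr]
      field_simp
    refine ⟨1 / r, fun w hw => hinf w ?_, fun w hw => hfin w ?_⟩
    · rwa [hwsr]
    · rwa [hwsr]

/-- Both cases together. -/
theorem final_main (hv : ∀ P : Polynomial F, P ≠ 0 →
      v (emb P) = ((-(P.natDegree : ℤ) : ℤ) : WithTop ℤ))
    (hcoef : ∀ a : ℤ, ∃ c : 𝕂 →+ F, ∀ x, (a : WithTop ℤ) ≤ v x → c x = 0 →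
      ((a + 1 : ℤ) : WithTop ℤ) ≤ v x) (ξ : 𝕂)
    (hξ : ∃ f : Polynomial (Polynomial F), f ≠ 0 ∧ f.eval₂ emb ξ = 0) :
    ∃ r : ℚ, (∀ w : ℝ, w < r → (SS v emb ξ w).Infinite) ∧
      (∀ w : ℝ, (r : ℝ) < w → (SS v emb ξ w).Finite) := by
  by_cases h : ∃ x : Polynomial F × Polynomial F, x ≠ 0 ∧ lin emb ξ x = 0
  · obtain ⟨x, hx0, hx⟩ := h
    obtain ⟨h1, h2⟩ := final_rational hv ξ x hx0 hx
    exact ⟨0, fun w hw => h1 w (by simpa using hw), fun w hw => h2 w (by simpa using hw)⟩
  · push Not at h
    exact final_irrational hv hcoef ξ hξ fun x hx => by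
      by_contra hne
      exact h x hne hx

end Final2

end Pool.Agent.MP3c0690
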